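import Pool.Agent.W_3b51b4_h32.TCC
import Pool.Agent.W_61ad90_h15.Card

set_option autoImplicit false
set_option linter.unusedSectionVars false

/-!
# MP_3b51b4_gt : the well-orders exist

`W = (ℵ₁).ord.ToType`, `K = Set ℕ` (`#K = 2 ^ ℵ₀`, `(2 ^ ℵ₀) ^ ℵ₀ = 2 ^ (ℵ₀ * ℵ₀)`), `L = (Order.succ #K).ord.ToType`.
`segW`: the initial segments of the well-order of type `ω₁` are countable (`Cardinal.mk_Iio_ord_toType` or the facts about `Wo`, `To` in
`W_61ad90_h15`, `W_MP_f61043_lc/CardsK.lean`).  `bdW`: `ℵ₁` is regular.  `finW`: `#(Finset W) = #W` (`Cardinal.mk_finset_of_infinite`).  `wk`: `ℵ₁ ≤ 2 ^ ℵ₀`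
(`Cardinal.succ_le_of_lt`, `cantor`).  `segL`: initial segments have cardinality `< succ #K`.  `bdL`: `succ #K` is regular (`isRegular_succ`).
-/

open Cardinal Set

namespace MOF

open Pool.Agent.W_MP_315f31_lc W61

theorem HypI_bd {c : Cardinal.{0}} (hc : c.IsRegular) {J : Type} (f : J → To c) (hJ : #J < c) :
    ∃ b, ∀ j, f j < b := by
  obtain ⟨b, hb⟩ := exists_bd_reg hc (Set.range f) (mk_range_le.trans_lt hJ)
  exact ⟨b, fun j => hb _ ⟨j, rfl⟩⟩

theorem HypI_K : #(Set ℕ) = 2 ^ (ℵ₀ : Cardinal.{0}) := by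
  rw [mk_set, mk_nat]

theorem HypI_K0 : (ℵ₀ : Cardinal.{0}) ≤ #(Set ℕ) := by
  rw [HypI_K]
  exact (cantor _).le

theorem exists_hyp : ∃ (W K L : Type) (_ : LinearOrder W) (_ : WellFoundedLT W) (_ : LinearOrder L)
    (_ : WellFoundedLT L), Hyp W K L := by
  refine ⟨Wo.{0}, Set ℕ, To (Order.succ #(Set ℕ)), inferInstance, inferInstance, inferInstance,
    inferInstance, ?_⟩
  exact
    { segW := fun x => Wo_countable x
      bdW := fun f => HypI_bd isRegular_aleph_one f (by
        rw [mk_nat]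
        exact aleph0_lt_aleph_one)
      finW := by
        have hinf : Infinite Wo.{0} := by
          rw [infinite_iff, mk_Wo]
          exact aleph0_lt_aleph_one.le
        exact Cardinal.eq.1 (mk_finset_of_infinite Wo.{0}).symm
      kpow := by
        rw [HypI_K, ← power_mul, aleph0_mul_aleph0]
      wk := by
        rw [mk_Wo, HypI_K, ← succ_aleph0]
        exact Order.succ_le_of_lt (cantor _)
      segL := fun a => Order.lt_succ_iff.1 (mk_Iio_lt_To a)
      bdL := fun J f hJ => HypI_bd (isRegular_succ HypI_K0) f (Order.lt_succ_iff.2 hJ) }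

end MOF
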