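import Pool.Agent.W_3b51b4_h32.Plan

set_option autoImplicit false
set_option linter.unusedSectionVars false

/-!
# MP_3b51b4_gt : cardinalities

`#K` is infinite (`H.finW`, `H.wk`: `W` is infinite because `W ≃ Finset W` and `W` is not empty), `#K ^ ℵ₀ = #K`, `2 ≤ #K`, so `#K * #K = #K`, `#W ≤ #K`.
* `card_T`: a countable partial function from `W` to `K` is determined by its graph, a countable subset of `W × K`; a countable (possibly empty) set is
  the range of a function `ℕ → Option (W × K)`, so `#(Tt W K) ≤ #(Option (W × K)) ^ ℵ₀ ≤ #K ^ ℵ₀ = #K`.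
* `card_F`: a finite partial function from `L` to `W` which is empty from `a` on is determined by its graph, a finite set of elements of `Iio a × W`;
  `#(Iio a) ≤ #K` (`H.segL`); finite sets are ranges of functions `ℕ → Option (Iio a × W)`.
* `card_C`: `card_T`, `card_F`.
* `card_N`: a function `I → ℕ → Option (Fn L W)` with low values is a function from the countable set `I × ℕ` to `Option {f // Low a f}`.
-/

universe u

open Cardinal Set

namespace MOF

open Pool.Agent.W_MP_315f31_lc W61

variable {W K L : Type u} [LinearOrder W] [LinearOrder L] [WellFoundedLT L]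

theorem CardC_arrow {k : Cardinal.{u}} (hk : k ^ (ℵ₀ : Cardinal.{u}) = k) (h0 : ℵ₀ ≤ k)
    {J : Type} [Countable J] {Y : Type u} (hY : #Y ≤ k) : #(J → Option Y) ≤ k := by
  have h1 : #(Option Y) ≤ k := by
    rw [mk_option]
    exact add_le_of_le h0 hY (one_le_aleph0.trans h0)
  have h2 : lift.{u} #J ≤ (ℵ₀ : Cardinal.{u}) := by
    rw [lift_le_aleph0]
    exact mk_le_aleph0
  rw [mk_arrow, lift_uzero]
  refine (power_le_power_right h1).trans ?_
  have h3 : k ≠ 0 := (aleph0_pos.trans_le h0).ne'
  exact (power_le_power_left h3 h2).trans hk.le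

theorem CardC_enum {X : Type u} {S : Set X} (hS : S.Countable) :
    ∃ g : ℕ → Option X, ∀ x, x ∈ S ↔ ∃ n, g n = some x := by
  rcases S.eq_empty_or_nonempty with h | h
  · refine ⟨fun _ => none, fun x => ?_⟩
    rw [h]
    simp
  · obtain ⟨f, hf⟩ := hS.exists_eq_range h
    refine ⟨fun n => some (f n), fun x => ?_⟩
    rw [hf]
    simp

theorem CardC_le {k : Cardinal.{u}} (hk : k ^ (ℵ₀ : Cardinal.{u}) = k) (h0 : ℵ₀ ≤ k)
    {P X : Type u} (hX : #X ≤ k) (gr : P → Set X) (hc : ∀ p, (gr p).Countable)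
    (hinj : Function.Injective gr) : #P ≤ k := by
  choose g hg using fun p => CardC_enum (hc p)
  have h1 : Function.Injective g := by
    intro p q hpq
    refine hinj (Set.ext fun x => ?_)
    rw [hg p x, hg q x, hpq]
  exact (mk_le_of_injective h1).trans (CardC_arrow hk h0 hX)

theorem CardC_mul {k : Cardinal.{u}} (h0 : ℵ₀ ≤ k) {X Y : Type u} (hX : #X ≤ k) (hY : #Y ≤ k) :
    #(X × Y) ≤ k := by
  rw [← mul_def]
  exact (mul_le_mul' hX hY).trans (mul_eq_self h0).le

theorem aleph0_le_K (H : Hyp W K L) : ℵ₀ ≤ #K := by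
  obtain ⟨fe⟩ := H.finW
  have h1 : Infinite W := by
    by_contra hcon
    rw [not_infinite_iff_finite] at hcon
    have := Fintype.ofFinite W
    have h2 := Fintype.card_congr fe
    rw [Fintype.card_finset] at h2
    exact absurd h2 (Nat.lt_two_pow_self).ne
  exact (aleph0_le_mk W).trans H.wk

theorem card_T (H : Hyp W K L) : #(Tt W K) ≤ #K := by
  refine CardC_le H.kpow (aleph0_le_K H) (CardC_mul (aleph0_le_K H) H.wk le_rfl)
    (fun f : Tt W K => {p : W × K | f.1 p.1 = some p.2}) (fun f => ?_) ?_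
  · have h1 : {a : W | f.1 a ≠ none}.Countable := by
      rw [← le_aleph0_iff_set_countable]
      exact f.2
    have h2 : {p : W × K | f.1 p.1 = some p.2} ⊆
        ⋃ a ∈ {a : W | f.1 a ≠ none}, {p : W × K | p.1 = a ∧ f.1 a = some p.2} := by
      rintro ⟨a, b⟩ hab
      have hab' : f.1 a = some b := hab
      refine Set.mem_biUnion (x := a) ?_ ⟨rfl, hab'⟩
      show f.1 a ≠ none
      rw [hab']
      simp
    refine (h1.biUnion fun a _ => ?_).mono h2
    refine Set.Subsingleton.countable ?_
    rintro ⟨a1, b1⟩ ⟨h3, h4⟩ ⟨a2, b2⟩ ⟨h5, h6⟩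
    simp only at h3 h4 h5 h6
    rw [h4] at h6
    rw [h3, h5, Option.some.inj h6]
  · intro f g hfg
    refine Subtype.ext (funext fun a => ?_)
    have h1 : ∀ b, f.1 a = some b ↔ g.1 a = some b := fun b =>
      (Set.ext_iff.1 hfg (a, b))
    rcases h2 : f.1 a with _ | b
    · rcases h3 : g.1 a with _ | b
      · rfl
      · rw [(h1 b).2 h3] at h2
        exact absurd h2 (by simp)
    · exact ((h1 b).1 h2).symm

theorem card_F (H : Hyp W K L) (a : L) : #{f : Fn L W // Low a f} ≤ #K := by
  refine CardC_le H.kpow (aleph0_le_K H) (CardC_mul (aleph0_le_K H) (H.segL a) H.wk)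
    (fun f : {f : Fn L W // Low a f} => {p : Iio a × W | f.1.1 p.1 = some p.2}) (fun f => ?_) ?_
  · have h1 : {b : L | f.1.1 b ≠ none}.Countable := f.1.2.countable
    have h2 : {p : Iio a × W | f.1.1 p.1 = some p.2} ⊆
        ⋃ b ∈ {b : L | f.1.1 b ≠ none},
          {p : Iio a × W | (p.1 : L) = b ∧ f.1.1 b = some p.2} := by
      rintro ⟨b, x⟩ hab
      have hab' : f.1.1 b = some x := hab
      refine Set.mem_biUnion (x := (b : L)) ?_ ⟨rfl, hab'⟩
      show f.1.1 b ≠ none
      rw [hab']
      simp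
    refine (h1.biUnion fun b _ => ?_).mono h2
    refine Set.Subsingleton.countable ?_
    rintro ⟨a1, b1⟩ ⟨h3, h4⟩ ⟨a2, b2⟩ ⟨h5, h6⟩
    simp only at h3 h4 h5 h6
    rw [h4] at h6
    have h7 : a1 = a2 := Subtype.ext (h3.trans h5.symm)
    rw [h7, Option.some.inj h6]
  · intro f g hfg
    refine Subtype.ext (Subtype.ext (funext fun b => ?_))
    by_cases hb : b < a
    · have h1 : ∀ x, f.1.1 b = some x ↔ g.1.1 b = some x := fun x =>
        (Set.ext_iff.1 hfg (⟨b, hb⟩, x))
      rcases h2 : f.1.1 b with _ | x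
      · rcases h3 : g.1.1 b with _ | x
        · rfl
        · rw [(h1 x).2 h3] at h2
          exact absurd h2 (by simp)
      · exact ((h1 x).1 h2).symm
    · rw [f.2 b (not_lt.1 hb), g.2 b (not_lt.1 hb)]

theorem card_C (H : Hyp W K L) (a : L) : #{p : Cond W K L // Low a p.2} ≤ #K := by
  refine (mk_le_of_injective (β := Tt W K × {f : Fn L W // Low a f})
    (f := fun p : {p : Cond W K L // Low a p.2} => (p.1.1, ⟨p.1.2, p.2⟩)) ?_).trans
    (CardC_mul (aleph0_le_K H) (card_T H) (card_F H a))
  rintro ⟨⟨t, f⟩, hf⟩ ⟨⟨t', f'⟩, hf'⟩ h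
  have h1 : t = t' := congrArg Prod.fst h
  have h2 : f = f' := congrArg (fun q => q.2.1) h
  subst h1
  subst h2
  rfl

theorem card_N (H : Hyp W K L) (I : Type) [Countable I] (a : L) :
    #{N : I → ℕ → Option (Fn L W) // ∀ i k f, N i k = some f → Low a f} ≤ #K := by
  classical
  refine (mk_le_of_injective (β := I × ℕ → Option {f : Fn L W // Low a f})
    (f := fun N q => if h : ∃ f, N.1 q.1 q.2 = some f then
      some ⟨h.choose, N.2 q.1 q.2 _ h.choose_spec⟩ else none) ?_).trans
    (CardC_arrow H.kpow (aleph0_le_K H) (card_F H a))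
  intro N N' hNN
  refine Subtype.ext (funext fun i => funext fun k => ?_)
  have h1 := congrFun hNN (i, k)
  simp only at h1
  by_cases h2 : ∃ f, N.1 i k = some f
  · by_cases h3 : ∃ f, N'.1 i k = some f
    · rw [dif_pos h2, dif_pos h3] at h1
      have h4 : h2.choose = h3.choose := congrArg Subtype.val (Option.some.inj h1)
      rw [h2.choose_spec, h3.choose_spec, h4]
    · rw [dif_pos h2, dif_neg h3] at h1
      exact absurd h1 (by simp)
  · by_cases h3 : ∃ f, N'.1 i k = some f
    · rw [dif_neg h2, dif_pos h3] at h1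
      exact absurd h1 (by simp)
    · have h4 : N.1 i k = none := by
        rcases h5 : N.1 i k with _ | f
        · rfl
        · exact absurd ⟨f, h5⟩ h2
      have h5 : N'.1 i k = none := by
        rcases h6 : N'.1 i k with _ | f
        · rfl
        · exact absurd ⟨f, h6⟩ h3
      rw [h4, h5]

end MOF
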