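import Pool.Agent.W_3b51b4_h32.Chain
import Pool.Agent.W_3b51b4_h32.CardC

set_option autoImplicit false
set_option linter.unusedSectionVars false

/-!
# MP_3b51b4_gt : closing off plans

`one_step`: Let `I = J × {p // Low s.1 p.2}`, `#I ≤ #K` (`card_C`, `mul_eq_self`), with a well-order (`exists_wellOrder` / `WellOrderingRel`).  For `i = (j, p)` and a
plan `s''` let `F i s''` be a plan extending `s''` such that: if `s''` extends `s`, then there is `q` with `SO (F i s'') q p` and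
`(q, F i s'') ∈ d j`.  It exists: `(p, s'')` has an extension `(q, s''') ∈ d j`, `SO s'' q p`; since `Low s.1 p.2`, `s.1 ≤ s''.1`, also `SO s''' q p`
(`SO_low_iff` with `Low.mono`).  `exists_chain` for `F` and `s0 = s` gives `t`.  For `j`, `p`: `SO (F i (S i)) q p` and `(q, F i (S i)) ∈ d j` with `i = (j, p)`;
`t` extends `F i (S i)`, so `SO t q p` (`SO_low_iff`) and `(q, t) ∈ d j` (`hopen`: `PLe (q, t) (q, F i (S i))`).

`clo`: for a plan `t` let `OS t` be the plan given by `one_step` for `t` and the family of the `j` with `sp j ⊆ Iio t.1` (`hJ`).  Apply `exists_chain` with the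
index set `W` (`H.wk`), `F i t = OS t`, `s0 = s`; let `t` be the last plan.  Let `sp j ⊆ Iio t.1`, and `p` be given; let `p' = cut t.1 p`.
The set `sp j ∪ {b | p'.2.1 b ≠ none}` is countable and contained in `Iio t.1`, so every element `b` is `< (F (i b) (S (i b))).1` for some `i b : W` or `< s.1`;
let `i` be above all `i b` (`H.bdW`; countable sets).  Then `b < (S i).1` for all these `b`.  So `sp j ⊆ Iio (S i).1` and `Low (S i).1 p'.2`.
`one_step` gives `q` with `SO (OS (S i)) q p'` and `(q, OS (S i)) ∈ d j`.  `t` extends `OS (S i)`; `SO t q p'` (`SO_low_iff`), `(q, t) ∈ d j`; and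
`SO t p' p` (`Ord_cut`).
-/

universe u

open Cardinal Set

namespace MOF

open Pool.Agent.W_MP_315f31_lc W61

variable {W K L : Type u} [LinearOrder W] [WellFoundedLT W] [LinearOrder L] [WellFoundedLT L]

/-- One step: at most `#K` dense open sets. -/
theorem one_step (H : Hyp W K L) {J : Type u} (hJ : #J ≤ #K)
    (d : J → Set (Cond W K L × Plan W K L)) (hopen : ∀ j x y, x ∈ d j → PLe y x → y ∈ d j)
    (hdense : ∀ j x, ∃ y, PLe y x ∧ y ∈ d j) (s : Plan W K L) :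
    ∃ t, SLe t s ∧ ∀ j p, Low s.1 p.2 → ∃ q, SO t q p ∧ (q, t) ∈ d j := by
  classical
  obtain ⟨lo, wf⟩ := exists_wellFoundedLT (J × {p : Cond W K L // Low s.1 p.2})
  have hI : #(J × {p : Cond W K L // Low s.1 p.2}) ≤ #K := by
    rw [Cardinal.mk_prod, Cardinal.lift_id, Cardinal.lift_id]
    calc #J * #{p : Cond W K L // Low s.1 p.2} ≤ #K * #K := mul_le_mul' hJ (card_C H s.1)
      _ = #K := Cardinal.mul_eq_self (aleph0_le_K H)
  choose y hy1 hy2 using hdense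
  obtain ⟨S, t, hS0, -, ht0, htF, -⟩ := @exists_chain W K L _ _ _ H _ lo wf hI
    (fun i s' => (y i.1 (i.2.1, s')).2) (fun i s' => (hy1 i.1 (i.2.1, s')).1) s
  refine ⟨t, ht0, fun j p hp => ?_⟩
  have h1 := htF (j, ⟨p, hp⟩)
  have h2 := hy1 j (p, S (j, ⟨p, hp⟩))
  have h3 := hS0 (j, ⟨p, hp⟩)
  refine ⟨(y j (p, S (j, ⟨p, hp⟩))).1, ?_, ?_⟩
  · exact (SO_low_iff (h1.trans h2.1) (hp.mono h3.1)).2 h2.2
  · exact hopen j (y j (p, S (j, ⟨p, hp⟩))) _ (hy2 j _) ⟨h1, Ord_refl _ _ _⟩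

/-- Closing off. -/
theorem clo (H : Hyp W K L) {J : Type u} (sp : J → Set L) (hsp : ∀ j, (sp j).Countable)
    (hJ : ∀ a : L, #{j : J // sp j ⊆ Iio a} ≤ #K)
    (d : J → Set (Cond W K L × Plan W K L)) (hopen : ∀ j x y, x ∈ d j → PLe y x → y ∈ d j)
    (hdense : ∀ j x, ∃ y, PLe y x ∧ y ∈ d j) (s : Plan W K L) :
    ∃ t, SLe t s ∧ ∀ j, sp j ⊆ Iio t.1 → DnsS t (d j) := by
  classical
  have hos : ∀ t : Plan W K L, ∃ t', SLe t' t ∧ ∀ (j : {j : J // sp j ⊆ Iio t.1}) p,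
      Low t.1 p.2 → ∃ q, SO t' q p ∧ (q, t') ∈ d j.1 := fun t =>
    one_step H (hJ t.1) (fun j => d j.1) (fun j => hopen j.1) (fun j => hdense j.1) t
  choose OS hOS1 hOS2 using hos
  obtain ⟨S, t, hS0, hSlt, ht0, htF, htb⟩ := exists_chain H H.wk (fun _ s' => OS s')
    (fun _ s' => hOS1 s') s
  refine ⟨t, ht0, fun j hj p => ?_⟩
  obtain ⟨eW⟩ := H.finW
  let w0 : W := eW.symm ∅
  have hlow := low_cut t.1 p
  have hBc : (sp j ∪ {b | (cut t.1 p).2.1 b ≠ none}).Countable :=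
    (hsp j).union (cut t.1 p).2.2.countable
  have hBt : ∀ b ∈ sp j ∪ {b | (cut t.1 p).2.1 b ≠ none}, b < t.1 := by
    rintro b (hb | hb)
    · exact hj hb
    · by_contra hbt
      exact hb (hlow b (not_lt.1 hbt))
  have hib : ∀ b, ∃ i : W, b < t.1 → (b < s.1 ∨ b < (OS (S i)).1) := by
    intro b
    by_cases hb : b < t.1
    · rcases htb b hb with h | ⟨i, hi⟩
      · exact ⟨w0, fun _ => Or.inl h⟩
      · exact ⟨i, fun _ => Or.inr hi⟩
    · exact ⟨w0, fun h => absurd h hb⟩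
  choose ib hib using hib
  haveI : Nonempty L := ⟨t.1⟩
  obtain ⟨e, he⟩ := Set.countable_iff_exists_subset_range.1 hBc
  obtain ⟨i, hi⟩ := H.bdW (fun n => ib (e n))
  have hB : ∀ b ∈ sp j ∪ {b | (cut t.1 p).2.1 b ≠ none}, b < (S i).1 := by
    intro b hb
    obtain ⟨n, rfl⟩ := he hb
    rcases hib (e n) (hBt _ hb) with h | h
    · exact h.trans_le (hS0 i).1
    · exact h.trans_le (hSlt (ib (e n)) i (hi n)).1
  have hsub : sp j ⊆ Iio (S i).1 := fun b hb => hB b (Or.inl hb)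
  have hLow : Low (S i).1 (cut t.1 p).2 := by
    intro b hb
    by_contra hne
    exact absurd (hB b (Or.inr hne)) (not_lt.2 hb)
  obtain ⟨q, hq1, hq2⟩ := hOS2 (S i) ⟨j, hsub⟩ (cut t.1 p) hLow
  refine ⟨q, ?_, ?_⟩
  · refine Ord_trans _ _ _ _ _ ?_ (Ord_cut t.2 t.1 p)
    exact (SO_low_iff (htF i) (hLow.mono (hOS1 (S i)).1)).2 hq1
  · exact hopen j (q, OS (S i)) (q, t) hq2 ⟨htF i, Ord_refl _ _ _⟩

/-- Closing off for one family. -/
theorem clo' (H : Hyp W K L) {J : Type u} (hJ : #J ≤ #K)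
    (d : J → Set (Cond W K L × Plan W K L)) (hopen : ∀ j x y, x ∈ d j → PLe y x → y ∈ d j)
    (hdense : ∀ j x, ∃ y, PLe y x ∧ y ∈ d j) (s : Plan W K L) :
    ∃ t, SLe t s ∧ ∀ j, DnsS t (d j) := by
  obtain ⟨t, h1, h2⟩ := clo H (fun _ => ∅) (fun _ => countable_empty)
    (fun a => (mk_subtype_le _).trans hJ) d hopen hdense s
  exact ⟨t, h1, fun j => h2 j (empty_subset _)⟩

end MOF
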