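import Pool.Agent.W_3b51b4_h32.StageG
import Pool.Agent.W_3b51b4_h32.Clo

set_option autoImplicit false
set_option linter.unusedSectionVars false

/-!
# MP_3b51b4_gt : Martin's axiom

Let `io (p0, s0) ≤ c` (`exists_io_le`).  The sets `{(q, t) | InD q t v ∨ InD q t vᶜ}` for the values `v = R x y` and `v = De a x` are dense and open; there are at most
`#K` (`H.wk`; index type `(W × W) ⊕ (W × W)`, `#K` is infinite: `aleph0_le_K`), so `clo'` gives `s` extending `s0` such that all these values are local at `s`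
(`loc_of_dec`).  Let `R' x y = tr s (R x y)`, `De' a x = tr s (De a x)`.
* `PreV R'`: `tr_top`, `tr_inf` (`tr s` is monotone).
* `CccV R'`: for `A : W → BB s`, `c' ≠ ⊥` with `c' ≤ ⨆ x : Ici z, A x`: apply `CccV R` to `em s (A x)`, `em s c'` (`em_le`, `em_iSup`, `em_bot`).  Since
  `em s c' ≤ On s` and `On s ⊓ R z x = em s (R' z x)` (`on_inf`), `em s c' ⊓ (em s (A x) ⊓ em s (A y) ⊓ (R z x ⊓ R z y)) = em s (c' ⊓ (A x ⊓ A y ⊓ (R' z x ⊓ R' z y)))`.
* `(⨆ y, De' a y ⊓ R' y x) = tr s (⨆ y, De a y ⊓ R y x) = ⊤` (`tr_iSup`, `tr_inf`, `loc_inf`).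
`exists_stg` gives `s1`; `b = io (p0, s1)`, `G = Gn`.  `(p0, s1) ≤ (p0, s0)`, so `b ≤ c` (`io_mono`), `b ≤ On s1` (`io_le_on`), `b ≤ On s`
(`(p0, s1) ≤ (p0, s)`).  The three properties: `Gn_up`, `Gn_dir`, `Gn_gen` with `On s ⊓ R x y = em s (R' x y)`.  (`W` is not empty: `H.bdW`.)
-/

universe u v

open Cardinal Set IM

namespace MOF

open Pool.Agent.W_MP_315f31_lc W61 MAO

variable {W K L : Type u} [LinearOrder W] [WellFoundedLT W] [LinearOrder L] [WellFoundedLT L]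

/-- all values are local at some plan -/
theorem MAc_loc (H : Hyp W K L) (v : W → W → Dt W K L) (s0 : Plan W K L) :
    ∃ s, SLe s s0 ∧ ∀ x y, Loc s (v x y) := by
  have hJ : #(W × W) ≤ #K := by
    rw [Cardinal.mk_prod, Cardinal.lift_id]
    calc #W * #W ≤ #K * #K := mul_le_mul' H.wk H.wk
      _ = #K := Cardinal.mul_eq_self (aleph0_le_K H)
  obtain ⟨s, hs, hd⟩ := clo' H hJ
    (fun j => {z | InD z.1 z.2 (v j.1 j.2) ∨ InD z.1 z.2 (v j.1 j.2)ᶜ}) (by
      rintro j x y (hx | hx) hy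
      · exact Or.inl (Loc_mono hx hy.1 hy.2)
      · exact Or.inr (Loc_mono hx hy.1 hy.2)) (by
      intro j x
      by_cases h : ∃ y, PLe y x ∧ InD y.1 y.2 (v j.1 j.2)
      · obtain ⟨y, hy, hy'⟩ := h
        exact ⟨y, hy, Or.inl hy'⟩
      · refine ⟨x, IsPre.refl (L := PLe (W := W) (K := K) (L := L)) x, Or.inr ?_⟩
        refine Loc_mem_compl.2 fun q t ht hq hu => h ⟨(q, t), ⟨ht, hq⟩, hu⟩) s0
  exact ⟨s, hs, fun x y => loc_of_dec (hd (x, y))⟩

theorem ma_core (H : Hyp W K L) (R : W → W → Dt W K L) (hR : PreV R) (hc : CccV R)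
    (De : W → W → Dt W K L) (hD : ∀ a x, (⨆ y, De a y ⊓ R y x) = ⊤) (c : Dt W K L) (hne : c ≠ ⊥) :
    ∃ (b : Dt W K L) (G : W → Dt W K L), b ≠ ⊥ ∧ b ≤ c ∧ (∀ x y, b ⊓ (G x ⊓ R x y) ≤ G y) ∧
      (∀ x y, b ⊓ (G x ⊓ G y) ≤ ⨆ z, G z ⊓ (R z x ⊓ R z y)) ∧ ∀ a, b ≤ ⨆ x, G x ⊓ De a x := by
  obtain ⟨⟨p0, s0⟩, hp0⟩ := exists_io_le hne
  obtain ⟨s', hs', hR'⟩ := MAc_loc H R s0
  obtain ⟨s, hs, hDl⟩ := MAc_loc H De s'
  have hRl : ∀ x y, Loc s (R x y) := fun x y => (hR' x y).mono hs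
  have hem : ∀ u : Dt W K L, Loc s u → em s (tr s u) ≤ u := fun u hu => by
    rw [← on_inf hu]
    exact inf_le_right
  have hP : PreV (fun x y => tr s (R x y)) := by
    constructor
    · intro x
      rw [hR.refl]
      exact tr_top s
    · intro x y z p hp
      exact hR.trans x y z hp
  have hC : CccV (fun x y => tr s (R x y)) := by
    intro A c' hc' hA
    obtain ⟨x, y, z, hxy, hne'⟩ := hc (fun x => em s (A x)) (em s c') (by
      intro h
      apply hc'
      rw [← em_bot s] at h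
      exact le_bot_iff.1 (em_le.1 h.le)) (by
      intro z
      have h1 : (⨆ x : Ici z, em s (A x.1)) = em s (⨆ x : Ici z, A x.1) := (em_iSup _).symm
      rw [h1]
      exact em_le.2 (hA z))
    refine ⟨x, y, z, hxy, fun h => hne' ?_⟩
    rw [← le_bot_iff, ← em_bot s, ← h, em_inf, em_inf, em_inf, em_inf, ← on_inf (hRl z x),
      ← on_inf (hRl z y)]
    have hon : em s c' ≤ On s := em_le.2 le_top
    refine le_inf inf_le_left (le_inf (inf_le_right.trans inf_le_left) (le_inf (le_inf ?_ ?_)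
      (le_inf ?_ ?_)))
    · exact inf_le_left.trans hon
    · exact inf_le_right.trans (inf_le_right.trans inf_le_left)
    · exact inf_le_left.trans hon
    · exact inf_le_right.trans (inf_le_right.trans inf_le_right)
  obtain ⟨s1, h⟩ := exists_stg H s (fun x y => tr s (R x y)) hP hC
  have hW : Nonempty W := ⟨H.finW.some.symm ∅⟩
  have hb1 : (io (p0, s1) : Dt W K L) ≤ On s1 := io_le_on p0
  have hb : (io (p0, s1) : Dt W K L) ≤ On s :=
    (io_mono (show PLe (p0, s1) (p0, s) from ⟨h.ext, Loc_refl _ _⟩)).trans (io_le_on p0)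
  refine ⟨io (p0, s1), Gn h hP, io_ne_bot _, ?_, ?_, ?_, ?_⟩
  · exact (io_mono (show PLe (p0, s1) (p0, s0) from
      ⟨h.ext.trans (hs.trans hs'), Loc_refl _ _⟩)).trans hp0
  · intro x y
    refine le_trans ?_ (Gn_up h hP x y)
    rw [← on_inf (hRl x y)]
    exact le_inf (inf_le_right.trans inf_le_left)
      (le_inf (inf_le_left.trans hb) (inf_le_right.trans inf_le_right))
  · intro x y
    refine inf_le_right.trans ((Gn_dir h hP x y).trans (iSup_mono fun z => ?_))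
    exact inf_le_inf_left _ (inf_le_inf (hem _ (hRl z x)) (hem _ (hRl z y)))
  · intro a
    refine hb1.trans ((Gn_gen h hP hW (fun y => tr s (De a y)) ?_).trans
      (iSup_mono fun x => inf_le_inf_left _ (hem _ (hDl a x))))
    intro x
    have h1 : (⨆ y, tr s (De a y) ⊓ tr s (R y x)) = tr s (⨆ y, De a y ⊓ R y x) := by
      rw [tr_iSup fun y => loc_inf (hDl a y) (hRl y x)]
      exact iSup_congr fun y => (tr_inf _ _).symm
    rw [h1, hD, tr_top]

end MOF
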