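import Pool.Agent.W_3b51b4_h32.OcaFin
import Pool.Agent.W_3b51b4_h32.MAc
import Pool.Agent.W_3b51b4_h32.HypI
import Pool.Agent.W_MP_3b51b4_h40.ModelMO

set_option autoImplicit false
set_option linter.unusedSectionVars false

/-!
# MP_3b51b4_gt : the model
-/

open Cardinal Set IM

namespace MOF

open Pool.Agent.W_MP_315f31_lc W61 MAO

variable {W K L : Type} [LinearOrder W] [WellFoundedLT W] [LinearOrder L] [WellFoundedLT L]

theorem coreMO (H : Hyp W K L) : CoreMO W (Dt W K L) where
  seg := H.segW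
  reg := reg_D H
  ma := ma_core H
  oca := oca_core H

/-- There is a countable well-founded model of ZFC, Martin's axiom for `ℵ₁` dense sets and the Open Colouring
Axiom. -/
theorem exists_model : ∃ (M : Type 1) (E : M → M → Prop), Countable M ∧ WellFounded E ∧
    HESR.IsZFC E ∧ MA1 E ∧ OCA E := by
  obtain ⟨W, K, L, _, _, _, _, H⟩ := exists_hyp
  obtain ⟨l, _⟩ := H.bdL PEmpty (fun x => x.elim) (by simp)
  have p : Cond W K L := (⟨fun _ => none, by simp⟩, ⟨fun _ => none, by simp⟩)
  have : Nontrivial (Dt W K L) := by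
    refine ⟨⟨io (p, (l, fun _ _ _ => ∅)), ⊥, io_ne_bot _⟩⟩
  exact MAOM.model_of_coreMO (coreMO H)

end MOF
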