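import Pool.Agent.W_3b51b4_h32.TCC

set_option autoImplicit false
set_option linter.unusedSectionVars false

/-!
# MP_3b51b4_gt : the chain condition, limit step

`a` is a limit, `TCC E b` holds for all `b < a`, `A` is an antichain for `Ord E a`, `t` is given.  For a condition `p` let
`sp p = {b | b < a ∧ p.2.1 b ≠ none}`, a finite set.  For `B ⊆ A` and a collapse condition `t` say `Big t B` if for all `t' ≤ t` the set
`{p ∈ B | TComp p.1 t'}` is uncountable.  Suppose that the conclusion fails: `Big t A`.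

(B1) If `Big t (⋃ i, B i)` with a countable index set, then there are `t' ≤ t` and `i` with `Big t' (B i)`: otherwise for every `i` the predicate
`Φ i t' := {p ∈ B i | TComp p.1 t'}.Countable` is dense below `t` and closed under extensions, so by `t_dense` there is `t' ≤ t` with `Φ i t'` for all
`i`; then `{p ∈ ⋃ B i | TComp p.1 t'}` is countable.

So there are `n` and `t1 ≤ t` with `Big t1 {p ∈ A | (sp p).ncard = n}`.  For a finite set `R ⊆ Iio a` let
`B R = {p ∈ A | (sp p).ncard = n ∧ R ⊆ sp p}`.  If `Big t' (B R)` then `B R` is not empty and `|R| ≤ n`.  Take `t2 ≤ t1` and `R` with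
`Big t2 (B R)` and `|R|` as large as possible.  Let `α < a` be above all elements of `R` (`a` is a limit and not the least element).

(B2) For `γ < a`, `γ ∉ R`, and `t' ≤ t2` there is `t'' ≤ t'` such that `{p ∈ B (insert γ R) | TComp p.1 t''}` is countable (maximality of `|R|`).

Let `S = {m | ∃ p ∈ B R, Ord E α m p}`, `M ⊆ S` a maximal antichain for `Ord E α` (`exists_max`), and for `m ∈ M` choose `i m ∈ B R` with `m ≤_α i m`.
`TCC E α` gives `t3 ≤ t2` such that `M' = {m ∈ M | TComp m.1 t3}` is countable.  The set of the pairs `(m, γ)`, `m ∈ M'`, `γ ∈ sp (i m) \ R`, is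
countable, so by (B2) and `t_dense` there is `t4 ≤ t3` such that for all these pairs `{p ∈ B (insert γ R) | TComp p.1 t4}` is countable.
The union of these sets is countable, the set `{i m | m ∈ M'}` is countable, and `{p ∈ B R | TComp p.1 t4}` is uncountable (`Big t2 (B R)`), so
there is `p ∈ B R` with `TComp p.1 t4` which is in none of them.  Let `r0` extend `p.1` and `t4`, `r = setT r0 p`, so `r ≤_a p`, `r ∈ S`.
There is `m ∈ M` and `s` with `s ≤_α r`, `s ≤_α m`.  `s.1` extends `m.1` and `t3`, so `m ∈ M'`.  Let `i = i m`; `p ≠ i`, and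
`sp p ∩ sp i ⊆ R`: if `γ ∈ sp i \ R` is in `sp p`, then `p ∈ B (insert γ R)`, a contradiction.
Let `u` be the condition with collapse part `s.1` and `u b = s b` for `b < α`, and for `b ≥ α`: `u b = p b` if `p b ≠ none`, otherwise `i b`
(`u = glue α s (p and i)`).  Then `u ≤_a p`: for `b < α` because `s ≤_α r ≤_α p` and `u`, `s` agree below `α` (`Ord_of_eq`, `ev_lower`); for
`b ≥ α` by `ev_refl`.  `u ≤_a i`: for `b < α` because `s ≤_α m ≤_α i`; for `α ≤ b < a` with `i b ≠ none`: `b ∉ R`, so `p b = none` and `u b = i b`.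
So `p` and `i` are different compatible elements of `A`, a contradiction.
-/

universe u v

open Cardinal Set

namespace MOF

open Pool.Agent.W_MP_315f31_lc W61

variable {W K L : Type u} [LinearOrder W] [WellFoundedLT W] [LinearOrder L] [WellFoundedLT L]

/-- The part of the support below `a`. -/
noncomputable def TCCLim_sp (a : L) (p : Cond W K L) : Finset L :=
  open Classical in p.2.2.toFinset.filter (fun b => b < a)

theorem TCCLim_mem_sp {a b : L} {p : Cond W K L} :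
    b ∈ TCCLim_sp a p ↔ b < a ∧ p.2.1 b ≠ none := by
  unfold TCCLim_sp
  rw [Finset.mem_filter, Set.Finite.mem_toFinset]
  exact and_comm

/-- `B` stays uncountable below `t`. -/
def TCCLim_Big (t : Tt W K) (B : Set (Cond W K L)) : Prop :=
  ∀ t', PF.L t' t → ¬ {p ∈ B | TComp p.1 t'}.Countable

theorem TCCLim_split {t : Tt W K} {ι : Type v} [Countable ι] (B : ι → Set (Cond W K L))
    (h : TCCLim_Big t (⋃ i, B i)) : ∃ t', PF.L t' t ∧ ∃ i, TCCLim_Big t' (B i) := by
  by_contra hcon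
  push Not at hcon
  obtain ⟨t', ht', h'⟩ := t_dense (fun i t' => {p ∈ B i | TComp p.1 t'}.Countable)
    (fun i s t hc hst => hc.mono (by
      rintro p ⟨h1, h2⟩
      exact ⟨h1, h2.mono (tl_refl _) hst⟩)) t
    (fun i s hs => by
      have h1 := hcon s hs i
      unfold TCCLim_Big at h1
      push Not at h1
      exact h1)
  refine h t' ht' ?_
  have h2 : (⋃ i, {p ∈ B i | TComp p.1 t'}).Countable := Set.countable_iUnion h'
  refine h2.mono ?_
  rintro p ⟨hp, hc⟩
  obtain ⟨i, hi⟩ := Set.mem_iUnion.1 hp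
  exact Set.mem_iUnion.2 ⟨i, hi, hc⟩

/-- `p` filled up by `q`. -/
noncomputable def TCCLim_fill (p q : Cond W K L) : Cond W K L :=
  open Classical in
  (p.1, ⟨fun b => if p.2.1 b ≠ none then p.2.1 b else q.2.1 b, (p.2.2.union q.2.2).subset (by
    intro b hb
    by_cases h : p.2.1 b ≠ none
    · exact Or.inl h
    · right
      have hb' : (if p.2.1 b ≠ none then p.2.1 b else q.2.1 b) ≠ none := hb
      rw [if_neg h] at hb'
      exact hb')⟩)

theorem TCCLim_fill_left {p q : Cond W K L} {b : L} (h : p.2.1 b ≠ none) :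
    (TCCLim_fill p q).2.1 b = p.2.1 b := if_pos h

theorem TCCLim_fill_right {p q : Cond W K L} {b : L} (h : p.2.1 b = none) :
    (TCCLim_fill p q).2.1 b = q.2.1 b := if_neg (fun h' => h' h)

/-- The amalgamation. -/
theorem TCCLim_amalg {E : L → Nm W K L} {a α : L} {p q s : Cond W K L} (hp : Ord E α s p)
    (hq : Ord E α s q) (hd : ∀ b, α ≤ b → b < a → p.2.1 b ≠ none → q.2.1 b = none) :
    ∃ u, Ord E a u p ∧ Ord E a u q := by
  have hs : ∀ b < α, Ord E b (glue α s (TCCLim_fill p q)) s := fun b hb =>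
    Ord_mono hb.le (Ord_glue_right E α s _)
  refine ⟨glue α s (TCCLim_fill p q), Ord_iff.2 ⟨(Ord_iff.1 hp).1, ?_⟩,
    Ord_iff.2 ⟨(Ord_iff.1 hq).1, ?_⟩⟩
  · intro b hb x hx
    by_cases hba : b < α
    · obtain ⟨x', hx', h1⟩ := (Ord_iff.1 hp).2 b hba x hx
      exact ⟨x', (glue_lt hba _ _).trans hx', ev_lower h1 (hs b hba)⟩
    · refine ⟨x, ?_, ev_refl E b x _⟩
      rw [glue_ge (not_lt.1 hba), TCCLim_fill_left (by rw [hx]; simp), hx]
  · intro b hb x hx
    by_cases hba : b < α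
    · obtain ⟨x', hx', h1⟩ := (Ord_iff.1 hq).2 b hba x hx
      exact ⟨x', (glue_lt hba _ _).trans hx', ev_lower h1 (hs b hba)⟩
    · refine ⟨x, ?_, ev_refl E b x _⟩
      have hpn : p.2.1 b = none := by
        by_contra hne
        rw [hd b (not_lt.1 hba) hb hne] at hx
        exact absurd hx (by simp)
      rw [glue_ge (not_lt.1 hba), TCCLim_fill_right hpn, hx]

/-- A bound below a limit. -/
theorem TCCLim_bound {a : L} (hne : ∃ b, b < a) (hlim : ∀ b < a, ∃ c < a, b < c) (R : Finset L)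
    (hR : ∀ γ ∈ R, γ < a) : ∃ α < a, ∀ γ ∈ R, γ < α := by
  classical
  induction R using Finset.induction_on with
  | empty =>
    obtain ⟨b, hb⟩ := hne
    exact ⟨b, hb, fun γ hγ => absurd hγ (Finset.notMem_empty γ)⟩
  | insert x R _ ih =>
    obtain ⟨α, hα, h1⟩ := ih (fun γ hγ => hR γ (Finset.mem_insert_of_mem hγ))
    obtain ⟨c, hc, h2⟩ := hlim (max α x) (max_lt hα (hR x (Finset.mem_insert_self x R)))
    refine ⟨c, hc, fun γ hγ => ?_⟩
    rcases Finset.mem_insert.1 hγ with h | h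
    · rw [h]
      exact (le_max_right _ _).trans_lt h2
    · exact (h1 γ h).trans ((le_max_left _ _).trans_lt h2)

theorem TCC_lim (E : L → Nm W K L) (a : L) (hne : ∃ b, b < a) (hlim : ∀ b < a, ∃ c < a, b < c)
    (h : ∀ b < a, TCC E b) : TCC E a := by
  classical
  intro A hA t
  by_contra hcon
  have hbig : TCCLim_Big t A := fun t' ht' hc => hcon ⟨t', ht', hc⟩
  -- the size of the supports
  have hU : (⋃ n : ℕ, {p ∈ A | (TCCLim_sp a p).card = n}) = A := by
    ext p
    simp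
  rw [← hU] at hbig
  obtain ⟨t1, ht1, n, hn⟩ := TCCLim_split _ hbig
  -- the root
  let BR : Finset L → Set (Cond W K L) := fun R =>
    {p | p ∈ A ∧ (TCCLim_sp a p).card = n ∧ R ⊆ TCCLim_sp a p}
  let Q : ℕ → Prop := fun k => ∃ t', PF.L t' t1 ∧ ∃ R : Finset L, R.card = k ∧ TCCLim_Big t' (BR R)
  have hne' : ∀ t' B, TCCLim_Big t' B → ∃ p : Cond W K L, p ∈ B := by
    intro t' B hB
    by_contra hc
    refine hB t' (tl_refl _) ?_
    have : {p ∈ B | TComp p.1 t'} = (∅ : Set (Cond W K L)) := by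
      ext p
      constructor
      · rintro ⟨hp, _⟩
        exact (hc ⟨p, hp⟩).elim
      · rintro ⟨⟩
    rw [this]
    exact Set.countable_empty
  have hQ0 : Q 0 := by
    refine ⟨t1, tl_refl _, ∅, Finset.card_empty, ?_⟩
    intro t' ht' hc
    refine hn t' ht' (hc.mono ?_)
    rintro p ⟨⟨hp1, hp2⟩, hp3⟩
    exact ⟨⟨hp1, hp2, Finset.empty_subset _⟩, hp3⟩
  have hQn : ∀ k, Q k → k ≤ n := by
    rintro k ⟨t', _, R, rfl, hB⟩
    obtain ⟨p, hp⟩ := hne' _ _ hB
    rw [← hp.2.1]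
    exact Finset.card_le_card hp.2.2
  have hQk : Q (Nat.findGreatest Q n) := Nat.findGreatest_spec (Nat.zero_le n) hQ0
  have hQm : ∀ j, Q j → j ≤ Nat.findGreatest Q n := fun j hj =>
    Nat.le_findGreatest (hQn j hj) hj
  obtain ⟨t2, ht2, R, hRk, hR⟩ := hQk
  obtain ⟨p0, hp0⟩ := hne' _ _ hR
  obtain ⟨α, hαa, hα⟩ := TCCLim_bound hne hlim R
    (fun γ hγ => (TCCLim_mem_sp.1 (hp0.2.2 hγ)).1)
  have hB2 : ∀ γ, γ ∉ R → ∀ t', PF.L t' t2 → ∃ t'', PF.L t'' t' ∧
      {p ∈ BR (insert γ R) | TComp p.1 t''}.Countable := by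
    intro γ hγ t' ht'
    by_contra hc
    have h1 : Q (R.card + 1) :=
      ⟨t', tl_trans ht' ht2, insert γ R, Finset.card_insert_of_notMem hγ,
        fun t'' ht'' hcc => hc ⟨t'', ht'', hcc⟩⟩
    have h2 := hQm _ h1
    omega
  -- the maximal antichain
  obtain ⟨M, hMS, hMa, hMp⟩ := exists_max (Ord E α) {m | ∃ p ∈ BR R, Ord E α m p}
  have hi : ∀ m : Cond W K L, ∃ p, m ∈ M → p ∈ BR R ∧ Ord E α m p := by
    intro m
    by_cases hm : m ∈ M
    · obtain ⟨p, hp, hmp⟩ := hMS hm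
      exact ⟨p, fun _ => ⟨hp, hmp⟩⟩
    · exact ⟨m, fun h' => (hm h').elim⟩
  choose i hi using hi
  obtain ⟨t3, ht3, hM'⟩ := h α hαa M hMa t2
  set M' : Set (Cond W K L) := {m ∈ M | TComp m.1 t3} with hM'def
  -- the pairs
  set J : Set (Cond W K L × L) := {x | x.1 ∈ M' ∧ x.2 ∈ TCCLim_sp a (i x.1) ∧ x.2 ∉ R} with hJ
  have hJc : J.Countable := by
    have h1 : (⋃ m ∈ M', (fun γ => (m, γ)) '' (TCCLim_sp a (i m) : Set L)).Countable :=
      hM'.biUnion (fun m _ => (Finset.countable_toSet _).image _)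
    refine h1.mono ?_
    rintro ⟨m, γ⟩ ⟨h2, h3, _⟩
    simp only [Set.mem_iUnion]
    exact ⟨m, h2, γ, h3, rfl⟩
  have hJc' : Countable J := hJc.to_subtype
  obtain ⟨t4, ht4, h4⟩ := t_dense (ι := J)
    (fun j t' => {p ∈ BR (insert j.1.2 R) | TComp p.1 t'}.Countable)
    (fun i s t hc hst => hc.mono (by
      rintro p ⟨h1, h2⟩
      exact ⟨h1, h2.mono (tl_refl _) hst⟩)) t3
    (fun j s hs => hB2 j.1.2 j.2.2.2 s (tl_trans hs ht3))
  have hZ : ((⋃ j : J, {p ∈ BR (insert j.1.2 R) | TComp p.1 t4}) ∪ i '' M').Countable :=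
    (Set.countable_iUnion h4).union (hM'.image i)
  have hnc : ¬ {p ∈ BR R | TComp p.1 t4}.Countable := hR t4 (tl_trans ht4 ht3)
  obtain ⟨p, hp, hpZ⟩ : ∃ p, p ∈ {p ∈ BR R | TComp p.1 t4} ∧
      p ∉ ((⋃ j : J, {p ∈ BR (insert j.1.2 R) | TComp p.1 t4}) ∪ i '' M') := by
    by_contra hc
    push Not at hc
    exact hnc (hZ.mono hc)
  obtain ⟨r0, hr0p, hr0t⟩ := hp.2
  have hrp : Ord E α (setT r0 p) p := Ord_setT E α hr0p
  obtain ⟨m, hmM, s, hsr, hsm⟩ := hMp (setT r0 p) ⟨p, hp.1, hrp⟩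
  have hmM' : m ∈ M' := by
    refine ⟨hmM, s.1, (Ord_iff.1 hsm).1, ?_⟩
    exact tl_trans (Ord_iff.1 hsr).1 (tl_trans hr0t ht4)
  obtain ⟨hiB, him⟩ := hi m hmM
  have hpi : p ≠ i m := fun e => hpZ (Or.inr ⟨m, hmM', e.symm⟩)
  obtain ⟨u, hu1, hu2⟩ := TCCLim_amalg (a := a) (Ord_trans E α _ _ _ hsr hrp)
    (Ord_trans E α _ _ _ hsm him) (by
      intro b hαb hba hpb
      by_contra hib
      have hbR : b ∉ R := fun hbR => absurd (hα b hbR) (not_lt.2 hαb)
      refine hpZ (Or.inl (Set.mem_iUnion.2 ⟨⟨(m, b), hmM', TCCLim_mem_sp.2 ⟨hba, hib⟩, hbR⟩, ?_⟩))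
      refine ⟨⟨hp.1.1, hp.1.2.1, ?_⟩, hp.2⟩
      intro x hx
      rcases Finset.mem_insert.1 hx with hx | hx
      · rw [hx]
        exact TCCLim_mem_sp.2 ⟨hba, hpb⟩
      · exact hp.1.2.2 hx)
  exact hA p hp.1.1 (i m) hiB.1 hpi u hu1 hu2

end MOF
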