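import Pool.Agent.W_3b51b4_h32.TCC

set_option autoImplicit false
set_option linter.unusedSectionVars false

/-!
# MP_3b51b4_gt : the chain condition, successor step

`a` is the successor of `b`, `TCC E b` holds, `A` is an antichain for `Ord E a`, `t` is given.

Case 1: `ev E b x y = univ` for all `x y` (that is, the stage `b` is not `Good`).  Then `A` is an antichain for `Ord E b`: if `r ≤_b p, q`, then
`upd r b w ≤_a p, q` for any `w : W` (`Ord_upd_succ`; if `W` is empty, then all conditions are empty at `b` and `Ord E a r p ↔ Ord E b r p`).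
So `TCC E b` for `A` gives the claim.

Case 2: the stage is `Good`: `ev E b x y = cls (Ord E b) (E b x y)`, and `FC (Ord E b) (ev E b)`.  For `x : W` let
`C x = {q | ∃ p ∈ A, p.2.1 b = some x ∧ Ord E b q p}` (closed under extensions).
* If `x ≠ y`, `q ∈ C x`, `q ∈ C y`, then for no `z` both `q ∈ ev E b z x` and `q ∈ ev E b z y`: `q ≤_b p ∈ A`, `q ≤_b p' ∈ A`, `p` has the value `x` and
  `p'` the value `y` at `b`; `upd q b z ≤_a p, p'` (`Ord_upd_succ`), so `p = p'`, `x = y`.
* So by `FC` the set `S = {q | ∃ β, ∀ x ≥ β, ∀ r ≤_b q, r ∉ C x}` is dense.  `TCC.pred` (`ι = Unit`) gives `t1 ≤ t` and a countable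
  `M ⊆ S`.  Let `β` be above the (countably many) `β`s of the elements of `M` (`H.bdW`).  Then: if `x ≥ β`, `r ∈ C x` then not `PF.L r.1 t1`:
  otherwise `s ≤_b r`, `s ≤_b m ∈ M`, `s ∈ C x`, a contradiction.
* For every `x < β` the set `A_x = {p ∈ A | p.2.1 b = some x}` is an antichain for `Ord E b` (if `r ≤_b p, q`, then `upd r b x ≤_a p, q` by
  `ev_refl`), and `A_none = {p ∈ A | p.2.1 b = none}` also (`r ≤_b p` implies `r ≤_a p` for these).  The index set `Option (Iio β)` is countable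
  (`H.segW`), so by `t_dense` and `TCC E b` there is `t2 ≤ t1` such that all `{p ∈ A_i | TComp p.1 t2}` are countable.
* `{p ∈ A | TComp p.1 t2}` is contained in the union of these sets: if `p` has the value `x ≥ β` at `b` and `r` extends `p.1` and `t2`, then
  `setT r p ∈ C x` and `PF.L r t1`, a contradiction.
-/

universe u

open Cardinal Set

namespace MOF

open Pool.Agent.W_MP_315f31_lc W61

variable {W K L : Type u} [LinearOrder W] [WellFoundedLT W] [LinearOrder L] [WellFoundedLT L]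

theorem TCCSucc_antichain (E : L → Nm W K L) (a b : L) (hab : ∀ x, x < a ↔ x ≤ b) (w0 : W)
    (A : Set (Cond W K L)) (hA : ∀ p ∈ A, ∀ q ∈ A, p ≠ q → ∀ r, Ord E a r p → ¬ Ord E a r q)
    (o : Option W) :
    ∀ p ∈ {p ∈ A | p.2.1 b = o}, ∀ q ∈ {p ∈ A | p.2.1 b = o}, p ≠ q →
      ∀ r, Ord E b r p → ¬ Ord E b r q := by
  rintro p ⟨hpA, hpo⟩ q ⟨hqA, hqo⟩ hpq r hrp hrq
  refine hA p hpA q hqA hpq (upd r b (o.getD w0)) (Ord_upd_succ hab hrp ?_)
    (Ord_upd_succ hab hrq ?_)
  · intro x hx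
    rw [hpo] at hx
    subst hx
    exact ev_refl E b x r
  · intro x hx
    rw [hqo] at hx
    subst hx
    exact ev_refl E b x r

theorem TCC_succ (H : Hyp W K L) (E : L → Nm W K L) (a b : L) (hab : ∀ x, x < a ↔ x ≤ b)
    (h : TCC E b) : TCC E a := by
  intro A hA t
  obtain ⟨ew⟩ := H.finW
  let w0 : W := ew.symm ∅
  by_cases hg : Good (Ord E b) (fun x y => cls (Ord E b) (E b x y))
  · -- the stage is good
    have hev : ∀ {x y : W} {p : Cond W K L}, p ∈ cls (Ord E b) (E b x y) → p ∈ ev E b x y :=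
      fun hp _ => hp
    let C : W → Set (Cond W K L) := fun x => {q | ∃ p ∈ A, p.2.1 b = some x ∧ Ord E b q p}
    have hC1 : ∀ x p q, p ∈ C x → Ord E b q p → q ∈ C x := by
      rintro x p q ⟨p0, h1, h2, h3⟩ hqp
      exact ⟨p0, h1, h2, Ord_trans E b _ _ _ hqp h3⟩
    have hC2 : ∀ x y, x ≠ y → ∀ p, p ∈ C x → p ∈ C y →
        ∀ z, p ∈ cls (Ord E b) (E b z x) → p ∉ cls (Ord E b) (E b z y) := by
      rintro x y hxy p ⟨p0, h1, h2, h3⟩ ⟨p1, h4, h5, h6⟩ z hzx hzy
      have hne : p0 ≠ p1 := by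
        rintro rfl
        rw [h2] at h5
        exact hxy (Option.some.inj h5)
      refine hA p0 h1 p1 h4 hne (upd p b z) (Ord_upd_succ hab h3 ?_) (Ord_upd_succ hab h6 ?_)
      · intro x' hx'
        rw [h2] at hx'
        obtain rfl := Option.some.inj hx'
        exact hev hzx
      · intro x' hx'
        rw [h5] at hx'
        obtain rfl := Option.some.inj hx'
        exact hev hzy
    have hfc := hg.fc C hC1 hC2
    let S : Set (Cond W K L) := {q | ∃ β, ∀ x, β ≤ x → ∀ r, Ord E b r q → r ∉ C x}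
    obtain ⟨t1, ht1, M, hMc, hMS, hMd⟩ := h.pred (ι := Unit) (fun _ => S) t
      (fun _ p _ => by
        obtain ⟨q, h1, h2⟩ := hfc p
        exact ⟨q, h1, h2⟩)
    -- one bound
    have hβ : ∃ β, ∀ m ∈ M (), ∀ x, β ≤ x → ∀ r, Ord E b r m → r ∉ C x := by
      have h1 : ∀ m ∈ M (), ∃ β, ∀ x, β ≤ x → ∀ r, Ord E b r m → r ∉ C x :=
        fun m hm => hMS () hm
      rcases (M ()).eq_empty_or_nonempty with h2 | h2
      · refine ⟨w0, fun m hm => ?_⟩
        rw [h2] at hm
        exact absurd hm (Set.notMem_empty m)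
      · obtain ⟨f, hf⟩ := (hMc ()).exists_eq_range h2
        have h3 : ∀ n, ∃ β, ∀ x, β ≤ x → ∀ r, Ord E b r (f n) → r ∉ C x :=
          fun n => h1 (f n) (by rw [hf]; exact ⟨n, rfl⟩)
        choose g hgn using h3
        obtain ⟨β, hβ⟩ := H.bdW g
        refine ⟨β, fun m hm x hx r hr => ?_⟩
        rw [hf] at hm
        obtain ⟨n, rfl⟩ := hm
        exact hgn n x ((hβ n).le.trans hx) r hr
    obtain ⟨β, hβ⟩ := hβ
    have hbig : ∀ x, β ≤ x → ∀ r, r ∈ C x → ¬ PF.L r.1 t1 := by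
      intro x hx r hr hrt
      obtain ⟨m, hm, s, h1, h2⟩ := hMd () r hrt
      exact hβ m hm x hx s h2 (hC1 x r s hr h1)
    -- the small values
    have : Countable (Iio β) := (H.segW β).to_subtype
    let Φ : Option (Iio β) → Tt W K → Prop := fun i s =>
      {p ∈ {p ∈ A | p.2.1 b = i.map Subtype.val} | TComp p.1 s}.Countable
    obtain ⟨t2, ht2, hΦ⟩ := t_dense Φ
      (fun i s t' h1 h2 => Set.Countable.mono (s₂ :=
        {p ∈ {p ∈ A | p.2.1 b = i.map Subtype.val} | TComp p.1 t'})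
        (fun p hp => ⟨hp.1, hp.2.mono (tl_refl _) h2⟩) h1) t1
      (fun i s _ => h _ (TCCSucc_antichain E a b hab w0 A hA _) s)
    refine ⟨t2, tl_trans ht2 ht1, ?_⟩
    refine Set.Countable.mono ?_ (Set.countable_iUnion hΦ)
    rintro p ⟨hpA, hpt⟩
    rw [Set.mem_iUnion]
    rcases hval : p.2.1 b with _ | x
    · exact ⟨none, ⟨hpA, hval⟩, hpt⟩
    · by_cases hx : x < β
      · exact ⟨some ⟨x, hx⟩, ⟨hpA, hval⟩, hpt⟩
      · exfalso
        obtain ⟨r, hr1, hr2⟩ := hpt
        exact hbig x (not_lt.1 hx) (setT r p) ⟨p, hpA, hval, Ord_setT E b hr1⟩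
          (tl_trans hr2 ht2)
  · -- the stage is trivial
    have hev : ∀ {x y : W} {p : Cond W K L}, p ∈ ev E b x y := fun h0 => absurd h0 hg
    refine h A ?_ t
    intro p hp q hq hpq r hrp hrq
    exact hA p hp q hq hpq (upd r b w0) (Ord_upd_succ hab hrp fun _ _ => hev)
      (Ord_upd_succ hab hrq fun _ _ => hev)

end MOF
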