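import Pool.Agent.W_3b51b4_h32.TCCZero
import Pool.Agent.W_3b51b4_h32.TCCSucc
import Pool.Agent.W_3b51b4_h32.TCCLim

set_option autoImplicit false
set_option linter.unusedSectionVars false

/-!
# MP_3b51b4_gt : the chain condition
-/

universe u

open Cardinal Set

namespace MOF

open Pool.Agent.W_MP_315f31_lc W61

variable {W K L : Type u} [LinearOrder W] [WellFoundedLT W] [LinearOrder L] [WellFoundedLT L]

theorem TCC_all (H : Hyp W K L) (E : L → Nm W K L) (a : L) : TCC E a := by
  induction a using WellFoundedLT.induction with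
  | ind a ih =>
    by_cases h0 : ∃ b, b < a
    · by_cases hl : ∀ b < a, ∃ c < a, b < c
      · exact TCC_lim E a h0 hl ih
      · push Not at hl
        obtain ⟨b, hb, hb'⟩ := hl
        exact TCC_succ H E a b (fun x => ⟨fun hx => hb' x hx, fun hx => hx.trans_lt hb⟩) (ih b hb)
    · push Not at h0
      exact TCC_zero E a fun b hb => absurd (h0 b) (not_le.2 hb)

end MOF
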