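import Pool.Agent.W_3b51b4_h32.LocE
import Pool.Agent.W_3b51b4_h32.TCCAll
import Pool.Agent.W_3b51b4_h32.Clo

set_option autoImplicit false
set_option linter.unusedSectionVars false

/-!
# MP_3b51b4_gt : countable names

`gf f` is the name of: the finite partial function `f` is in the generic filter.  A countable name of a subset of `I` is
`N : I → ℕ → Option (Fn L W)`; `nv N i` is the value of: some `f` with `N i k = some f` is in the generic filter.

* `loc_gf`: let `Low s.1 f`, `s'` extend `s`, and `InD p s' (gf f)`.  To show `InD p s (gf f)`: let `(q, s'') ≤ (p, s)`.  `SO s q p`, `g = glue s.1 q p`,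
  `(g, s') ≤ (p, s')`, so there is `(r, t) ≤ (g, s')` with `SO t r (tnil, f)`; then `SO s r (tnil, f)`, `SO s r q`, and `(glue s.1 r q, s'') ≤ (q, s'')` is
  `≤ (tnil, f)` in `SO s''` (`SO_low_iff`).  The other direction is `RO.mem_lower`.
* `cnB`: for every `i` the set `S i = {q | InB q (x i) ∨ InB q (x i)ᶜ}` is dense.  `TCC.pred` (`TCC_all`) gives `t1 ≤ t` and countable `M i ⊆ S i`, predense below
  `t1`.  By `t_dense` there is `t' ≤ t1` which decides all `m.1`, `m ∈ M i`: `PF.L t' m.1` or `¬ TComp m.1 t'`.  Let `N i` enumerate the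
  `(cut s.1 m).2`, `m ∈ M i`, `PF.L t' m.1`, `InB m (x i)`.  Let `PF.L p.1 t'`.
  (→) If `InB p (x i)`: `InD p s (nv N i)`: by `loc_nv` and regularity of `tr s (nv N i)` it is enough to find below every `q ≤ p` (`SO s`) some `r` with
  `InD r s (gf f)`, `f` a value of `N i`: there are `m ∈ M i` and `r ≤ q`, `r ≤ m`; `TComp m.1 t'`, so `PF.L t' m.1`; `InB r (x i)`, so `InB m (x i)ᶜ` is false,
  so `InB m (x i)`; `SO s r (tnil, (cut s.1 m).2)`.
  (←) If `InD p s (nv N i)`: for every `q ≤ p` (`SO s`) there is `(r, s'') ≤ (q, s)` with `SO s'' r (tnil, (cut s.1 m).2)`, `m ∈ M i`, `PF.L t' m.1`, `InB m (x i)`;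
  `PF.L r.1 t'`, so `SO s r m`, and `InB r (x i)`.  So `x i` is dense below `p`.
* `cnD`: the sets `d i = {(q, t) | InD q t (x i) ∨ InD q t (x i)ᶜ}` are dense and open, so by `clo'` (index type `ULift I`, countable, `≤ #K`) there is
  `s'` extending `s` with all `d i` dense for `s'`; `Loc s' (x i)` (`loc_of_dec`).  Apply `cnB` to `s'`, `fun i => tr s' (x i)`, `p.1`.  Let `p' = setT t' p`.
  `(p', s') ≤ (p, s)`.  For `(q, s'') ≤ (p', s')`: `InD q s'' (x i) ↔ InD q s' (x i) ↔ InD q s' (nv N i) ↔ InD q s'' (nv N i)`.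
-/

universe u v

open Cardinal Set IM

namespace MOF

open Pool.Agent.W_MP_315f31_lc W61

variable {W K L : Type u} [LinearOrder W] [LinearOrder L] [WellFoundedLT L]

/-- The empty collapse part. -/
def tnil : Tt W K := ⟨fun _ => none, by simp⟩

theorem L_tnil (t : Tt W K) : PF.L t tnil := fun _ _ h => absurd h (by simp [tnil])

/-- The value of: `f` is in the generic filter. -/
def gf (f : Fn L W) : Dt W K L :=
  toD' (L := PLe) (fun x => Low x.2.1 f ∧ SO x.2 x.1 (tnil, f)) (by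
    intro x y hx hy
    refine ⟨hx.1.mono hy.1.1, (SO_low_iff hy.1 hx.1).2 ?_⟩
    exact Ord_trans _ _ _ _ _ hy.2 hx.2)

/-- The value of: `i` is in the set with the countable name `N`. -/
noncomputable def nv {I : Type v} (N : I → ℕ → Option (Fn L W)) (i : I) : Dt W K L :=
  ⨆ (k : ℕ) (f : Fn L W) (_ : N i k = some f), gf f

/-- `N` is a name for the iteration of length `a`. -/
def LowN {I : Type v} (a : L) (N : I → ℕ → Option (Fn L W)) : Prop :=
  ∀ i k f, N i k = some f → Low a f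

theorem loc_gf {s : Plan W K L} {f : Fn L W} (h : Low s.1 f) : Loc s (gf f) := by
  intro s' hs' p
  constructor
  · intro hp y hy
    have hy' : SLe y.2 s ∧ SO s y.1 p := hy
    obtain ⟨hys, hyp⟩ := hy'
    have h1 : PLe (glue s.1 y.1 p, s') (p, s') := ⟨SLe.refl _, SO_glue hs' hyp⟩
    obtain ⟨z, hz, _, hz2⟩ := hp (glue s.1 y.1 p, s') h1
    have hz' : SLe z.2 s' ∧ SO s' z.1 (glue s.1 y.1 p) := hz
    obtain ⟨hzs, hzg⟩ := hz'
    have h2 : SO s z.1 (tnil, f) := SO_of_ext (hzs.trans hs') hz2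
    have h3 : SO s z.1 y.1 :=
      Ord_trans _ _ _ _ _ (SO_of_ext hs' hzg) (Ord_glue_right _ _ _ _)
    refine ⟨(glue s.1 z.1 y.1, y.2), ⟨SLe.refl _, SO_glue hys h3⟩, h.mono hys.1, ?_⟩
    exact (SO_low_iff hys h).2 (Ord_trans _ _ _ _ _ (Ord_glue_right _ _ _ _) h2)
  · intro hp
    exact RO.mem_lower hp ⟨hs', Ord_refl _ _ _⟩

theorem CN_loc_prop {s : Plan W K L} {q : Prop} {u : q → Dt W K L} (h : ∀ i, Loc s (u i)) :
    Loc s (⨆ i, u i) := by
  by_cases hq : q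
  · rw [iSup_pos hq]
    exact h hq
  · rw [iSup_neg hq]
    exact loc_bot s

theorem loc_nv {s : Plan W K L} {I : Type v} {N : I → ℕ → Option (Fn L W)} (h : LowN s.1 N)
    (i : I) : Loc s (nv N i) := by
  exact loc_iSup fun k => loc_iSup fun f => CN_loc_prop fun hf => loc_gf (h i k f hf)

theorem CN_gf_le {I : Type v} {N : I → ℕ → Option (Fn L W)} {i : I} {k : ℕ} {f : Fn L W}
    (h : N i k = some f) : (gf f : Dt W K L) ≤ nv N i :=
  le_iSup_of_le k (le_iSup_of_le f (le_iSup_of_le h le_rfl))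

theorem CN_mem_nv {I : Type v} {N : I → ℕ → Option (Fn L W)} {i : I} {p : Cond W K L}
    {s : Plan W K L} (h : InD p s (nv N i)) :
    ∃ r t, PLe (r, t) (p, s) ∧ ∃ k f, N i k = some f ∧ SO t r (tnil, f) := by
  obtain ⟨y1, h1, k, h2⟩ := (RO.mem_iSup _ _).1 h _ (le_refl _)
  obtain ⟨y2, h3, f, h4⟩ := (RO.mem_iSup _ _).1 h2 _ (le_refl _)
  by_cases hf : N i k = some f
  · rw [iSup_pos hf] at h4
    obtain ⟨y3, h5, _, h6⟩ := h4 _ (IsPre.refl (L := PLe) y2)
    have h7 : PLe y3 (p, s) :=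
      IsPre.trans (L := PLe) _ _ _ h5 (IsPre.trans (L := PLe) _ _ _ h3 h1)
    exact ⟨y3.1, y3.2, h7, k, f, hf, h6⟩
  · rw [iSup_neg hf] at h4
    exact absurd h4 (RO.mem_bot _)

theorem CN_enum {A : Type v} {B : Set A} (h : B.Countable) :
    ∃ N : ℕ → Option A, (∀ k f, N k = some f → f ∈ B) ∧ ∀ f ∈ B, ∃ k, N k = some f := by
  rcases B.eq_empty_or_nonempty with h0 | h0
  · refine ⟨fun _ => none, fun k f hf => absurd hf (by simp), fun f hf => ?_⟩
    rw [h0] at hf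
    exact absurd hf (Set.notMem_empty f)
  · obtain ⟨g, rfl⟩ := h.exists_eq_range h0
    refine ⟨fun k => some (g k), fun k f hf => ?_, ?_⟩
    · exact ⟨k, Option.some.inj hf⟩
    · rintro _ ⟨k, rfl⟩
      exact ⟨k, rfl⟩

variable [WellFoundedLT W]

theorem cnB (H : Hyp W K L) (s : Plan W K L) {I : Type v} [Countable I] (x : I → BB s)
    (t : Tt W K) : ∃ (t' : Tt W K) (N : I → ℕ → Option (Fn L W)), PF.L t' t ∧ LowN s.1 N ∧
      ∀ i p, PF.L p.1 t' → (InB p (x i) ↔ InD p s (nv N i)) := by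
  classical
  obtain ⟨t1, ht1, M, hMc, hMS, hMd⟩ := (TCC_all H s.2 s.1).pred
    (fun i => {q | InB q (x i) ∨ InB q (x i)ᶜ}) t (by
      intro i p _
      by_cases hq : ∃ q, SO s q p ∧ InB q (x i)
      · obtain ⟨q, h1, h2⟩ := hq
        exact ⟨q, h1, Or.inl h2⟩
      · exact ⟨p, Ord_refl _ _ _, Or.inr fun q h1 h2 => hq ⟨q, h1, h2⟩⟩)
  have : ∀ i, Countable (M i) := fun i => (hMc i).to_subtype
  obtain ⟨t', ht', hdec⟩ := t_dense (ι := Σ i, M i)
    (fun im t => PF.L t im.2.1.1 ∨ ¬ TComp im.2.1.1 t)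
    (by
      rintro im s' t'' (h1 | h1) h2
      · exact Or.inl (tl_trans h2 h1)
      · exact Or.inr fun h3 => h1 (h3.mono (tl_refl _) h2)) t1
    (by
      intro im s' _
      by_cases h1 : TComp im.2.1.1 s'
      · obtain ⟨r, h2, h3⟩ := h1
        exact ⟨r, h3, Or.inl h2⟩
      · exact ⟨s', tl_refl _, Or.inr h1⟩)
  have hB : ∀ i, ∃ N : ℕ → Option (Fn L W),
      (∀ k f, N k = some f → f ∈ (fun m : Cond W K L => (cut s.1 m).2) ''
        {m ∈ M i | PF.L t' m.1 ∧ InB m (x i)}) ∧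
      ∀ f ∈ (fun m : Cond W K L => (cut s.1 m).2) '' {m ∈ M i | PF.L t' m.1 ∧ InB m (x i)},
        ∃ k, N k = some f :=
    fun i => CN_enum (((hMc i).mono (Set.sep_subset _ _)).image _)
  choose N hN1 hN2 using hB
  refine ⟨t', N, tl_trans ht' ht1, ?_, ?_⟩
  · intro i k f hf
    obtain ⟨m, _, rfl⟩ := hN1 i k f hf
    exact low_cut s.1 m
  intro i p hp
  constructor
  · intro hpx
    refine mem_tr.1 (?_ : InB p (tr s (nv N i)))
    refine RO.mem_of_dense fun q hq => ?_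
    have hq' : SO s q p := hq
    have hqt : PF.L (show Cond W K L from q).1 t' := tl_trans (Ord_iff.1 hq').1 hp
    obtain ⟨m, hm, r, hrq, hrm⟩ := hMd i q (tl_trans hqt ht')
    refine ⟨r, hrq, ?_⟩
    have h1 : PF.L t' m.1 := by
      rcases hdec ⟨i, ⟨m, hm⟩⟩ with h2 | h2
      · exact h2
      · exact absurd ⟨r.1, (Ord_iff.1 hrm).1, tl_trans (Ord_iff.1 hrq).1 hqt⟩ h2
    have hrx : InB r (x i) := RO.mem_lower (RO.mem_lower hpx hq) hrq
    have hmx : InB m (x i) := by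
      rcases hMS i hm with h2 | h2
      · exact h2
      · exact absurd hrx (h2 r hrm)
    obtain ⟨k, hk⟩ := hN2 i _ ⟨m, ⟨hm, h1, hmx⟩, rfl⟩
    have h3 : SO s r (tnil, (cut s.1 m).2) :=
      Ord_trans _ _ _ _ _ hrm (Ord_trans _ _ _ _ _ (Ord_cut' _ _ _)
        (Ord_of_eq (L_tnil _) fun _ _ => rfl))
    refine mem_tr.2 ((CN_gf_le hk : gf _ ≤ nv N i) ?_)
    exact mem_toD' (L := PLe) _ (p := (r, s)) ⟨low_cut s.1 m, h3⟩
  · intro hpN
    refine RO.mem_of_dense fun q hq => ?_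
    have hq' : SO s q p := hq
    have hqN : InD q s (nv N i) := RO.mem_lower hpN ⟨SLe.refl s, hq'⟩
    obtain ⟨r, t2, hrt, k, f, hf, hrf⟩ := CN_mem_nv hqN
    obtain ⟨hts, hrq⟩ : SLe t2 s ∧ SO s r q := hrt
    obtain ⟨m, ⟨hm, hmt, hmx⟩, rfl⟩ := hN1 i k f hf
    refine ⟨r, hrq, ?_⟩
    have h1 : SO s r (tnil, (cut s.1 m).2) := SO_of_ext hts hrf
    have h2 : PF.L r.1 m.1 :=
      tl_trans (tl_trans (Ord_iff.1 hrq).1 (tl_trans (Ord_iff.1 hq').1 hp)) hmt
    have h3 : SO s r m := Ord_iff.2 ⟨h2, fun b hb y hy =>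
      (Ord_iff.1 h1).2 b hb y ((cut_lt hb m).trans hy)⟩
    exact RO.mem_lower hmx h3

theorem cnD (H : Hyp W K L) {I : Type v} [Countable I] (x : I → Dt W K L) (p : Cond W K L)
    (s : Plan W K L) : ∃ (p' : Cond W K L) (s' : Plan W K L) (N : I → ℕ → Option (Fn L W)),
      PLe (p', s') (p, s) ∧ LowN s'.1 N ∧
        ∀ i q s'', PLe (q, s'') (p', s') → (InD q s'' (x i) ↔ InD q s'' (nv N i)) := by
  classical
  have hsm : Small.{u} I := Countable.toSmall I
  obtain ⟨J, ⟨e⟩⟩ : ∃ J : Type u, Nonempty (I ≃ J) := hsm.equiv_small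
  let d : J → Set (Cond W K L × Plan W K L) := fun j =>
    {y | InD y.1 y.2 (x (e.symm j)) ∨ InD y.1 y.2 (x (e.symm j))ᶜ}
  have hJ : #J ≤ #K := by
    have : Countable J := e.symm.injective.countable
    exact (Cardinal.mk_le_aleph0).trans (aleph0_le_K H)
  obtain ⟨s', hs', hd⟩ := clo' H hJ d
    (by
      rintro j y z (h1 | h1) h2
      · exact Or.inl (RO.mem_lower h1 h2)
      · exact Or.inr (RO.mem_lower h1 h2))
    (by
      intro j y
      by_cases h1 : ∃ z, PLe z y ∧ InD z.1 z.2 (x (e.symm j))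
      · obtain ⟨z, h2, h3⟩ := h1
        exact ⟨z, h2, Or.inl h3⟩
      · exact ⟨y, IsPre.refl _, Or.inr fun z h2 h3 => h1 ⟨z, h2, h3⟩⟩) s
  have hloc : ∀ i, Loc s' (x i) := by
    intro i
    refine loc_of_dec fun p => ?_
    obtain ⟨q, h1, h2⟩ := hd (e i) p
    refine ⟨q, h1, ?_⟩
    have h3 : InD q s' (x (e.symm (e i))) ∨ InD q s' (x (e.symm (e i)))ᶜ := h2
    rwa [Equiv.symm_apply_apply] at h3
  obtain ⟨t', N, ht', hN, hNx⟩ := cnB H s' (fun i => tr s' (x i)) p.1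
  refine ⟨setT t' p, s', N, ⟨hs', Ord_setT _ _ ht'⟩, hN, ?_⟩
  rintro i q s'' ⟨h1, h2⟩
  have h1' : SLe s'' s' := h1
  have h2' : SO s' q (setT t' p) := h2
  rw [hloc i s'' h1' q, loc_nv hN i s'' h1' q, ← mem_tr]
  exact hNx i q (Ord_iff.1 h2').1

end MOF
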