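import Pool.Agent.W_3b51b4_h32.Plan

set_option autoImplicit false
set_option linter.unusedSectionVars false

/-!
# MP_3b51b4_gt : sequences of plans

`exists_lub`: If `s i ≤` or `≥ s j` for all `i j` (`#I ≤ #K`): let `l` be the least element of `{a | ∀ i, (s i).1 ≤ a}` (nonempty by `H.bdL`), and
`E b = (s i).2 b` for a chosen `i` with `b < (s i).1`, if there is one (arbitrary otherwise).  If `b < l`, then by minimality `b < (s i).1` for some `i`.

`exists_chain`: let `lub : Set (Plan) → Plan` be a choice function: `lub 𝒞` is a least upper bound as in `exists_lub` (of the family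
`Subtype.val : 𝒞 → Plan`), if there is one, `s0` otherwise.  Define `S i = lub ({s0} ∪ {F j (S j) | j < i})` by well-founded recursion.  By induction on
`i`: the family `{s0} ∪ {F j (S j) | j < i}` is a chain: for `j < j' < i`: `F j (S j) ≤ S j' ≤ F j' (S j')` because `S j'` is an upper
bound of the family of `j'`.  So `S i` is an upper bound.  The last plan is `lub ({s0} ∪ {F j (S j) | all j})`.
-/

universe u

open Cardinal Set

namespace MOF

open Pool.Agent.W_MP_315f31_lc W61

variable {W K L : Type u} [LinearOrder W] [LinearOrder L] [WellFoundedLT L]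

theorem exists_lub (H : Hyp W K L) {I : Type u} (hI : #I ≤ #K) [Nonempty I]
    (s : I → Plan W K L) (hs : ∀ i j, SLe (s i) (s j) ∨ SLe (s j) (s i)) :
    ∃ t : Plan W K L, (∀ i, SLe t (s i)) ∧ ∀ b < t.1, ∃ i, b < (s i).1 := by
  classical
  obtain ⟨b0, hb0⟩ := H.bdL I (fun i => (s i).1) hI
  have hne : {a : L | ∀ i, (s i).1 ≤ a}.Nonempty := ⟨b0, fun i => (hb0 i).le⟩
  let l : L := (wellFounded_lt (α := L)).min _ hne
  have hl : ∀ i, (s i).1 ≤ l := (wellFounded_lt (α := L)).min_mem _ hne
  let E : L → Nm W K L := fun b =>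
    if h : ∃ i, b < (s i).1 then (s (Classical.choose h)).2 b else fun _ _ => ∅
  refine ⟨(l, E), fun i => ⟨hl i, fun b hb => ?_⟩, fun b hb => ?_⟩
  · have h : ∃ i, b < (s i).1 := ⟨i, hb⟩
    have hE : E b = (s (Classical.choose h)).2 b := dif_pos h
    show E b = (s i).2 b
    rw [hE]
    rcases hs i (Classical.choose h) with h1 | h1
    · exact (h1.2 b (Classical.choose_spec h)).symm
    · exact h1.2 b hb
  · by_contra hcon
    push Not at hcon
    exact (wellFounded_lt (α := L)).not_lt_min {a : L | ∀ i, (s i).1 ≤ a} hcon hb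

theorem Chain_infinite (H : Hyp W K L) : ℵ₀ ≤ #K := by
  obtain ⟨e⟩ := H.finW
  have h1 : Infinite W := by
    by_contra hfin
    rw [not_infinite_iff_finite] at hfin
    haveI := Fintype.ofFinite W
    have h2 := Fintype.card_congr e
    rw [Fintype.card_finset] at h2
    exact absurd h2 (Nat.lt_two_pow_self).ne
  exact (Cardinal.aleph0_le_mk W).trans H.wk

/-- the chosen least upper bound of a family of plans -/
noncomputable def Chain_lub (s0 : Plan W K L) {J : Type u} (g : J → Plan W K L) : Plan W K L := by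
  classical
  exact if h : ∃ t : Plan W K L, (∀ i, SLe t (g i)) ∧ ∀ b < t.1, ∃ i, b < (g i).1 then
    Classical.choose h else s0

theorem Chain_lub_spec (H : Hyp W K L) (s0 : Plan W K L) {J : Type u} (hJ : #J ≤ #K) [Nonempty J]
    (g : J → Plan W K L) (hg : ∀ i j, SLe (g i) (g j) ∨ SLe (g j) (g i)) :
    (∀ i, SLe (Chain_lub s0 g) (g i)) ∧ ∀ b < (Chain_lub s0 g).1, ∃ i, b < (g i).1 := by
  have h := exists_lub H hJ g hg
  have h1 : Chain_lub s0 g = Classical.choose h := by
    unfold Chain_lub
    exact dif_pos h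
  rw [h1]
  exact Classical.choose_spec h

/-- the family of the plans before a stage -/
def Chain_fam {I : Type u} (F : I → Plan W K L → Plan W K L) (s0 : Plan W K L)
    (p : I → Prop) (S : ∀ j, p j → Plan W K L) : Option {j // p j} → Plan W K L
  | none => s0
  | some j => F j.1 (S j.1 j.2)

/-- the sequence of plans -/
noncomputable def Chain_seq {I : Type u} [LinearOrder I] [WellFoundedLT I]
    (F : I → Plan W K L → Plan W K L) (s0 : Plan W K L) : I → Plan W K L :=
  (wellFounded_lt (α := I)).fix fun i ih => Chain_lub s0 (Chain_fam F s0 (fun j => j < i) ih)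

theorem Chain_seq_eq {I : Type u} [LinearOrder I] [WellFoundedLT I]
    (F : I → Plan W K L → Plan W K L) (s0 : Plan W K L) (i : I) :
    Chain_seq F s0 i =
      Chain_lub s0 (Chain_fam F s0 (fun j => j < i) fun j _ => Chain_seq F s0 j) := by
  unfold Chain_seq
  rw [WellFounded.fix_eq]

/-- Transfinite recursion for plans. -/
theorem exists_chain (H : Hyp W K L) {I : Type u} [LinearOrder I] [WellFoundedLT I] (hI : #I ≤ #K)
    (F : I → Plan W K L → Plan W K L) (hF : ∀ i s, SLe (F i s) s) (s0 : Plan W K L) :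
    ∃ (S : I → Plan W K L) (t : Plan W K L), (∀ i, SLe (S i) s0) ∧
      (∀ i j, i < j → SLe (S j) (F i (S i))) ∧ SLe t s0 ∧ (∀ i, SLe t (F i (S i))) ∧
      ∀ b < t.1, b < s0.1 ∨ ∃ i, b < (F i (S i)).1 := by
  have hinf := Chain_infinite H
  have hcard : ∀ p : I → Prop, #(Option {j // p j}) ≤ #K := by
    intro p
    rw [Cardinal.mk_option]
    exact Cardinal.add_le_of_le hinf ((Cardinal.mk_subtype_le _).trans hI)
      (Cardinal.one_le_aleph0.trans hinf)
  -- the families are chains
  have hfam : ∀ (p : I → Prop), (∀ i, p i → SLe (Chain_seq F s0 i) s0 ∧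
      ∀ j, j < i → SLe (Chain_seq F s0 i) (F j (Chain_seq F s0 j))) →
      ∀ x y : Option {j // p j}, SLe (Chain_fam F s0 p (fun j _ => Chain_seq F s0 j) x)
        (Chain_fam F s0 p (fun j _ => Chain_seq F s0 j) y) ∨
        SLe (Chain_fam F s0 p (fun j _ => Chain_seq F s0 j) y)
        (Chain_fam F s0 p (fun j _ => Chain_seq F s0 j) x) := by
    intro p hp x y
    cases x with
    | none =>
      cases y with
      | none => exact Or.inl (SLe.refl _)
      | some j => exact Or.inr ((hF _ _).trans (hp j.1 j.2).1)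
    | some i =>
      cases y with
      | none => exact Or.inl ((hF _ _).trans (hp i.1 i.2).1)
      | some j =>
        rcases lt_trichotomy i.1 j.1 with h | h | h
        · exact Or.inr ((hF _ _).trans ((hp j.1 j.2).2 i.1 h))
        · obtain ⟨i, hi⟩ := i
          obtain ⟨j, hj⟩ := j
          simp only at h
          subst h
          exact Or.inl (SLe.refl _)
        · exact Or.inl ((hF _ _).trans ((hp i.1 i.2).2 j.1 h))
  have key : ∀ i, SLe (Chain_seq F s0 i) s0 ∧
      ∀ j, j < i → SLe (Chain_seq F s0 i) (F j (Chain_seq F s0 j)) := by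
    intro i
    induction i using WellFoundedLT.induction with
    | ind i ih =>
      have h1 := (Chain_lub_spec H s0 (hcard (fun j => j < i))
        (Chain_fam F s0 (fun j => j < i) fun j _ => Chain_seq F s0 j)
        (hfam (fun j => j < i) fun j hj => ih j hj)).1
      rw [← Chain_seq_eq] at h1
      exact ⟨h1 none, fun j hj => h1 (some ⟨j, hj⟩)⟩
  have h2 := Chain_lub_spec H s0 (hcard (fun _ => True))
    (Chain_fam F s0 (fun _ => True) fun j _ => Chain_seq F s0 j)
    (hfam (fun _ => True) fun j _ => key j)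
  refine ⟨Chain_seq F s0, Chain_lub s0 (Chain_fam F s0 (fun _ => True) fun j _ => Chain_seq F s0 j),
    fun i => (key i).1, fun i j hij => (key j).2 i hij, h2.1 none, fun i => h2.1 (some ⟨i, trivial⟩),
    fun b hb => ?_⟩
  obtain ⟨x, hx⟩ := h2.2 b hb
  cases x with
  | none => exact Or.inl hx
  | some j => exact Or.inr ⟨j.1, hx⟩

end MOF
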