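import Pool.Agent.W_3b51b4_h32.ClV

set_option autoImplicit false
set_option linter.unusedSectionVars false

/-!
# MP_3b51b4_gt : downward induction on the coordinates

* `down`: downward induction.  Claim: for every suffix `ys2` of `ys`, `ys = ys1 ++ ys2`, there are `b' ≤ b`, `b' ≠ ⊥` and `pre`, `pre'` of the length of `ys1`
  with `b' ≤ clV F pre ys2 ⊓ clV F pre' ys2` and `Forall₂ (fun s t => b' ≤ U s t) pre pre'`.  For `ys1 = []` it is `h0`.  Step: `ys2 = y :: ys3`.  For every `σ`: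
  `b' ⊓ iniV σ y ≤ trV F pre pre' ys3 σ` by `cl_step`, so `b' ≤ brV (trV F pre pre' ys3) y`, and by `h` `b' ≤ nfV U (trV F pre pre' ys3)`.  So there are
  `σ`, `τ` and `b'' ≤ b'`, `b'' ≠ ⊥`, with `b'' ≤ trV .. σ ⊓ trV .. τ ⊓ U σ τ`.  Take `pre ++ [σ]`, `pre' ++ [τ]`.
-/

universe u v

open Set

namespace MOF

open MAO

variable {W B : Type u} [LinearOrder W] [WellFoundedLT W] [CompleteBooleanAlgebra B]

theorem ClDown_step {U : List Bool → List Bool → B} (F : List (List Bool) → B) {b : B}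
    (ys : List (ℕ → B))
    (h : ∀ y ys', (y :: ys') <:+ ys → ∀ pre pre',
      b ⊓ brV (trV F pre pre' ys') y ≤ nfV U (trV F pre pre' ys'))
    {y : ℕ → B} {ys3 : List (ℕ → B)} (hys : (y :: ys3) <:+ ys) {b' : B} (hbb : b' ≤ b)
    (hb' : b' ≠ ⊥) {pre pre' : List (List Bool)} (h1 : b' ≤ clV F pre (y :: ys3))
    (h2 : b' ≤ clV F pre' (y :: ys3)) :
    ∃ b'' ≤ b', b'' ≠ ⊥ ∧ ∃ s t : List Bool, b'' ≤ clV F (pre ++ [s]) ys3 ∧
      b'' ≤ clV F (pre' ++ [t]) ys3 ∧ b'' ≤ U s t := by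
  have h3 : b' ≤ brV (trV F pre pre' ys3) y := by
    refine le_iInf fun σ => le_compl_sup_of ?_
    exact le_inf ((inf_le_inf_right _ h1).trans (cl_step F pre y ys3 σ))
      ((inf_le_inf_right _ h2).trans (cl_step F pre' y ys3 σ))
  have h4 : b' ≤ nfV U (trV F pre pre' ys3) := (le_inf hbb h3).trans (h y ys3 hys pre pre')
  have h5 : ∃ s t : List Bool, b' ⊓ (trV F pre pre' ys3 s ⊓ trV F pre pre' ys3 t ⊓ U s t) ≠ ⊥ := by
    by_contra hc
    push Not at hc
    apply hb'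
    rw [← inf_eq_left.2 h4]
    unfold nfV
    simp only [inf_iSup_eq, hc, iSup_bot]
  obtain ⟨s, t, hst⟩ := h5
  refine ⟨_, inf_le_left, hst, s, t, ?_, ?_, ?_⟩
  · exact inf_le_right.trans (inf_le_left.trans (inf_le_left.trans inf_le_left))
  · exact inf_le_right.trans (inf_le_left.trans (inf_le_right.trans inf_le_right))
  · exact inf_le_right.trans inf_le_right

theorem ClDown_aux {U : List Bool → List Bool → B} (F : List (List Bool) → B) {b : B} (hb : b ≠ ⊥)
    (ys : List (ℕ → B)) (h0 : b ≤ clV F [] ys)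
    (h : ∀ y ys', (y :: ys') <:+ ys → ∀ pre pre',
      b ⊓ brV (trV F pre pre' ys') y ≤ nfV U (trV F pre pre' ys')) (ys1 : List (ℕ → B)) :
    ∀ ys2 : List (ℕ → B), ys = ys1 ++ ys2 →
    ∃ b' ≤ b, b' ≠ ⊥ ∧ ∃ pre pre' : List (List Bool), pre.length = ys1.length ∧
      b' ≤ clV F pre ys2 ∧ b' ≤ clV F pre' ys2 ∧
      List.Forall₂ (fun s t => b' ≤ U s t) pre pre' := by
  induction ys1 using List.reverseRecOn with
  | nil =>
    intro ys2 hys
    rw [List.nil_append] at hys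
    subst hys
    exact ⟨b, le_rfl, hb, [], [], rfl, h0, h0, List.Forall₂.nil⟩
  | append_singleton zs y ih =>
    intro ys3 hys
    have hys' : ys = zs ++ (y :: ys3) := by rw [hys]; simp
    obtain ⟨b', hbb, hb', pre, pre', hl, h1, h2, h3⟩ := ih (y :: ys3) hys'
    obtain ⟨b'', hbb', hb'', s, t, h4, h5, h6⟩ :=
      ClDown_step F ys h (hys' ▸ List.suffix_append zs (y :: ys3)) hbb hb' h1 h2
    refine ⟨b'', hbb'.trans hbb, hb'', pre ++ [s], pre' ++ [t], by simp [hl], h4, h5, ?_⟩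
    exact List.rel_append (h3.imp fun _ _ h7 => hbb'.trans h7)
      (List.Forall₂.cons h6 List.Forall₂.nil)

theorem down {U : List Bool → List Bool → B} (F : List (List Bool) → B) {b : B} (hb : b ≠ ⊥)
    (ys : List (ℕ → B)) (h0 : b ≤ clV F [] ys)
    (h : ∀ y ys', (y :: ys') <:+ ys → ∀ pre pre',
      b ⊓ brV (trV F pre pre' ys') y ≤ nfV U (trV F pre pre' ys')) :
    ∃ b' ≤ b, b' ≠ ⊥ ∧ ∃ pre pre' : List (List Bool), pre.length = ys.length ∧
      b' ≤ clV F pre [] ∧ b' ≤ clV F pre' [] ∧ List.Forall₂ (fun s t => b' ≤ U s t) pre pre' := by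
  have h1 := ClDown_aux F hb ys h0 h ys [] (by simp)
  exact h1

end MOF
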