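import Pool.Agent.W_MP_3b51b4_h40.TreeMO

set_option autoImplicit false
set_option linter.unusedSectionVars false

/-!
# MP_3b51b4_gt : unbounded subsets of `W`, full names

`unb_split`: Suppose not.  Then for every `i` and every `b' ≤ b`, `b' ≠ ⊥`, there are `b'' ≤ b'`, `b'' ≠ ⊥` and `β` with `b'' ⊓ C' i x = ⊥` for all
`x ≥ β`.  Let `h i β = ⨅ x : Ici β, (C' i x)ᶜ`; it is monotone in `β`, and `b ≤ ⨆ β, h i β` (otherwise `b ⊓ (⨆ β, h i β)ᶜ ≠ ⊥`, and the `b''`, `β` for it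
give `b'' ≤ h i β`).  Let `g i β = h i β ⊓ (⨆ β' : Iio β, h i β')ᶜ`: `g i β ⊓ g i β' = ⊥` for `β ≠ β'`.  (If `ι` is empty, then `b ⊓ C x = ⊥` for all `x`,
a contradiction; otherwise let `ℕ → ι` be a surjection.)  By `hreg` there are `b' ≤ b`, `b' ≠ ⊥`, `z` with `b' ⊓ g i β = ⊥` for all `i` and `β ≥ z`.
Then `b' ≤ h i z` for all `i`: by well-founded induction `h i β ≤ ⨆ β' ≤ β, g i β'`, so `b' ≤ ⨆ β, g i β ⊓ b' ≤ ⨆ β < z, g i β ≤ h i z`.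
So `b' ⊓ C' i x = ⊥` for all `x ≥ z` and `i`, hence `b' ⊓ C x ≤ ⨆ i, b' ⊓ C' i x = ⊥` for `x ≥ z`, which contradicts `Unb b C`.

`full_real`: well-order the set of all names `ℕ → B` (`WellOrderingRel` or `exists_wellOrder`).  For a name `x` let
`a x = b0 ⊓ φ x ⊓ (⨆ x' < x, φ x')ᶜ`.  The `a x` are pairwise disjoint with supremum `b0`.  Let `w n = ⨆ x, a x ⊓ x n`.  Then `a x ≤ eqV x w`
(`a x ⊓ w n = a x ⊓ x n`), so `a x ≤ φ x ⊓ eqV x w ≤ φ w`, and `b0 ≤ φ w`.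
-/

universe u v

open Set

namespace MOF

open MAO

variable {W B : Type u} [LinearOrder W] [WellFoundedLT W] [CompleteBooleanAlgebra B]

/-- `b` forces that the subset `C` of `W` is unbounded -/
def Unb (b : B) (C : W → B) : Prop := ∀ b' ≤ b, b' ≠ ⊥ → ∀ z, ∃ x, z ≤ x ∧ b' ⊓ C x ≠ ⊥

theorem Unb.mono {b b' : B} {C : W → B} (h : Unb b C) (hb : b' ≤ b) : Unb b' C :=
  fun b'' h1 h2 z => h b'' (h1.trans hb) h2 z

/-- a well-founded sup decomposition -/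
theorem UnbV_wf {A : Type v} {r : A → A → Prop} (hr : WellFounded r) (f : A → B) (c : B) (x : A) :
    c ⊓ f x ≤ ⨆ y, c ⊓ f y ⊓ (⨆ z, ⨆ (_ : r z y), f z)ᶜ := by
  induction x using hr.induction with
  | _ x ih =>
    have h1 : c ⊓ f x ≤ (c ⊓ f x ⊓ (⨆ z, ⨆ (_ : r z x), f z)ᶜ) ⊔ (c ⊓ ⨆ z, ⨆ (_ : r z x), f z) := by
      calc c ⊓ f x = c ⊓ f x ⊓ ((⨆ z, ⨆ (_ : r z x), f z)ᶜ ⊔ (⨆ z, ⨆ (_ : r z x), f z)) := by
            rw [compl_sup_eq_top, inf_top_eq]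
        _ = (c ⊓ f x ⊓ (⨆ z, ⨆ (_ : r z x), f z)ᶜ) ⊔ (c ⊓ f x ⊓ ⨆ z, ⨆ (_ : r z x), f z) :=
            inf_sup_left _ _ _
        _ ≤ _ := sup_le_sup le_rfl (inf_le_inf_right _ inf_le_left)
    refine h1.trans (sup_le (le_iSup (fun y => c ⊓ f y ⊓ (⨆ z, ⨆ (_ : r z y), f z)ᶜ) x) ?_)
    rw [inf_iSup_eq]
    refine iSup_le fun z => ?_
    rw [inf_iSup_eq]
    exact iSup_le fun hz => ih z hz

theorem UnbV_disj {A : Type v} {r : A → A → Prop} (f : A → B) (c : B) {x y : A} (h : r x y) :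
    (c ⊓ f x ⊓ (⨆ z, ⨆ (_ : r z x), f z)ᶜ) ⊓ (c ⊓ f y ⊓ (⨆ z, ⨆ (_ : r z y), f z)ᶜ) = ⊥ := by
  rw [← le_bot_iff]
  have h1 : f x ≤ ⨆ z, ⨆ (_ : r z y), f z := le_iSup₂ (f := fun z (_ : r z y) => f z) x h
  refine le_trans (inf_le_inf (inf_le_left.trans inf_le_right) inf_le_right) ?_
  refine (inf_le_inf_right _ h1).trans ?_
  rw [inf_compl_self]

theorem unb_split
    (hreg : ∀ g : ℕ → W → B, (∀ n x y, x ≠ y → g n x ⊓ g n y = ⊥) → ∀ c : B, c ≠ ⊥ →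
      ∃ (b : B) (z : W), b ≠ ⊥ ∧ b ≤ c ∧ ∀ n x, z ≤ x → b ⊓ g n x = ⊥)
    {ι : Type v} [Countable ι] {b : B} (hb : b ≠ ⊥) {C : W → B} (h : Unb b C) (C' : ι → W → B)
    (hC : ∀ x, b ⊓ C x ≤ ⨆ i, C' i x) : ∃ b' ≤ b, b' ≠ ⊥ ∧ ∃ i, Unb b' (C' i) := by
  by_contra hcon
  have hcon' : ∀ b' ≤ b, b' ≠ ⊥ → ∀ i, ∃ b'' ≤ b', b'' ≠ ⊥ ∧ ∃ z, ∀ x, z ≤ x → b'' ⊓ C' i x = ⊥ := by
    intro b' h1 h2 i
    by_contra h3
    refine hcon ⟨b', h1, h2, i, fun b'' h4 h5 z => ?_⟩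
    by_contra h6
    exact h3 ⟨b'', h4, h5, z, fun x hx => by
      by_contra h7
      exact h6 ⟨x, hx, h7⟩⟩
  obtain ⟨H, hH⟩ : ∃ H : ι → W → B, ∀ i β, H i β = ⨅ x, ⨅ (_ : β ≤ x), (C' i x)ᶜ :=
    ⟨_, fun _ _ => rfl⟩
  have hHle : ∀ i β x, β ≤ x → H i β ≤ (C' i x)ᶜ := by
    intro i β x hx
    rw [hH]
    exact iInf₂_le x hx
  have hmono : ∀ i β β', β ≤ β' → H i β ≤ H i β' := by
    intro i β β' hβ
    rw [hH i β']
    exact le_iInf₂ fun x hx => hHle i β x (hβ.trans hx)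
  have hA : ∀ i, b ≤ ⨆ β, H i β := by
    intro i
    by_contra h1
    have h2 : b ⊓ (⨆ β, H i β)ᶜ ≠ ⊥ := by
      intro h3
      apply h1
      rw [← disjoint_compl_right_iff, disjoint_iff]
      exact h3
    obtain ⟨b'', h3, h4, z, h5⟩ := hcon' _ inf_le_left h2 i
    apply h4
    rw [← le_bot_iff]
    have h6 : b'' ≤ H i z := by
      rw [hH]
      refine le_iInf₂ fun x hx => ?_
      rw [le_compl_iff_disjoint_right, disjoint_iff]
      exact h5 x hx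
    calc b'' ≤ (⨆ β, H i β) ⊓ (⨆ β, H i β)ᶜ :=
          le_inf (h6.trans (le_iSup (fun β => H i β) z)) (h3.trans inf_le_right)
      _ = ⊥ := inf_compl_self _
  have key : ∀ (b' : B) (z : W), b' ≠ ⊥ → b' ≤ b → (∀ i, b' ≤ H i z) → False := by
    intro b' z h1 h2 h3
    obtain ⟨x, hx, h4⟩ := h b' h2 h1 z
    apply h4
    rw [← le_bot_iff]
    have h5 : b' ⊓ C x ≤ b' ⊓ ⨆ i, C' i x :=
      le_inf inf_le_left ((inf_le_inf_right _ h2).trans (hC x))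
    refine h5.trans ?_
    rw [inf_iSup_eq]
    refine iSup_le fun i => ?_
    refine (inf_le_inf_right _ ((h3 i).trans (hHle i z x hx))).trans ?_
    rw [compl_inf_self]
  rcases isEmpty_or_nonempty ι with hι | hι
  · obtain ⟨b', z, h1, h2, -⟩ := hreg (fun _ _ => ⊥) (fun _ _ _ _ => bot_inf_eq _) b hb
    exact key b' z h1 h2 fun i => hι.elim i
  · obtain ⟨e, he⟩ := exists_surjective_nat ι
    obtain ⟨b', z, h1, h2, h3⟩ := hreg
      (fun n β => ⊤ ⊓ H (e n) β ⊓ (⨆ β', ⨆ (_ : β' < β), H (e n) β')ᶜ) (fun n x y hxy => by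
        rcases lt_or_gt_of_ne hxy with h1 | h1
        · exact UnbV_disj (r := fun x y : W => x < y) (H (e n)) ⊤ h1
        · rw [inf_comm]
          exact UnbV_disj (r := fun x y : W => x < y) (H (e n)) ⊤ h1) b hb
    refine key b' z h1 h2 fun i => ?_
    obtain ⟨n, rfl⟩ := he i
    have h4 : b' ≤ b' ⊓ ⨆ β, H (e n) β := le_inf le_rfl (h2.trans (hA (e n)))
    refine h4.trans ?_
    rw [inf_iSup_eq]
    refine iSup_le fun β => ?_
    have h5 := UnbV_wf (r := fun x y : W => x < y) wellFounded_lt (H (e n)) (⊤ : B) β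
    rw [top_inf_eq] at h5
    refine (inf_le_inf_left _ h5).trans ?_
    rw [inf_iSup_eq]
    refine iSup_le fun β' => ?_
    rcases le_or_gt z β' with h6 | h6
    · have h7 := h3 n β' h6
      refine le_trans (le_of_eq h7) bot_le
    · exact inf_le_right.trans (inf_le_left.trans (inf_le_right.trans (hmono _ _ _ h6.le)))

theorem full_real {φ : (ℕ → B) → B} (hφ : ∀ x y, φ x ⊓ eqV x y ≤ φ y) {b0 : B}
    (h : b0 ≤ ⨆ x, φ x) : ∃ x, b0 ≤ φ x := by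
  obtain ⟨r, hr⟩ : ∃ r : (ℕ → B) → (ℕ → B) → Prop, IsWellOrder (ℕ → B) r :=
    ⟨WellOrderingRel, WellOrderingRel.isWellOrder⟩
  obtain ⟨a, ha⟩ : ∃ a : (ℕ → B) → B, ∀ x, a x = b0 ⊓ φ x ⊓ (⨆ z, ⨆ (_ : r z x), φ z)ᶜ :=
    ⟨_, fun _ => rfl⟩
  have hdis : ∀ x y, x ≠ y → a x ⊓ a y = ⊥ := by
    intro x y hxy
    rw [ha, ha]
    rcases trichotomous_of r x y with h1 | h1 | h1
    · exact UnbV_disj φ b0 h1
    · exact absurd h1 hxy
    · rw [inf_comm]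
      exact UnbV_disj φ b0 h1
  have hsup : b0 ≤ ⨆ x, a x := by
    have h1 : b0 ≤ b0 ⊓ ⨆ x, φ x := le_inf le_rfl h
    refine h1.trans ?_
    rw [inf_iSup_eq]
    refine iSup_le fun x => ?_
    refine (UnbV_wf hr.wf φ b0 x).trans (le_of_eq ?_)
    exact iSup_congr fun y => (ha y).symm
  refine ⟨fun n => ⨆ x, a x ⊓ x n, hsup.trans (iSup_le fun x => ?_)⟩
  refine le_trans (le_inf ?_ ?_) (hφ x (fun n => ⨆ x, a x ⊓ x n))
  · rw [ha]
    exact inf_le_left.trans inf_le_right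
  · unfold eqV
    refine le_iInf fun n => le_inf ?_ ?_
    · refine le_compl_sup_of ?_
      exact le_iSup (fun x => a x ⊓ x n) x
    · refine le_compl_sup_of ?_
      change a x ⊓ (⨆ y, a y ⊓ y n) ≤ x n
      rw [inf_iSup_eq]
      refine iSup_le fun y => ?_
      by_cases hxy : x = y
      · subst hxy
        exact inf_le_right.trans inf_le_right
      · rw [← inf_assoc, hdis x y hxy, bot_inf_eq]
        exact bot_le

end MOF
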