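import Pool.Agent.W_3b51b4_h32.StrV
import Pool.Agent.W_3b51b4_h32.UnbV

set_option autoImplicit false
set_option linter.unusedSectionVars false

/-!
# MP_3b51b4_gt : closures of sets of finite sequences of reals

`F : List (List Bool) → B` is the name of a set of tuples of finite sequences.  `clV F pre ys` is the value of: for all `k` there is a tuple `u ∈ F` whose
first entries extend the entries of `pre` and whose other entries extend the initial segments of length `k` of the reals `ys`.

* `cl_step`: for the index `k` of the right side use the index `max k σ.length` on the left side: `vs = v :: vs'` with `v.length = max k σ.length`,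
  `inV vs (y :: ys) = iniV v y ⊓ inV vs' ys`; if `iniV σ y ⊓ iniV v y ≠ ⊥` then `σ <+: v` (`ini_comp`), and replace the elements of `vs'` by their
  initial segments of length `k`.
* `cl_congr`: clear from the definition (`b ⊓ F u = b ⊓ F' u`).
-/

universe u v

open Set

namespace MOF

open MAO

variable {W B : Type u} [LinearOrder W] [WellFoundedLT W] [CompleteBooleanAlgebra B]

/-- the closure -/
def clV (F : List (List Bool) → B) (pre : List (List Bool)) (ys : List (ℕ → B)) : B :=
  ⨅ k : ℕ, ⨆ (vs : List (List Bool)) (u : List (List Bool)) (_ : ∀ v ∈ vs, v.length = k)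
    (_ : List.Forall₂ (fun v w => v <+: w) (pre ++ vs) u), inV vs ys ⊓ F u

/-- the tree of the sequences `m` such that `(pre, m, ys)` and `(pre', m, ys)` are in the closure of `F` -/
def trV (F : List (List Bool) → B) (pre pre' : List (List Bool)) (ys : List (ℕ → B))
    (m : List Bool) : B := clV F (pre ++ [m]) ys ⊓ clV F (pre' ++ [m]) ys

/-- the tree `T` is not free -/
def nfV (U : List Bool → List Bool → B) (T : List Bool → B) : B := ⨆ (s : List Bool) (t : List Bool),
  T s ⊓ T t ⊓ U s t

theorem ClV_take (k : ℕ) : ∀ vs : List (List Bool),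
    List.Forall₂ (fun v w => v <+: w) (vs.map (List.take k)) vs
  | [] => List.Forall₂.nil
  | v :: vs => List.Forall₂.cons (List.take_prefix k v) (ClV_take k vs)

theorem ClV_refl : ∀ vs : List (List Bool), List.Forall₂ (fun v w => v <+: w) vs vs
  | [] => List.Forall₂.nil
  | _ :: vs => List.Forall₂.cons (List.prefix_refl _) (ClV_refl vs)

theorem ClV_trans {a b c : List (List Bool)} (h1 : List.Forall₂ (fun v w => v <+: w) a b)
    (h2 : List.Forall₂ (fun v w => v <+: w) b c) : List.Forall₂ (fun v w => v <+: w) a c := by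
  induction h1 generalizing c with
  | nil => exact h2
  | cons h _ ih =>
    cases h2 with
    | cons h' h2' => exact List.Forall₂.cons (h.trans h') (ih h2')

theorem ClV_le {F : List (List Bool) → B} {vs u pre : List (List Bool)} {ys : List (ℕ → B)} {k : ℕ}
    (h1 : ∀ v ∈ vs, v.length = k) (h2 : List.Forall₂ (fun v w => v <+: w) (pre ++ vs) u) :
    inV vs ys ⊓ F u ≤ ⨆ (vs : List (List Bool)) (u : List (List Bool)) (_ : ∀ v ∈ vs, v.length = k)
      (_ : List.Forall₂ (fun v w => v <+: w) (pre ++ vs) u), inV vs ys ⊓ F u :=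
  le_iSup_of_le vs (le_iSup_of_le u (le_iSup_of_le h1 (le_iSup_of_le h2 le_rfl)))

theorem cl_step (F : List (List Bool) → B) (pre : List (List Bool)) (y : ℕ → B)
    (ys : List (ℕ → B)) (σ : List Bool) :
    clV F pre (y :: ys) ⊓ iniV σ y ≤ clV F (pre ++ [σ]) ys := by
  unfold clV
  refine le_iInf fun k => ?_
  refine (inf_le_inf_right _ (iInf_le _ (max k σ.length))).trans ?_
  simp only [iSup_inf_eq]
  refine iSup_le fun vs => iSup_le fun u => iSup_le fun h1 => iSup_le fun h2 => ?_
  cases vs with
  | nil =>
    rw [inV, bot_inf_eq, bot_inf_eq]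
    · exact bot_le
    · intro _ h
      exact absurd h (by simp)
    · intro _ _ _ _ h
      exact absurd h (by simp)
  | cons v vs =>
    rw [inV]
    by_cases h0 : iniV σ y ⊓ iniV v y = ⊥
    · refine le_trans ?_ bot_le
      rw [← h0]
      exact le_inf inf_le_right ((inf_le_left.trans inf_le_left).trans inf_le_left)
    · have hv : v.length = max k σ.length := h1 v (by simp)
      have hp : σ <+: v := ini_comp h0 (by rw [hv]; exact le_max_right _ _)
      have h3 : List.Forall₂ (fun v w => v <+: w) (pre ++ [σ] ++ vs.map (List.take k))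
          (pre ++ v :: vs) := by
        rw [List.append_assoc]
        exact List.rel_append (ClV_refl pre) (List.Forall₂.cons hp (ClV_take k vs))
      refine le_trans ?_ (ClV_le (vs := vs.map (List.take k)) ?_ (ClV_trans h3 h2))
      · refine inf_le_left.trans (inf_le_inf_right _ (inf_le_right.trans ?_))
        exact in_mono (ClV_take k vs) ys
      · intro w hw
        obtain ⟨w', hw', rfl⟩ := List.mem_map.1 hw
        rw [List.length_take, h1 w' (by simp [hw'])]
        exact min_eq_left (le_max_left _ _)

theorem ClV_congr {F F' : List (List Bool) → B} {b : B} (h : ∀ u, b ⊓ F u = b ⊓ F' u)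
    (pre : List (List Bool)) (ys : List (ℕ → B)) : b ⊓ clV F pre ys ≤ b ⊓ clV F' pre ys := by
  refine le_inf inf_le_left ?_
  unfold clV
  refine le_iInf fun k => ?_
  refine (inf_le_inf_left _ (iInf_le _ k)).trans ?_
  simp only [inf_iSup_eq]
  refine iSup_le fun vs => iSup_le fun u => iSup_le fun h1 => iSup_le fun h2 => ?_
  refine le_trans ?_ (ClV_le h1 h2)
  refine le_inf (inf_le_right.trans inf_le_left) ?_
  have h3 : b ⊓ (inV vs ys ⊓ F u) ≤ b ⊓ F u := inf_le_inf_left _ inf_le_right
  rw [h u] at h3
  exact h3.trans inf_le_right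

theorem cl_congr {F F' : List (List Bool) → B} {b : B} (h : ∀ u, b ⊓ F u = b ⊓ F' u)
    (pre : List (List Bool)) (ys : List (ℕ → B)) : b ⊓ clV F pre ys = b ⊓ clV F' pre ys :=
  le_antisymm (ClV_congr h pre ys) (ClV_congr (fun u => (h u).symm) pre ys)

/-- `F` contains all tuples of initial segments of `ys` -/
theorem cl_of {F : List (List Bool) → B} {ys : List (ℕ → B)} {b : B}
    (h : ∀ vs, vs.length = ys.length → b ⊓ inV vs ys ≤ F vs) : b ≤ clV F [] ys := by
  unfold clV
  refine le_iInf fun k => ?_
  by_contra hcon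
  set S := ⨆ (vs : List (List Bool)) (u : List (List Bool)) (_ : ∀ v ∈ vs, v.length = k)
    (_ : List.Forall₂ (fun v w => v <+: w) ([] ++ vs) u), inV vs ys ⊓ F u with hS
  have hb : b ⊓ Sᶜ ≠ ⊥ := fun h0 => hcon (by
    rw [← compl_compl S]
    exact le_compl_iff_disjoint_right.2 (disjoint_iff.2 h0))
  obtain ⟨b', hb', hne, vs, h1, h2, h3⟩ := in_decide hb ys k
  refine hne (le_bot_iff.1 ?_)
  have h4 : b' ≤ S := by
    refine le_trans (le_inf h3 ?_) (ClV_le (pre := []) h2 (ClV_refl vs))
    exact le_trans (le_inf (hb'.trans inf_le_left) h3) (h vs h1)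
  have h5 : b' ≤ Sᶜ := hb'.trans inf_le_right
  rw [← inf_compl_self S]
  exact le_inf h4 h5

end MOF
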