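import Pool.Agent.W_3b51b4_h32.ClV

set_option autoImplicit false
set_option linter.unusedSectionVars false

/-!
# MP_3b51b4_gt : the sequence of reals

* `exists_y`: recursion on `ξ`: let `y ζ` (`ζ < ξ`) be given (a function `f : W → ℕ → B`, arbitrary for the other arguments).  The index set
  `{(η, ζs, pre, pre') | η < ξ, all ζ ∈ ζs are < ξ}` is countable (`segW`); let `T : ℕ → List Bool → B` be a sequence in which all
  `trV (e η) pre pre' (ζs.map f)` occur.  By `hNS` `b0 ≤ ⨆ x, X x ⊓ ⨅ n, (brV (T n) x)ᶜ ⊔ nfV U (T n)`, and by `full_real` (`brV_ext`, `hX`) there is `x` with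
  `b0 ≤ X x ⊓ ⨅ n, ..`.  Let `y ξ = x`.
-/

universe u v

open Set

namespace MOF

open MAO

variable {W B : Type u} [LinearOrder W] [WellFoundedLT W] [CompleteBooleanAlgebra B]

theorem ClY_step (segW : ∀ x : W, (Iio x).Countable) (e : W → List (List Bool) → B)
    {X : (ℕ → B) → B} (hX : ∀ x y, X x ⊓ eqV x y ≤ X y) (U : List Bool → List Bool → B) {b0 : B}
    (hNS : ∀ T : ℕ → List Bool → B, b0 ≤ ⨆ x : ℕ → B, X x ⊓ ⨅ n, (brV (T n) x)ᶜ ⊔ nfV U (T n))
    (ξ : W) (f : W → ℕ → B) :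
    ∃ x : ℕ → B, b0 ≤ X x ∧ ∀ (η : W) (ζs : List W) (pre pre' : List (List Bool)),
      η < ξ → (∀ ζ ∈ ζs, ζ < ξ) →
        b0 ⊓ brV (trV (e η) pre pre' (ζs.map f)) x ≤ nfV U (trV (e η) pre pre' (ζs.map f)) := by
  classical
  haveI : Countable (Iio ξ) := (segW ξ).to_subtype
  let I := Iio ξ × List (Iio ξ) × List (List Bool) × List (List Bool)
  let S : Option I → List Bool → B := fun o => match o with
    | none => fun _ => ⊥
    | some p => trV (e p.1.1) p.2.2.1 p.2.2.2 ((p.2.1.map Subtype.val).map f)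
  obtain ⟨g, hg⟩ := exists_surjective_nat (Option I)
  have h := hNS fun n => S (g n)
  obtain ⟨x, hx⟩ := full_real (φ := fun x => X x ⊓ ⨅ n, (brV (S (g n)) x)ᶜ ⊔ nfV U (S (g n)))
    (by
      intro x y
      refine le_inf ?_ (le_iInf fun n => ?_)
      · exact (inf_le_inf_right _ inf_le_left).trans (hX x y)
      · refine (inf_le_inf_right _ (inf_le_right.trans (iInf_le _ n))).trans ?_
        rw [inf_sup_right]
        refine sup_le (le_trans ?_ le_sup_left) (inf_le_left.trans le_sup_right)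
        rw [le_compl_iff_disjoint_right, disjoint_iff_inf_le]
        have h1 : brV (S (g n)) y ⊓ eqV x y ≤ brV (S (g n)) x := by
          rw [eqV_comm]
          exact brV_ext _ _ _
        calc (brV (S (g n)) x)ᶜ ⊓ eqV x y ⊓ brV (S (g n)) y
            ≤ (brV (S (g n)) x)ᶜ ⊓ brV (S (g n)) x :=
              le_inf (inf_le_left.trans inf_le_left)
                ((le_inf inf_le_right (inf_le_left.trans inf_le_right)).trans h1)
          _ ≤ ⊥ := by rw [compl_inf_self]) h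
  refine ⟨x, hx.trans inf_le_left, ?_⟩
  intro η ζs pre pre' hη hζs
  obtain ⟨ζs', rfl⟩ : ∃ l : List (Iio ξ), l.map Subtype.val = ζs :=
    ⟨ζs.attach.map fun z => ⟨z.1, hζs z.1 z.2⟩, by
      rw [List.map_map]
      exact List.attach_map_subtype_val ζs⟩
  obtain ⟨n, hn⟩ := hg (some (⟨η, hη⟩, ζs', pre, pre'))
  have h2 : b0 ≤ (brV (S (g n)) x)ᶜ ⊔ nfV U (S (g n)) := hx.trans (inf_le_right.trans (iInf_le _ n))
  rw [hn] at h2
  change b0 ≤ (brV (trV (e η) pre pre' ((ζs'.map Subtype.val).map f)) x)ᶜ ⊔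
    nfV U (trV (e η) pre pre' ((ζs'.map Subtype.val).map f)) at h2
  refine (inf_le_inf_right _ h2).trans ?_
  rw [inf_sup_right, compl_inf_self, bot_sup_eq]
  exact inf_le_left

theorem exists_y (segW : ∀ x : W, (Iio x).Countable) (e : W → List (List Bool) → B)
    {X : (ℕ → B) → B} (hX : ∀ x y, X x ⊓ eqV x y ≤ X y) (U : List Bool → List Bool → B) {b0 : B}
    (hNS : ∀ T : ℕ → List Bool → B, b0 ≤ ⨆ x : ℕ → B, X x ⊓ ⨅ n, (brV (T n) x)ᶜ ⊔ nfV U (T n)) :
    ∃ y : W → ℕ → B, (∀ ξ, b0 ≤ X (y ξ)) ∧ ∀ (ξ η : W) (ζs : List W) (pre pre' : List (List Bool)),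
      η < ξ → (∀ ζ ∈ ζs, ζ < ξ) →
        b0 ⊓ brV (trV (e η) pre pre' (ζs.map y)) (y ξ) ≤ nfV U (trV (e η) pre pre' (ζs.map y)) := by
  classical
  choose F hF hF' using ClY_step segW e hX U hNS
  let G : (ξ : W) → ((ζ : W) → ζ < ξ → ℕ → B) → ℕ → B := fun ξ r =>
    F ξ fun ζ => if h : ζ < ξ then r ζ h else fun _ => ⊥
  let y : W → ℕ → B := (wellFounded_lt (α := W)).fix G
  have hy : ∀ ξ, y ξ = F ξ fun ζ => if ζ < ξ then y ζ else fun _ => ⊥ := by
    intro ξ
    have h := (wellFounded_lt (α := W)).fix_eq G ξ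
    refine h.trans ?_
    show F ξ _ = F ξ _
    congr 1
  refine ⟨y, fun ξ => ?_, ?_⟩
  · rw [hy]
    exact hF _ _
  · intro ξ η ζs pre pre' hη hζs
    have h := hF' ξ (fun ζ => if ζ < ξ then y ζ else fun _ => ⊥) η ζs pre pre' hη hζs
    rw [← hy ξ] at h
    have hm : ζs.map (fun ζ => if ζ < ξ then y ζ else fun _ => ⊥) = ζs.map y :=
      List.map_congr_left fun ζ hζ => if_pos (hζs ζ hζ)
    rw [hm] at h
    exact h

end MOF
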