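import Pool.Agent.W_3b51b4_h32.ClV

set_option autoImplicit false
set_option linter.unusedSectionVars false

/-!
# MP_3b51b4_gt : the preorder of the finite cliques
-/

universe u v

open Set

namespace MOF

open MAO

variable {W B : Type u} [LinearOrder W] [CompleteBooleanAlgebra B]

/-- the elements `y ξ`, `ξ ∈ s`, are pairwise connected -/
def clq (U : List Bool → List Bool → B) (y : W → ℕ → B) (s : Finset W) : B :=
  ⨅ (ξ : W) (η : W) (_ : ξ ∈ s) (_ : η ∈ s) (_ : ξ ≠ η), opV U (y ξ) (y η)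

/-- the preorder of the finite cliques: the elements of `W` code finite sets by `fin`; codes of sets which are not cliques
are equivalent to the code of the empty set; trivial outside `b0` -/
def QV (U : List Bool → List Bool → B) (y : W → ℕ → B) (fin : W → Finset W) (b0 : B) (x z : W) : B :=
  b0ᶜ ⊔ (clq U y (fin z))ᶜ ⊔ (⨆ _ : fin z ⊆ fin x, clq U y (fin x)) ⊔ ⨆ _ : fin z = ∅, ⊤

/-- the elements of `fin x` outside `r`, in decreasing order -/
def ql (fin : W → Finset W) (r : Finset W) (x : W) : List W := (fin x \ r).sort (· ≥ ·)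

theorem clq_mono {U : List Bool → List Bool → B} {y : W → ℕ → B} {s t : Finset W} (h : s ⊆ t) :
    clq U y t ≤ clq U y s := by
  unfold clq
  refine le_iInf fun ξ => le_iInf fun η => le_iInf fun h1 => le_iInf fun h2 => le_iInf fun h3 => ?_
  exact iInf_le_of_le ξ (iInf_le_of_le η (iInf_le_of_le (h h1) (iInf_le_of_le (h h2)
    (iInf_le_of_le h3 le_rfl))))

theorem clq_le {U : List Bool → List Bool → B} {y : W → ℕ → B} {s : Finset W} {ξ η : W}
    (h1 : ξ ∈ s) (h2 : η ∈ s) (h3 : ξ ≠ η) : clq U y s ≤ opV U (y ξ) (y η) :=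
  iInf_le_of_le ξ (iInf_le_of_le η (iInf_le_of_le h1 (iInf_le_of_le h2 (iInf_le_of_le h3 le_rfl))))

theorem Cliq_bool (p a b c : B) : (p ⊔ bᶜ ⊔ a) ⊓ (p ⊔ c ⊔ b) ≤ p ⊔ c ⊔ a := by
  rw [inf_sup_left]
  refine sup_le (inf_le_right.trans le_sup_left) ?_
  rw [inf_sup_right, inf_sup_right]
  refine sup_le (sup_le ?_ ?_) ?_
  · exact inf_le_left.trans (le_sup_left.trans le_sup_left)
  · rw [compl_inf_eq_bot]
    exact bot_le
  · exact inf_le_left.trans le_sup_right

theorem Cliq_top {U : List Bool → List Bool → B} {y : W → ℕ → B} {fin : W → Finset W} {b0 : B}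
    {x z : W} (h : fin z = ∅) : QV U y fin b0 x z = ⊤ := by
  unfold QV
  rw [iSup_pos h, sup_top_eq]

theorem Cliq_eq {U : List Bool → List Bool → B} {y : W → ℕ → B} {fin : W → Finset W} {b0 : B}
    {x z : W} (h : fin z ≠ ∅) :
    QV U y fin b0 x z = b0ᶜ ⊔ (clq U y (fin z))ᶜ ⊔ (⨆ _ : fin z ⊆ fin x, clq U y (fin x)) := by
  unfold QV
  rw [iSup_neg h, sup_bot_eq]

theorem QV_pre (U : List Bool → List Bool → B) (y : W → ℕ → B) (fin : W → Finset W) (b0 : B) :
    PreV (QV U y fin b0) := by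
  constructor
  · intro x
    rw [eq_top_iff]
    unfold QV
    rw [iSup_pos (Finset.Subset.refl (fin x))]
    refine le_trans ?_ le_sup_left
    rw [sup_assoc, compl_sup_eq_top, sup_top_eq]
  · intro x z w
    by_cases hw : fin w = ∅
    · rw [Cliq_top (x := x) hw]
      exact le_top
    rw [Cliq_eq (x := z) hw, Cliq_eq (x := x) hw]
    by_cases hwz : fin w ⊆ fin z
    · have hz : fin z ≠ ∅ := by
        intro h0
        rw [h0, Finset.subset_empty] at hwz
        exact hw hwz
      rw [Cliq_eq (x := x) hz, iSup_pos hwz]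
      refine (Cliq_bool _ _ _ _).trans ?_
      refine sup_le le_sup_left ?_
      refine iSup_le fun hzx => ?_
      refine le_trans ?_ le_sup_right
      exact le_iSup_of_le (hwz.trans hzx) le_rfl
    · rw [iSup_neg hwz, sup_bot_eq]
      exact inf_le_right.trans le_sup_left

theorem QV_le {U : List Bool → List Bool → B} {y : W → ℕ → B} {fin : W → Finset W} {b0 : B}
    {x z : W} (h : fin z ≠ ∅) : b0 ⊓ clq U y (fin z) ⊓ QV U y fin b0 x z ≤ clq U y (fin x) := by
  rw [Cliq_eq h, inf_sup_left, inf_sup_left]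
  refine sup_le (sup_le ?_ ?_) ?_
  · refine le_trans (le_of_eq ?_) bot_le
    rw [inf_right_comm, inf_compl_eq_bot, bot_inf_eq]
  · refine le_trans (le_of_eq ?_) bot_le
    rw [inf_assoc, inf_compl_eq_bot, inf_bot_eq]
  · exact inf_le_right.trans (iSup_le fun _ => le_rfl)

theorem le_QV {U : List Bool → List Bool → B} {y : W → ℕ → B} {fin : W → Finset W} {b0 : B}
    {x z : W} (h : fin z ⊆ fin x) : clq U y (fin x) ≤ QV U y fin b0 x z := by
  unfold QV
  exact le_sup_of_le_left (le_sup_of_le_right (le_iSup_of_le h le_rfl))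

/-- The situation after the reduction. -/
structure Red (U : List Bool → List Bool → B) (y : W → ℕ → B) (fin : W → Finset W) (b : B)
    (A C : W → B) (r : Finset W) (ws : List (List Bool)) : Prop where
  ne : b ≠ ⊥
  le : ∀ x, C x ≤ A x
  sub : ∀ x, C x ≠ ⊥ → r ⊆ fin x
  clq : ∀ x, C x ≤ clq U y (fin x)
  sep : ∀ x, C x ≤ inV ws ((ql fin r x).map y)
  pw : ws.Pairwise fun s t => b ≤ U s t
  nn : ws ≠ []
  unb : ∀ η : W, ∀ b' ≤ b, b' ≠ ⊥ → ∃ x, b' ⊓ C x ≠ ⊥ ∧ ∀ ξ ∈ fin x, ξ ∉ r → η < ξ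

end MOF
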