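import Pool.Agent.W_3b51b4_h32.Cliq
import Pool.Agent.W_3b51b4_h32.ClDown

set_option autoImplicit false
set_option linter.unusedSectionVars false

/-!
# MP_3b51b4_gt : the chain condition of the finite cliques, main step

Let `F u = ⨆ x, C x ⊓ inV u ((ql fin r x).map y)`, the name of the set of the tuples of initial segments.  By `hch` there are `b1 ≤ b`, `b1 ≠ ⊥`, and `η` with
`b1 ⊓ F u = b1 ⊓ e η u` for all `u`.  By `Red.unb` there is `x` with `b1 ⊓ C x ≠ ⊥` and `η < ξ` for all `ξ ∈ fin x \ r`.  Let `b2 = b1 ⊓ C x` and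
`ys = (ql fin r x).map y`.
* `b2 ≤ clV F [] ys` by `cl_of` (`b2 ⊓ inV vs ys ≤ C x ⊓ inV vs ys ≤ F vs`).
* `down` (for `F`, `b2`, `ys`): if `y' :: ys'` is a suffix of `ys`, then `y' = y ξ`, `ys' = ζs.map y` where `ξ :: ζs` is a suffix of `ql fin r x`; all
  elements of `ζs` are `< ξ` (the list is strictly decreasing), and `η < ξ`; by `hAV` (with `b2 ≤ b0`)
  `b2 ⊓ brV (trV (e η) pre pre' ys') (y ξ) ≤ nfV U (trV (e η) pre pre' ys')`; replace `e η` by `F` (`cl_congr`; `trV`, `brV`, `nfV` of `F` and of `e η` have the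
  same intersection with `b2`).
* So there are `b3 ≤ b2`, `b3 ≠ ⊥`, `pre`, `pre'` of the length of `ys` with `b3 ≤ clV F pre []`, `b3 ≤ clV F pre' []`, and
  `Forall₂ (fun s t => b3 ≤ U s t) pre pre'`.
* `b3 ≤ clV F pre []` (at `k = 0`): there are `u` with `Forall₂ (<+:) pre u` (`vs` has the length of `[]`, so `vs = []`) and `b3 ⊓ F u ≠ ⊥`, so
  there is `x1` with `b4 = b3 ⊓ C x1 ⊓ inV u ((ql fin r x1).map y) ≠ ⊥`.  By `in_mono` `b4 ≤ inV pre ((ql fin r x1).map y)`.  In the same way (with `b4` in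
  the place of `b3`) there is `x2` with `b5 = b4 ⊓ C x2 ⊓ inV u' (..) ≠ ⊥`, `b5 ≤ inV pre' ((ql fin r x2).map y)`.
* For the places `i` of the lists: `b5 ≤ opV U (y (a i)) (y (c i))` where `a = ql fin r x1`, `c = ql fin r x2` (`op_of`, `b5 ≤ U pre[i] pre'[i]`).
  For different places `i`, `j`: `b5 ≤ opV U (y (a i)) (y (c j))` because `b5 ≤ inV ws (a.map y)`, `inV ws (c.map y)` (`Red.sep`) and
  `b5 ≤ b ≤ U ws[i] ws[j]` (`Red.pw`, `CodeV.symm`).
* `x1 ≠ x2`: otherwise, at the first place (`ws ≠ []`), `b5 ≤ opV U (y (a 0)) (y (a 0)) = ⊥` (`op_irr`).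
* `b5 ≤ clq U y (fin x1 ∪ fin x2)`: for two different elements of the union which are both in `fin x1` or both in `fin x2` this is `Red.clq`
  (`r ⊆ fin x1 ∩ fin x2`, `Red.sub`); otherwise one is in `fin x1 \ r`, the other in `fin x2 \ r`: `a i`, `c j`.
-/

universe u v

open Set

namespace MOF

open MAO

variable {W B : Type u} [LinearOrder W] [WellFoundedLT W] [CompleteBooleanAlgebra B]

theorem CliqMain_inV_get {vs : List (List Bool)} {ys : List (ℕ → B)} (i : ℕ)
    (h1 : i < vs.length) (h2 : i < ys.length) : inV vs ys ≤ iniV vs[i] ys[i] := by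
  induction vs generalizing ys i with
  | nil => exact absurd h1 (by simp)
  | cons v vs ih =>
    cases ys with
    | nil => exact absurd h2 (by simp)
    | cons z ys =>
      cases i with
      | zero => exact inf_le_left
      | succ i =>
        refine inf_le_right.trans ?_
        exact ih i (by simpa using h1) (by simpa using h2)

theorem CliqMain_brV {T T' : List Bool → B} {b : B} (h : ∀ m, b ⊓ T m ≤ T' m) (x : ℕ → B) :
    b ⊓ brV T x ≤ brV T' x := by
  refine le_iInf fun s => ?_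
  refine (inf_le_inf_left _ (iInf_le _ s)).trans ?_
  rw [inf_sup_left]
  exact sup_le (inf_le_right.trans le_sup_left) ((h s).trans le_sup_right)

theorem CliqMain_nfV {U : List Bool → List Bool → B} {T T' : List Bool → B} {b : B}
    (h : ∀ m, b ⊓ T m ≤ T' m) : b ⊓ nfV U T ≤ nfV U T' := by
  unfold nfV
  rw [inf_iSup_eq]
  refine iSup_le fun s => ?_
  rw [inf_iSup_eq]
  refine iSup_le fun t => ?_
  refine le_trans ?_ (le_iSup_of_le s (le_iSup_of_le t le_rfl))
  refine le_inf (le_inf ?_ ?_) (inf_le_right.trans inf_le_right)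
  · exact (le_inf inf_le_left (inf_le_right.trans (inf_le_left.trans inf_le_left))).trans (h s)
  · exact (le_inf inf_le_left (inf_le_right.trans (inf_le_left.trans inf_le_right))).trans (h t)

theorem CliqMain_pick {b : B} (hb : b ≠ ⊥) (C : W → B) (Y : W → List (ℕ → B))
    {pre : List (List Bool)} (h : b ≤ clV (fun u => ⨆ x, C x ⊓ inV u (Y x)) pre []) :
    ∃ x, b ⊓ (C x ⊓ inV pre (Y x)) ≠ ⊥ := by
  by_contra hcon
  push Not at hcon
  apply hb
  rw [← le_bot_iff]
  refine (le_inf le_rfl (h.trans (iInf_le _ 0))).trans ?_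
  rw [inf_iSup_eq]
  refine iSup_le fun vs => ?_
  rw [inf_iSup_eq]
  refine iSup_le fun u => ?_
  rw [inf_iSup_eq]
  refine iSup_le fun _ => ?_
  rw [inf_iSup_eq]
  refine iSup_le fun hu => ?_
  cases vs with
  | cons v vs =>
    exact inf_le_right.trans inf_le_left
  | nil =>
    rw [List.append_nil] at hu
    refine (inf_le_inf_left _ inf_le_right).trans ?_
    rw [inf_iSup_eq]
    refine iSup_le fun x => ?_
    rw [← hcon x]
    exact inf_le_inf_left _ (inf_le_inf_left _ (in_mono hu _))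

theorem CliqMain_ql {fin : W → Finset W} {r : Finset W} {x : W} {l1 ζs : List W} {ξ : W}
    (h : ql fin r x = l1 ++ ξ :: ζs) : (ξ ∈ fin x ∧ ξ ∉ r) ∧ ∀ ζ ∈ ζs, ζ < ξ := by
  have hmem : ξ ∈ ql fin r x := by rw [h]; simp
  have hnd : (ql fin r x).Nodup := Finset.sort_nodup _ _
  have hpw : (ql fin r x).Pairwise (· ≥ ·) := Finset.pairwise_sort _ _
  rw [h] at hnd hpw
  have hnd' := List.nodup_cons.1 (List.nodup_append.1 hnd).2.1
  have hpw' := List.pairwise_cons.1 (List.pairwise_append.1 hpw).2.1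
  refine ⟨?_, fun ζ hζ => ?_⟩
  · have := (Finset.mem_sort _).1 hmem
    exact Finset.mem_sdiff.1 this
  · exact lt_of_le_of_ne (hpw'.1 ζ hζ) fun e => hnd'.1 (e ▸ hζ)

theorem cliq_main {U : List Bool → List Bool → B} (hU : CodeV U) (y : W → ℕ → B)
    (fin : W → Finset W) (e : W → List (List Bool) → B)
    (hch : ∀ F : List (List Bool) → B, ∀ c : B, c ≠ ⊥ →
      ∃ b ≤ c, b ≠ ⊥ ∧ ∃ η, ∀ u, b ⊓ F u = b ⊓ e η u) (b0 : B)
    (hAV : ∀ (ξ η : W) (ζs : List W) (pre pre' : List (List Bool)), η < ξ → (∀ ζ ∈ ζs, ζ < ξ) →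
      b0 ⊓ brV (trV (e η) pre pre' (ζs.map y)) (y ξ) ≤ nfV U (trV (e η) pre pre' (ζs.map y)))
    {b : B} (hb : b ≤ b0) {A C : W → B} {r : Finset W} {ws : List (List Bool)}
    (hR : Red U y fin b A C r ws) :
    ∃ x1 x2, x1 ≠ x2 ∧ b ⊓ (C x1 ⊓ C x2 ⊓ clq U y (fin x1 ∪ fin x2)) ≠ ⊥ := by
  obtain ⟨b1, hb1, hb1n, η, hη⟩ := hch
    (fun u => ⨆ x, C x ⊓ inV u ((ql fin r x).map y)) b hR.ne
  obtain ⟨x, hx, hxη⟩ := hR.unb η b1 hb1 hb1n
  have h0 : b1 ⊓ C x ≤ clV (fun u => ⨆ x, C x ⊓ inV u ((ql fin r x).map y)) []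
      ((ql fin r x).map y) := by
    refine cl_of fun vs _ => ?_
    exact le_iSup_of_le x (inf_le_inf_right _ inf_le_right)
  have hcl : ∀ pre ys, (b1 ⊓ C x) ⊓ clV (fun u => ⨆ x, C x ⊓ inV u ((ql fin r x).map y)) pre ys
      = (b1 ⊓ C x) ⊓ clV (e η) pre ys := fun pre ys => by
    refine cl_congr (fun u => ?_) pre ys
    have h1 : b1 ⊓ C x = C x ⊓ b1 := inf_comm _ _
    rw [h1, inf_assoc, inf_assoc, hη u]
  have htr1 : ∀ pre pre' ys m, (b1 ⊓ C x) ⊓
      trV (fun u => ⨆ x, C x ⊓ inV u ((ql fin r x).map y)) pre pre' ys m ≤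
      trV (e η) pre pre' ys m := by
    intro pre pre' ys m
    unfold trV
    refine le_inf ?_ ?_
    · refine (inf_le_inf_left _ inf_le_left).trans ?_
      rw [hcl]
      exact inf_le_right
    · refine (inf_le_inf_left _ inf_le_right).trans ?_
      rw [hcl]
      exact inf_le_right
  have htr2 : ∀ pre pre' ys m, (b1 ⊓ C x) ⊓ trV (e η) pre pre' ys m ≤
      trV (fun u => ⨆ x, C x ⊓ inV u ((ql fin r x).map y)) pre pre' ys m := by
    intro pre pre' ys m
    unfold trV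
    refine le_inf ?_ ?_
    · refine (inf_le_inf_left _ inf_le_left).trans ?_
      rw [← hcl]
      exact inf_le_right
    · refine (inf_le_inf_left _ inf_le_right).trans ?_
      rw [← hcl]
      exact inf_le_right
  have hb20 : b1 ⊓ C x ≤ b0 := inf_le_left.trans (hb1.trans hb)
  obtain ⟨b3, hb3, hb3n, pre, pre', hlen, hc1, hc2, hf⟩ := down
    (U := U) (fun u => ⨆ x, C x ⊓ inV u ((ql fin r x).map y)) hx ((ql fin r x).map y) h0 (by
      rintro z zs ⟨l0, hl0⟩ p p'
      obtain ⟨l1, l2, hl, hl1, hl2⟩ := List.map_eq_append_iff.1 hl0.symm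
      obtain ⟨ξ, ζs, rfl, rfl, rfl⟩ := List.map_eq_cons_iff.1 hl2
      obtain ⟨hξ, hζ⟩ := CliqMain_ql hl
      have h1 := hAV ξ η ζs p p' (hxη ξ hξ.1 hξ.2) hζ
      have h2 := CliqMain_brV (b := b1 ⊓ C x) (htr1 p p' (ζs.map y)) (y ξ)
      have h3 := CliqMain_nfV (U := U) (b := b1 ⊓ C x) (htr2 p p' (ζs.map y))
      refine (le_inf inf_le_left ?_).trans h3
      exact (le_inf (inf_le_left.trans hb20) h2).trans h1)
  obtain ⟨x1, hx1⟩ := CliqMain_pick hb3n C (fun x => (ql fin r x).map y) hc1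
  obtain ⟨x2, hx2⟩ := CliqMain_pick hx1 C (fun x => (ql fin r x).map y)
    (inf_le_left.trans hc2)
  set b5 := b3 ⊓ (C x1 ⊓ inV pre ((ql fin r x1).map y)) ⊓
    (C x2 ⊓ inV pre' ((ql fin r x2).map y)) with hb5
  have e1 : b5 ≤ C x1 := inf_le_left.trans (inf_le_right.trans inf_le_left)
  have e2 : b5 ≤ C x2 := inf_le_right.trans inf_le_left
  have e3 : b5 ≤ inV pre ((ql fin r x1).map y) :=
    inf_le_left.trans (inf_le_right.trans inf_le_right)
  have e4 : b5 ≤ inV pre' ((ql fin r x2).map y) := inf_le_right.trans inf_le_right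
  have e5 : b5 ≤ b3 := inf_le_left.trans inf_le_left
  have e6 : b5 ≤ b := e5.trans (hb3.trans (inf_le_left.trans hb1))
  have e7 : b5 ≤ inV ws ((ql fin r x1).map y) := e1.trans (hR.sep x1)
  have e8 : b5 ≤ inV ws ((ql fin r x2).map y) := e2.trans (hR.sep x2)
  have hne : ∀ {c : B}, b5 ≤ c → c ≠ ⊥ := fun hc h0 => hx2 (le_bot_iff.1 (h0 ▸ hc))
  have n3 := in_length (hne e3)
  have n4 := in_length (hne e4)
  have n7 := in_length (hne e7)
  have n8 := in_length (hne e8)
  rw [List.length_map] at n3 n4 n7 n8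
  have key : ∀ ξ ζ, ξ ∈ ql fin r x1 → ζ ∈ ql fin r x2 → b5 ≤ opV U (y ξ) (y ζ) := by
    intro ξ ζ hξ hζ
    obtain ⟨i, hi, rfl⟩ := List.mem_iff_getElem.1 hξ
    obtain ⟨j, hj, rfl⟩ := List.mem_iff_getElem.1 hζ
    by_cases hij : i = j
    · subst hij
      have g1 := CliqMain_inV_get (vs := pre) (ys := (ql fin r x1).map y) i (by omega) (by simpa)
      have g2 := CliqMain_inV_get (vs := pre') (ys := (ql fin r x2).map y) i (by omega) (by simpa)
      rw [List.getElem_map] at g1 g2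
      have g3 : b3 ≤ U pre[i] pre'[i] := by
        have := (List.forall₂_iff_get.1 hf).2 i (by omega) (by omega)
        simpa using this
      exact op_of (e5.trans g3) (e3.trans g1) (e4.trans g2)
    · have g1 := CliqMain_inV_get (vs := ws) (ys := (ql fin r x1).map y) i (by omega) (by simpa)
      have g2 := CliqMain_inV_get (vs := ws) (ys := (ql fin r x2).map y) j (by omega) (by simpa)
      rw [List.getElem_map] at g1 g2
      have hi' : i < ws.length := by omega
      have hj' : j < ws.length := by omega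
      have g3 : b ≤ U ws[i] ws[j] := by
        rcases lt_or_gt_of_ne hij with h | h
        · exact List.pairwise_iff_getElem.1 hR.pw i j hi' hj' h
        · rw [hU.symm]
          exact List.pairwise_iff_getElem.1 hR.pw j i hj' hi' h
      exact op_of (e6.trans g3) (e7.trans g1) (e8.trans g2)
  have hmemql : ∀ {z ξ : W}, ξ ∈ fin z → ξ ∉ r → ξ ∈ ql fin r z := fun h1 h2 =>
    (Finset.mem_sort _).2 (Finset.mem_sdiff.2 ⟨h1, h2⟩)
  refine ⟨x1, x2, ?_, ?_⟩
  · rintro rfl
    have hpos : 0 < ws.length := List.length_pos_iff.2 hR.nn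
    have h1 : (ql fin r x1)[0] ∈ ql fin r x1 := List.getElem_mem (by omega)
    have h2 := key _ _ h1 h1
    rw [op_irr hU] at h2
    exact hx2 (le_bot_iff.1 h2)
  · refine hne (le_inf e6 (le_inf (le_inf e1 e2) ?_))
    unfold clq
    refine le_iInf fun ξ => le_iInf fun ζ => le_iInf fun h1 => le_iInf fun h2 =>
      le_iInf fun h3 => ?_
    have hr1 := hR.sub x1 (hne e1)
    have hr2 := hR.sub x2 (hne e2)
    by_cases k1 : ξ ∈ fin x1 ∧ ζ ∈ fin x1
    · exact e1.trans ((hR.clq x1).trans (clq_le k1.1 k1.2 h3))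
    by_cases k2 : ξ ∈ fin x2 ∧ ζ ∈ fin x2
    · exact e2.trans ((hR.clq x2).trans (clq_le k2.1 k2.2 h3))
    rcases Finset.mem_union.1 h1 with h1 | h1
    · have h2' : ζ ∉ fin x1 := fun h => k1 ⟨h1, h⟩
      have h2'' : ζ ∈ fin x2 := (Finset.mem_union.1 h2).resolve_left h2'
      have h1' : ξ ∉ fin x2 := fun h => k2 ⟨h, h2''⟩
      exact key ξ ζ (hmemql h1 fun h => h1' (hr2 h)) (hmemql h2'' fun h => h2' (hr1 h))
    · have h2' : ζ ∉ fin x2 := fun h => k2 ⟨h1, h⟩
      have h2'' : ζ ∈ fin x1 := (Finset.mem_union.1 h2).resolve_right h2'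
      have h1' : ξ ∉ fin x1 := fun h => k1 ⟨h, h2''⟩
      rw [op_symm hU]
      exact key ζ ξ (hmemql h2'' fun h => h2' (hr2 h)) (hmemql h1 fun h => h1' (hr1 h))

end MOF
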