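import Pool.Agent.W_3b51b4_h32.CliqRed
import Pool.Agent.W_3b51b4_h32.CliqMain
import Pool.Agent.W_3b51b4_h32.ClY

set_option autoImplicit false
set_option linter.unusedSectionVars false

/-!
# MP_3b51b4_gt : the preorder of the finite cliques has the countable chain condition

Let `fin : W ≃ Finset W` (`hB.finW`), `e` from `hB.ch`, `y` from `exists_y`, `Q = QV U y fin b0`, `q ξ = fin.symm {ξ}`.

`CccV Q`: let `A`, `c ≠ ⊥` be given with `c ≤ ⨆ x : Ici z, A x` for all `z`; so `Unb c A`.  Suppose that there are no `x ≠ z`, `w` with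
`c ⊓ (A x ⊓ A z ⊓ (Q w x ⊓ Q w z)) ≠ ⊥`.  If `c ⊓ b0ᶜ ≠ ⊥`, then `Unb (c ⊓ b0ᶜ) A` gives `x < z` with `c ⊓ b0ᶜ ⊓ A x ⊓ A z ≠ ⊥` and `b0ᶜ ≤ Q w x`, a contradiction.
So `c ≤ b0`.  `cliq_red` gives `b ≤ c`, `C`, `r`, `ws`, and `cliq_main` gives `x1 ≠ x2` with `b ⊓ (C x1 ⊓ C x2 ⊓ clq (fin x1 ∪ fin x2)) ≠ ⊥`.  With
`w = fin.symm (fin x1 ∪ fin x2)` `le_QV` gives `clq (fin w) ≤ Q w x1 ⊓ Q w x2`, a contradiction.

The last property: `{ξ} ≠ ∅`, `clq {ξ} = ⊤`, so `b0 ⊓ Q z (q ξ) = b0 ⊓ ⨆ _ : {ξ} ⊆ fin z, clq (fin z)`; if both `{ξ} ⊆ fin z` and `{η} ⊆ fin z`, use `clq_le`.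
-/

universe u v

open Set

namespace MOF

open MAO

/-- The properties of the algebra at the closed stage. -/
structure CHB (W B : Type u) [LinearOrder W] [CompleteBooleanAlgebra B] : Prop where
  segW : ∀ x : W, (Iio x).Countable
  bdW : ∀ f : ℕ → W, ∃ b, ∀ n, f n < b
  finW : Nonempty (W ≃ Finset W)
  reg : ∀ g : ℕ → W → B, (∀ n x y, x ≠ y → g n x ⊓ g n y = ⊥) → ∀ c : B, c ≠ ⊥ →
    ∃ (b : B) (z : W), b ≠ ⊥ ∧ b ≤ c ∧ ∀ n x, z ≤ x → b ⊓ g n x = ⊥
  ch : ∃ e : W → List (List Bool) → B, ∀ F : List (List Bool) → B, ∀ c : B, c ≠ ⊥ →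
    ∃ b ≤ c, b ≠ ⊥ ∧ ∃ η, ∀ u, b ⊓ F u = b ⊓ e η u

variable {W B : Type u} [LinearOrder W] [WellFoundedLT W] [CompleteBooleanAlgebra B]

theorem CliqPoset_single (U : List Bool → List Bool → B) (y : W → ℕ → B) (ξ : W) :
    clq U y {ξ} = ⊤ := by
  unfold clq
  refine top_le_iff.1 ?_
  refine le_iInf fun a => le_iInf fun b => le_iInf fun h1 => le_iInf fun h2 => le_iInf fun h3 => ?_
  exact absurd ((Finset.mem_singleton.1 h1).trans (Finset.mem_singleton.1 h2).symm) h3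

theorem CliqPoset_unb {A : W → B} {c : B} (hA : ∀ z, c ≤ ⨆ x : Ici z, A x.1) : Unb c A := by
  intro b' hb' hne z
  by_contra hcon
  push Not at hcon
  refine hne (bot_unique ?_)
  calc b' = b' ⊓ ⨆ x : Ici z, A x.1 := (inf_eq_left.2 (hb'.trans (hA z))).symm
    _ = ⨆ x : Ici z, b' ⊓ A x.1 := inf_iSup_eq _ _
    _ ≤ ⊥ := iSup_le fun x => (hcon x.1 x.2).le

theorem clique_poset (hB : CHB W B) {X : (ℕ → B) → B} (hX : ∀ x y, X x ⊓ eqV x y ≤ X y)
    {U : List Bool → List Bool → B} (hU : CodeV U) {b0 : B}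
    (hNS : ∀ T : ℕ → List Bool → B, b0 ≤ ⨆ x : ℕ → B, X x ⊓ ⨅ n, (brV (T n) x)ᶜ ⊔ nfV U (T n)) :
    ∃ (y : W → ℕ → B) (Q : W → W → B) (q : W → W), PreV Q ∧ CccV Q ∧ (∀ ξ, b0 ≤ X (y ξ)) ∧
      ∀ ξ η z, ξ ≠ η → b0 ⊓ (Q z (q ξ) ⊓ Q z (q η)) ≤ opV U (y ξ) (y η) := by
  obtain ⟨fe⟩ := hB.finW
  obtain ⟨e, he⟩ := hB.ch
  obtain ⟨y, hy1, hy2⟩ := exists_y hB.segW e hX U hNS
  have hfe : ∀ s : Finset W, fe (fe.symm s) = s := fun s => fe.apply_symm_apply s
  refine ⟨y, QV U y fe b0, fun ξ => fe.symm {ξ}, QV_pre U y fe b0, ?_, hy1, ?_⟩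
  · intro A c hc hA
    have hUnb : Unb c A := CliqPoset_unb hA
    by_contra hcon
    push Not at hcon
    have hno : ∀ x z w, x ≠ z → c ⊓ (A x ⊓ A z ⊓ (QV U y fe b0 w x ⊓ QV U y fe b0 w z)) = ⊥ :=
      fun x z w hxz => hcon x z w hxz
    have hcb : c ≤ b0 := by
      by_contra hcb
      have hne : c ⊓ b0ᶜ ≠ ⊥ := fun h => hcb (by
        rw [← disjoint_iff, disjoint_compl_right_iff] at h
        exact h)
      obtain ⟨z0, -⟩ := hB.bdW (fun _ => fe.symm ∅)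
      obtain ⟨x, -, hx⟩ := hUnb _ inf_le_left hne z0
      obtain ⟨z1, hz1⟩ := hB.bdW (fun _ => x)
      obtain ⟨x', hx1, hx'⟩ := hUnb (c ⊓ b0ᶜ ⊓ A x) (inf_le_left.trans inf_le_left) hx z1
      have hxx : x ≠ x' := ((hz1 0).trans_le hx1).ne
      refine hx' (bot_unique ?_)
      rw [← hno x x' x hxx]
      have hQ : ∀ w z, b0ᶜ ≤ QV U y fe b0 w z := by
        intro w z
        unfold QV
        exact le_sup_of_le_left (le_sup_of_le_left le_sup_left)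
      refine le_inf (inf_le_left.trans (inf_le_left.trans inf_le_left)) (le_inf (le_inf
        (inf_le_left.trans inf_le_right) inf_le_right) (le_inf ?_ ?_))
      · exact (inf_le_left.trans (inf_le_left.trans inf_le_right)).trans (hQ _ _)
      · exact (inf_le_left.trans (inf_le_left.trans inf_le_right)).trans (hQ _ _)
    obtain ⟨b, hbc, C, r, ws, hR⟩ := cliq_red hB.segW hB.bdW hB.reg hU y fe fe.injective b0 hc A
      hUnb hno
    obtain ⟨x1, x2, hx12, hne⟩ := cliq_main hU y fe e he b0 hy2 (hbc.trans hcb) hR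
    refine hne (bot_unique ?_)
    rw [← hno x1 x2 (fe.symm (fe x1 ∪ fe x2)) hx12]
    have h1 : clq U y (fe x1 ∪ fe x2) ≤ QV U y fe b0 (fe.symm (fe x1 ∪ fe x2)) x1 := by
      have h2 := le_QV (U := U) (y := y) (fin := fe) (b0 := b0) (x := fe.symm (fe x1 ∪ fe x2))
        (z := x1) (by rw [hfe]; exact Finset.subset_union_left)
      rwa [hfe] at h2
    have h2 : clq U y (fe x1 ∪ fe x2) ≤ QV U y fe b0 (fe.symm (fe x1 ∪ fe x2)) x2 := by
      have h2 := le_QV (U := U) (y := y) (fin := fe) (b0 := b0) (x := fe.symm (fe x1 ∪ fe x2))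
        (z := x2) (by rw [hfe]; exact Finset.subset_union_right)
      rwa [hfe] at h2
    refine inf_le_inf hbc (inf_le_inf (inf_le_inf (hR.le x1) (hR.le x2)) (le_inf h1 h2))
  · intro ξ η z hξη
    have hout : ∀ ζ, ζ ∉ fe z → b0 ⊓ QV U y fe b0 z (fe.symm {ζ}) = ⊥ := by
      intro ζ hζ
      have h1 : ¬ ({ζ} : Finset W) ⊆ fe z := fun h => hζ (h (Finset.mem_singleton_self ζ))
      unfold QV
      rw [hfe, CliqPoset_single, iSup_neg h1, iSup_neg (Finset.singleton_ne_empty ζ), compl_top,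
        sup_bot_eq, sup_bot_eq, sup_bot_eq, inf_compl_eq_bot]
    by_cases h1 : ξ ∈ fe z
    · by_cases h2 : η ∈ fe z
      · refine le_trans ?_ (clq_le h1 h2 hξη)
        have h3 := QV_le (U := U) (y := y) (fin := fe) (b0 := b0) (x := z) (z := fe.symm {ξ})
          (by rw [hfe]; exact Finset.singleton_ne_empty ξ)
        rw [hfe, CliqPoset_single, inf_top_eq] at h3
        exact (inf_le_inf le_rfl inf_le_left).trans h3
      · refine le_trans ?_ bot_le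
        rw [← hout η h2]
        exact inf_le_inf le_rfl inf_le_right
    · refine le_trans ?_ bot_le
      rw [← hout ξ h1]
      exact inf_le_inf le_rfl inf_le_left

end MOF
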