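import Pool.Agent.W_3b51b4_h32.Cliq

set_option autoImplicit false
set_option linter.unusedSectionVars false

/-!
# MP_3b51b4_gt : the chain condition of the finite cliques, reduction

`hA : Unb c A` and there are no two different compatible elements: `hno`.

Step A.  `A x = (A x ⊓ clq (fin x)) ⊔ (A x ⊓ (clq (fin x))ᶜ)`.  By `unb_split` there is `b ≤ c` with `Unb b` of one of the two pieces.  The second is
impossible: there are `x` and `z > x` with `b ⊓ A x ⊓ (clq (fin x))ᶜ ⊓ A z ≠ ⊥` (use `Unb` twice; `W` has no greatest element by `bdW`), and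
`(clq (fin x))ᶜ ≤ QV z x`, `QV z z = ⊤`, against `hno x z z`.

Step B.  Split the first piece according to the size `n` of `fin x` (`unb_split` with `ι = ℕ`).

Step C.  Let `r` be a finite set, of largest possible size, such that for some `b1 ≤ b`, `b1 ≠ ⊥`:
`Unb b1 (C r)` with `C r x = if (fin x).card = n ∧ r ⊆ fin x then A x ⊓ clq (fin x) else ⊥`.  The size of such `r` is at most `n`, because `Unb` gives a nonempty
piece; it is not `n`, because for `r.card = n` only one `x` has `r ⊆ fin x`, `(fin x).card = n` (`fin` is injective), and `Unb` gives two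
different elements.

Step D.  Split according to `ws : List (List Bool)`: the pieces `C r x ⊓ inV ws ((ql fin r x).map y) ⊓ (value of: ws is pairwise in U)`; by `sep` (the elements of
`ql fin r x` are different elements of `fin x`, so below `clq (fin x)` the reals are pairwise connected) the condition of `unb_split` is true.
(The value of `ws is pairwise in U` can be taken as `⨅ i j, i < j → U ws[i] ws[j]`, or: `⨆ b', (∀ pairs, b' ≤ U) , b'`.)
This gives `b2 ≤ b1` and `ws` with `Unb b2` of the piece `C'`.  Since `Unb` gives a nonempty intersection with `⨅ U ws[i] ws[j]`, we may take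
`b = b2 ⊓ ⨅ ..`, which is not `⊥`.  `ws ≠ []` because `inV ws l ≠ ⊥` implies that the lengths agree, and `ql fin r x` has `n - |r| > 0` elements.
(Take `C = C'`.)

`unb`: let `η` and `b' ≤ b` be given.  Suppose that `b' ⊓ C x = ⊥` for all `x` with `η < ξ` for all `ξ ∈ fin x \ r`.  Split `C` according to
`ξ ∈ Iic η`, `ξ ∉ r`: `C x ≤ ⨆ ξ : Iic η, if ξ ∈ fin x ∧ ξ ∉ r then C x else ⊥` below `b'` (`Iic η` is countable).  `unb_split` gives `b'' ≤ b'` and `ξ` with
`Unb b'' (C (insert ξ r))`, against the maximality of `r`.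
-/

universe u v

open Set

namespace MOF

open MAO

variable {W B : Type u} [LinearOrder W] [WellFoundedLT W] [CompleteBooleanAlgebra B]

theorem CliqRed_unb_le {b : B} {C C' : W → B} (h : Unb b C) (hC : ∀ x, C x ≤ C' x) : Unb b C' := by
  intro b' h1 h2 z
  obtain ⟨x, hx, h3⟩ := h b' h1 h2 z
  refine ⟨x, hx, fun h4 => h3 ?_⟩
  rw [← le_bot_iff] at h4 ⊢
  exact (inf_le_inf_left _ (hC x)).trans h4

/-- the truth value of: the elements of the list are pairwise in `U` -/
def CliqRed_pw (U : List Bool → List Bool → B) : List (List Bool) → B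
  | [] => ⊤
  | s :: l => (⨅ (t : List Bool) (_ : t ∈ l), U s t) ⊓ CliqRed_pw U l

theorem CliqRed_le_pw {U : List Bool → List Bool → B} {b : B} {l : List (List Bool)}
    (h : l.Pairwise fun s t => b ≤ U s t) : b ≤ CliqRed_pw U l := by
  induction l with
  | nil => exact le_top
  | cons s l ih =>
    rw [List.pairwise_cons] at h
    exact le_inf (le_iInf₂ h.1) (ih h.2)

theorem CliqRed_pw_le {U : List Bool → List Bool → B} {b : B} {l : List (List Bool)}
    (h : b ≤ CliqRed_pw U l) : l.Pairwise fun s t => b ≤ U s t := by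
  induction l with
  | nil => exact List.Pairwise.nil
  | cons s l ih =>
    have h1 : b ≤ ⨅ (t : List Bool) (_ : t ∈ l), U s t := h.trans inf_le_left
    exact List.pairwise_cons.2 ⟨fun t ht => h1.trans (iInf₂_le t ht), ih (h.trans inf_le_right)⟩

theorem CliqRed_ql {U : List Bool → List Bool → B} (y : W → ℕ → B) (fin : W → Finset W)
    (r : Finset W) (x : W) {b : B} (hb : b ≤ clq U y (fin x)) :
    ((ql fin r x).map y).Pairwise fun u v => b ≤ opV U u v := by
  rw [List.pairwise_map]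
  have h1 : (ql fin r x).Nodup := Finset.sort_nodup _ _
  have h2 : ∀ ξ ∈ ql fin r x, ξ ∈ fin x := by
    intro ξ hξ
    have := (Finset.mem_sort (· ≥ ·)).1 hξ
    exact (Finset.mem_sdiff.1 this).1
  refine List.Pairwise.imp_of_mem ?_ h1
  intro ξ η hξ hη hne
  exact hb.trans (clq_le (h2 ξ hξ) (h2 η hη) hne)

/-- the pieces of step C -/
def CliqRed_C (U : List Bool → List Bool → B) (y : W → ℕ → B) (fin : W → Finset W) (A : W → B)
    (n : ℕ) (r : Finset W) (x : W) : B :=
  ⨆ _ : (fin x).card = n ∧ r ⊆ fin x, A x ⊓ clq U y (fin x)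

theorem CliqRed_C_le {U : List Bool → List Bool → B} {y : W → ℕ → B} {fin : W → Finset W}
    {A : W → B} {n : ℕ} {r : Finset W} {x : W} :
    CliqRed_C U y fin A n r x ≤ A x ⊓ clq U y (fin x) := iSup_le fun _ => le_rfl

theorem CliqRed_C_ne {U : List Bool → List Bool → B} {y : W → ℕ → B} {fin : W → Finset W}
    {A : W → B} {n : ℕ} {r : Finset W} {x : W} (h : CliqRed_C U y fin A n r x ≠ ⊥) :
    (fin x).card = n ∧ r ⊆ fin x := by
  by_contra h1
  exact h (le_bot_iff.1 (iSup_le fun h2 => absurd h2 h1))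

theorem CliqRed_ne_left {a b : B} (h : a ⊓ b ≠ ⊥) : a ≠ ⊥ := by
  rintro rfl
  exact h (bot_inf_eq _)

theorem CliqRed_ne_right {a b : B} (h : a ⊓ b ≠ ⊥) : b ≠ ⊥ := by
  rintro rfl
  exact h (inf_bot_eq _)

/-- step A, the second piece -/
theorem CliqRed_stepA (bdW : ∀ f : ℕ → W, ∃ b, ∀ n, f n < b) [Nonempty W]
    {U : List Bool → List Bool → B} {y : W → ℕ → B} {fin : W → Finset W}
    {b0 c b : B} (hb : b ≠ ⊥) (hbc : b ≤ c) {A : W → B}
    (hno : ∀ x z w, x ≠ z → c ⊓ (A x ⊓ A z ⊓ (QV U y fin b0 w x ⊓ QV U y fin b0 w z)) = ⊥)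
    (h : Unb b fun x => A x ⊓ (clq U y (fin x))ᶜ) : False := by
  obtain ⟨x, -, hx⟩ := h b le_rfl hb (Classical.arbitrary W)
  obtain ⟨z0, hz0⟩ := bdW fun _ => x
  obtain ⟨z, hz, hz'⟩ := h _ inf_le_left hx z0
  have hxz : x ≠ z := ((hz0 0).trans_le hz).ne
  apply hz'
  rw [← le_bot_iff, ← hno x z z hxz, (QV_pre U y fin b0).refl z, inf_top_eq]
  refine le_inf (inf_le_left.trans (inf_le_left.trans hbc)) (le_inf (le_inf ?_ ?_) ?_)
  · exact inf_le_left.trans (inf_le_right.trans inf_le_left)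
  · exact inf_le_right.trans inf_le_left
  · refine (inf_le_left.trans (inf_le_right.trans inf_le_right)).trans ?_
    unfold QV
    exact le_sup_of_le_left (le_sup_of_le_left le_sup_right)

theorem cliq_red (segW : ∀ x : W, (Iio x).Countable) (bdW : ∀ f : ℕ → W, ∃ b, ∀ n, f n < b)
    (hreg : ∀ g : ℕ → W → B, (∀ n x y, x ≠ y → g n x ⊓ g n y = ⊥) → ∀ c : B, c ≠ ⊥ →
      ∃ (b : B) (z : W), b ≠ ⊥ ∧ b ≤ c ∧ ∀ n x, z ≤ x → b ⊓ g n x = ⊥)
    {U : List Bool → List Bool → B} (hU : CodeV U) (y : W → ℕ → B) (fin : W → Finset W)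
    (hfin : Function.Injective fin) (b0 : B) {c : B} (hc : c ≠ ⊥) (A : W → B) (hA : Unb c A)
    (hno : ∀ x z w, x ≠ z → c ⊓ (A x ⊓ A z ⊓ (QV U y fin b0 w x ⊓ QV U y fin b0 w z)) = ⊥) :
    ∃ b ≤ c, ∃ (C : W → B) (r : Finset W) (ws : List (List Bool)), Red U y fin b A C r ws := by
  have hW : Nonempty W := by
    obtain ⟨-, z, -⟩ := hreg (fun _ _ => ⊥) (fun _ _ _ _ => inf_bot_eq _) c hc
    exact ⟨z⟩
  -- Step A
  obtain ⟨bA, hbAc, hbA, hunbA⟩ : ∃ b ≤ c, b ≠ ⊥ ∧ Unb b fun x => A x ⊓ clq U y (fin x) := by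
    obtain ⟨b, hbc, hb, i, hi⟩ := unb_split hreg hc hA
      (fun (i : Bool) x => if i = true then A x ⊓ clq U y (fin x) else A x ⊓ (clq U y (fin x))ᶜ)
      (by
        intro x
        calc c ⊓ A x ≤ A x := inf_le_right
          _ = (A x ⊓ clq U y (fin x)) ⊔ (A x ⊓ (clq U y (fin x))ᶜ) := by
            rw [← inf_sup_left, sup_compl_eq_top, inf_top_eq]
          _ ≤ _ := sup_le (le_iSup_of_le true (by simp)) (le_iSup_of_le false (by simp)))
    cases i with
    | true => exact ⟨b, hbc, hb, by simpa using hi⟩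
    | false =>
      exact (CliqRed_stepA bdW hb hbc hno (by simpa using hi)).elim
  -- Step B
  obtain ⟨b1, hb1A, hb1, n, hunb1⟩ := unb_split hreg hbA hunbA
    (fun (n : ℕ) x => CliqRed_C U y fin A n ∅ x)
    (by
      intro x
      refine inf_le_right.trans (le_iSup_of_le (fin x).card ?_)
      exact le_iSup_of_le ⟨rfl, Finset.empty_subset _⟩ le_rfl)
  -- Step C
  have hcard : ∀ r : Finset W, (∃ b ≤ b1, b ≠ ⊥ ∧ Unb b (CliqRed_C U y fin A n r)) →
      r.card < n := by
    rintro r ⟨b, -, hb, hunb⟩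
    obtain ⟨x, -, hx⟩ := hunb b le_rfl hb (Classical.arbitrary W)
    obtain ⟨hn, hr⟩ := CliqRed_C_ne (CliqRed_ne_right hx)
    refine lt_of_le_of_ne ((Finset.card_le_card hr).trans_eq hn) fun h => ?_
    obtain ⟨z0, hz0⟩ := bdW fun _ => x
    obtain ⟨z, hz, hz'⟩ := hunb b le_rfl hb z0
    obtain ⟨hn', hr'⟩ := CliqRed_C_ne (CliqRed_ne_right hz')
    have h1 : r = fin x := Finset.eq_of_subset_of_card_le hr (by omega)
    have h2 : r = fin z := Finset.eq_of_subset_of_card_le hr' (by omega)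
    exact ((hz0 0).trans_le hz).ne (hfin (h1.symm.trans h2))
  obtain ⟨r, ⟨bC, hbC1, hbC, hunbC⟩, hmax⟩ :=
    (measure fun r : Finset W => n - r.card).wf.has_min
      {r | ∃ b ≤ b1, b ≠ ⊥ ∧ Unb b (CliqRed_C U y fin A n r)} ⟨∅, b1, le_rfl, hb1, hunb1⟩
  have hrn : r.card < n := hcard r ⟨bC, hbC1, hbC, hunbC⟩
  have hmax' : ∀ ξ ∉ r, ∀ b ≤ b1, b ≠ ⊥ → ¬ Unb b (CliqRed_C U y fin A n (insert ξ r)) := by
    intro ξ hξ b h1 h2 h3
    refine hmax (insert ξ r) ⟨b, h1, h2, h3⟩ ?_
    show n - (insert ξ r).card < n - r.card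
    rw [Finset.card_insert_of_notMem hξ]
    omega
  -- Step D
  obtain ⟨b2, hb2C, hb2, ws, hunb2⟩ := unb_split hreg hbC hunbC
    (fun (ws : List (List Bool)) x =>
      CliqRed_C U y fin A n r x ⊓ inV ws ((ql fin r x).map y) ⊓ CliqRed_pw U ws)
    (by
      intro x
      by_contra hcon
      have hd : (bC ⊓ CliqRed_C U y fin A n r x) ⊓ (⨆ ws : List (List Bool),
          CliqRed_C U y fin A n r x ⊓ inV ws ((ql fin r x).map y) ⊓ CliqRed_pw U ws)ᶜ ≠ ⊥ := by
        intro h
        apply hcon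
        rw [← disjoint_compl_right_iff, disjoint_iff]
        exact h
      obtain ⟨d, hd1, hd2, vs, -, hd3, hd4⟩ := sep hU hd ((ql fin r x).map y)
        (CliqRed_ql y fin r x (inf_le_left.trans (inf_le_right.trans
          (CliqRed_C_le.trans inf_le_right))))
      apply hd2
      have h1 : d ≤ CliqRed_C U y fin A n r x ⊓ inV vs ((ql fin r x).map y) ⊓ CliqRed_pw U vs :=
        le_inf (le_inf (hd1.trans (inf_le_left.trans inf_le_right)) hd3) (CliqRed_le_pw hd4)
      have h2 : d ≤ (⨆ ws : List (List Bool),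
          CliqRed_C U y fin A n r x ⊓ inV ws ((ql fin r x).map y) ⊓ CliqRed_pw U ws) :=
        h1.trans (le_iSup (fun ws : List (List Bool) =>
          CliqRed_C U y fin A n r x ⊓ inV ws ((ql fin r x).map y) ⊓ CliqRed_pw U ws) vs)
      have h3 := hd1.trans inf_le_right
      rw [← le_bot_iff, ← inf_compl_self (⨆ ws : List (List Bool),
          CliqRed_C U y fin A n r x ⊓ inV ws ((ql fin r x).map y) ⊓ CliqRed_pw U ws)]
      exact le_inf h2 h3)
  have hb : b2 ⊓ CliqRed_pw U ws ≠ ⊥ := by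
    obtain ⟨x, -, hx⟩ := hunb2 b2 le_rfl hb2 (Classical.arbitrary W)
    intro h
    apply hx
    rw [← le_bot_iff, ← h]
    exact inf_le_inf_left _ inf_le_right
  refine ⟨b2 ⊓ CliqRed_pw U ws, (inf_le_left.trans hb2C).trans (hbC1.trans (hb1A.trans hbAc)),
    fun x => CliqRed_C U y fin A n r x ⊓ inV ws ((ql fin r x).map y) ⊓ CliqRed_pw U ws, r, ws,
    ⟨hb, ?_, ?_, ?_, ?_, ?_, ?_, ?_⟩⟩
  · exact fun x => (inf_le_left.trans inf_le_left).trans (CliqRed_C_le.trans inf_le_left)
  · exact fun x hx => (CliqRed_C_ne (CliqRed_ne_left (CliqRed_ne_left hx))).2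
  · exact fun x => (inf_le_left.trans inf_le_left).trans (CliqRed_C_le.trans inf_le_right)
  · exact fun x => inf_le_left.trans inf_le_right
  · exact CliqRed_pw_le inf_le_right
  · obtain ⟨x, -, hx⟩ := hunb2 b2 le_rfl hb2 (Classical.arbitrary W)
    have h1 := CliqRed_ne_left (CliqRed_ne_right hx)
    have h2 := in_length (CliqRed_ne_right h1)
    obtain ⟨h3, h4⟩ := CliqRed_C_ne (CliqRed_ne_left h1)
    rintro rfl
    rw [List.length_nil, List.length_map, ql, Finset.length_sort, Finset.card_sdiff_of_subset h4]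
      at h2
    omega
  · intro η b' hb' hb'0
    by_contra hcon
    push Not at hcon
    have hη : Countable (Iic η) := by
      rw [← Iio_insert]
      exact ((segW η).insert η).to_subtype
    have hunb' := hunb2.mono (hb'.trans inf_le_left)
    obtain ⟨b'', h1, h2, ξ, h3⟩ := unb_split hreg hb'0 hunb'
      (fun (ξ : Iic η) x => ⨆ _ : ξ.1 ∈ fin x ∧ ξ.1 ∉ r,
        CliqRed_C U y fin A n r x ⊓ inV ws ((ql fin r x).map y) ⊓ CliqRed_pw U ws)
      (by
        intro x
        by_cases hx : b' ⊓ (CliqRed_C U y fin A n r x ⊓ inV ws ((ql fin r x).map y) ⊓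
            CliqRed_pw U ws) = ⊥
        · rw [hx]
          exact bot_le
        · obtain ⟨ξ, hξ, hξr, hξη⟩ := hcon x hx
          exact inf_le_right.trans (le_iSup_of_le ⟨ξ, hξη⟩ (le_iSup_of_le ⟨hξ, hξr⟩ le_rfl)))
    have hξr : ξ.1 ∉ r := by
      intro hξ
      obtain ⟨x, -, hx⟩ := h3 b'' le_rfl h2 (Classical.arbitrary W)
      apply CliqRed_ne_right hx
      rw [← le_bot_iff]
      exact iSup_le fun h => absurd hξ h.2
    have hb''1 : b'' ≤ b1 :=
      h1.trans (hb'.trans (inf_le_left.trans (hb2C.trans hbC1)))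
    refine hmax' ξ.1 hξr b'' hb''1 h2 (CliqRed_unb_le h3 fun x => iSup_le fun h => ?_)
    refine (inf_le_left.trans inf_le_left).trans (iSup_le fun h' => ?_)
    exact le_iSup_of_le ⟨h'.1, Finset.insert_subset h.1 h'.2⟩ le_rfl

end MOF
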