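import Pool.Agent.W_61ad90_h15.Defs
import Pool.Agent.W_MP_3b51b4_h40.CoreMO

set_option autoImplicit false
set_option linter.unusedSectionVars false

/-!
# MP_3b51b4_gt : the iterations

`W` is a well-order of type `ω₁`, `K` a set of size `c`, `L` a well-order of type `c⁺`.  A condition is a pair `(t, f)`,
`t` a countable partial function from `W` to `K`, `f` a finite partial function from `L` to `W`.  `E a : W → W → Set Cond`
(`a : L`) is a raw name of a relation on `W`; `Ord E a` is the order of the finite support iteration of length `a`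
over the collapse: stage `b` uses `E b` if it is forced to be a preorder with the countable chain condition, and
the trivial preorder otherwise.  `Ord E a` is a preorder on all conditions; coordinates `≥ a` are ignored.
-/

universe u

open Cardinal Set

namespace MOF

open Pool.Agent.W_MP_315f31_lc W61

/-- The countable partial functions from `W` to `K`. -/
abbrev Tt (W K : Type u) : Type u := PF W K ℵ₀

/-- The finite partial functions from `L` to `W`. -/
abbrev Fn (L W : Type u) : Type u := {f : L → Option W // {a | f a ≠ none}.Finite}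

/-- The conditions. -/
abbrev Cond (W K L : Type u) : Type u := Tt W K × Fn L W

/-- The raw names. -/
abbrev Nm (W K L : Type u) : Type u := W → W → Set (Cond W K L)

variable {W K L : Type u} [LinearOrder W] [LinearOrder L] [WellFoundedLT L]

/-- The regular open set generated by `S`. -/
def cls (R : Cond W K L → Cond W K L → Prop) (S : Set (Cond W K L)) : Set (Cond W K L) :=
  {p | ∀ q, R q p → ∃ r, R r q ∧ ∃ s ∈ S, R r s}

/-- `V x y` is the set of the conditions which force `x ≤ y`: it is forced that every antichain is bounded. -/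
def FC (R : Cond W K L → Cond W K L → Prop) (V : W → W → Set (Cond W K L)) : Prop :=
  ∀ C : W → Set (Cond W K L), (∀ x p q, p ∈ C x → R q p → q ∈ C x) →
    (∀ x y, x ≠ y → ∀ p, p ∈ C x → p ∈ C y → ∀ z, p ∈ V z x → p ∉ V z y) →
    ∀ p, ∃ q, R q p ∧ ∃ β, ∀ x, β ≤ x → ∀ r, R r q → r ∉ C x

/-- `V` is forced to be a preorder with the countable chain condition. -/
structure Good (R : Cond W K L → Cond W K L → Prop) (V : W → W → Set (Cond W K L)) : Prop where
  refl : ∀ x p, p ∈ V x x
  trans : ∀ x y z p, p ∈ V x y → p ∈ V y z → p ∈ V x z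
  fc : FC R V

/-- The order of a stage. -/
def evR (R : Cond W K L → Cond W K L → Prop) (E : Nm W K L) (x y : W) : Set (Cond W K L) :=
  {p | Good R (fun x y => cls R (E x y)) → p ∈ cls R (E x y)}

/-- The order of the iteration. -/
noncomputable def Ord (E : L → Nm W K L) : L → Cond W K L → Cond W K L → Prop :=
  (wellFounded_lt (α := L)).fix fun a ih p' p =>
    PF.L p'.1 p.1 ∧ ∀ (b : L) (hb : b < a) (x : W), p.2.1 b = some x →
      ∃ x', p'.2.1 b = some x' ∧ p' ∈ evR (ih b hb) (E b) x' x

/-- The order of the stage `b`: the set of the conditions which force `x ≤ y`. -/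
noncomputable def ev (E : L → Nm W K L) (b : L) (x y : W) : Set (Cond W K L) := evR (Ord E b) (E b) x y

theorem Ord_iff {E : L → Nm W K L} {a : L} {p' p : Cond W K L} :
    Ord E a p' p ↔ PF.L p'.1 p.1 ∧ ∀ b < a, ∀ x, p.2.1 b = some x →
      ∃ x', p'.2.1 b = some x' ∧ p' ∈ ev E b x' x := by
  unfold Ord
  rw [WellFounded.fix_eq]
  rfl

theorem ev_refl (E : L → Nm W K L) (b : L) (x : W) (p : Cond W K L) : p ∈ ev E b x x :=
  fun h => h.refl x p

theorem ev_trans {E : L → Nm W K L} {b : L} {x y z : W} {p : Cond W K L} (h1 : p ∈ ev E b x y)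
    (h2 : p ∈ ev E b y z) : p ∈ ev E b x z := fun h => h.trans x y z p (h1 h) (h2 h)

/-- The regularity of `cls`, for transitive `R`. -/
theorem cls_lower {R : Cond W K L → Cond W K L → Prop} (hR : ∀ p q r, R p q → R q r → R p r)
    {S : Set (Cond W K L)} {p q : Cond W K L} (hp : p ∈ cls R S) (hq : R q p) : q ∈ cls R S :=
  fun r hr => hp r (hR _ _ _ hr hq)

theorem cls_regular {R : Cond W K L → Cond W K L → Prop} (hr : ∀ p, R p p)
    {S : Set (Cond W K L)} {p : Cond W K L} (h : ∀ q, R q p → ∃ r, R r q ∧ r ∈ cls R S) :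
    (∀ p q r, R p q → R q r → R p r) → p ∈ cls R S := by
  intro ht q hq
  obtain ⟨r, h1, h2⟩ := h q hq
  obtain ⟨s, h3, h4⟩ := h2 r (hr r)
  exact ⟨s, ht _ _ _ h3 h1, h4⟩

theorem Ord_refl (E : L → Nm W K L) (a : L) (p : Cond W K L) : Ord E a p p :=
  Ord_iff.2 ⟨fun _ _ h => h, fun b _ x hx => ⟨x, hx, ev_refl E b x p⟩⟩

theorem Ord_mono {E : L → Nm W K L} {a b : L} (h : b ≤ a) {p q : Cond W K L} (hpq : Ord E a p q) :
    Ord E b p q := by
  rw [Ord_iff] at hpq ⊢
  exact ⟨hpq.1, fun c hc => hpq.2 c (hc.trans_le h)⟩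

theorem Ord_trans (E : L → Nm W K L) (a : L) :
    ∀ p q r : Cond W K L, Ord E a p q → Ord E a q r → Ord E a p r := by
  induction a using WellFoundedLT.induction with
  | ind a ih =>
    intro p q r hpq hqr
    have hpq' := hpq
    rw [Ord_iff] at hpq hqr ⊢
    refine ⟨fun x y h => hpq.1 x y (hqr.1 x y h), fun b hb x hx => ?_⟩
    obtain ⟨x', hx', h1⟩ := hqr.2 b hb x hx
    obtain ⟨x'', hx'', h2⟩ := hpq.2 b hb x' hx'
    refine ⟨x'', hx'', ev_trans h2 ?_⟩
    intro hg
    exact cls_lower (ih b hb) (h1 hg) (Ord_mono hb.le hpq')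

instance (E : L → Nm W K L) (a : L) : IsPre (Ord E a) where
  refl := Ord_refl E a
  trans := Ord_trans E a

theorem ev_lower {E : L → Nm W K L} {b : L} {x y : W} {p q : Cond W K L} (hp : p ∈ ev E b x y)
    (hq : Ord E b q p) : q ∈ ev E b x y := fun h => cls_lower (Ord_trans E b) (hp h) hq

theorem ev_regular {E : L → Nm W K L} {b : L} {x y : W} {p : Cond W K L}
    (h : ∀ q, Ord E b q p → ∃ r, Ord E b r q ∧ r ∈ ev E b x y) : p ∈ ev E b x y :=
  fun hg => cls_regular (Ord_refl E b) (fun q hq => by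
    obtain ⟨r, h1, h2⟩ := h q hq
    exact ⟨r, h1, h2 hg⟩) (Ord_trans E b)

/-! ### changing a condition -/

/-- `f` is empty from `a` on -/
def Low (a : L) (f : Fn L W) : Prop := ∀ b, a ≤ b → f.1 b = none

theorem Low.mono {a b : L} {f : Fn L W} (h : Low a f) (hab : a ≤ b) : Low b f :=
  fun c hc => h c (hab.trans hc)

/-- `g` below `a` and `p` from `a` on; the collapse part is that of `g` -/
noncomputable def glue (a : L) (g p : Cond W K L) : Cond W K L :=
  (g.1, ⟨fun b => if b < a then g.2.1 b else p.2.1 b, (g.2.2.union p.2.2).subset (by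
    intro b hb
    by_cases h : b < a
    · left
      simpa [h] using hb
    · right
      simpa [h] using hb)⟩)

/-- the value `x` at `a` -/
noncomputable def upd (p : Cond W K L) (a : L) (x : W) : Cond W K L :=
  (p.1, ⟨fun b => if b = a then some x else p.2.1 b, (p.2.2.insert a).subset (by
    intro b hb
    by_cases h : b = a
    · left
      exact h
    · right
      simpa [h] using hb)⟩)

/-- the part below `a` -/
noncomputable def cut (a : L) (p : Cond W K L) : Cond W K L :=
  (p.1, ⟨fun b => if b < a then p.2.1 b else none, p.2.2.subset (by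
    intro b hb
    by_cases h : b < a
    · simpa [h] using hb
    · simp [h] at hb)⟩)

/-- another collapse part -/
def setT (t : Tt W K) (p : Cond W K L) : Cond W K L := (t, p.2)

theorem glue_lt {a b : L} (h : b < a) (g p : Cond W K L) : (glue a g p).2.1 b = g.2.1 b := if_pos h

theorem glue_ge {a b : L} (h : a ≤ b) (g p : Cond W K L) : (glue a g p).2.1 b = p.2.1 b :=
  if_neg (not_lt.2 h)

theorem upd_self (p : Cond W K L) (a : L) (x : W) : (upd p a x).2.1 a = some x := if_pos rfl

theorem upd_ne (p : Cond W K L) {a b : L} (h : b ≠ a) (x : W) : (upd p a x).2.1 b = p.2.1 b :=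
  if_neg h

theorem cut_lt {a b : L} (h : b < a) (p : Cond W K L) : (cut a p).2.1 b = p.2.1 b := if_pos h

theorem low_cut (a : L) (p : Cond W K L) : Low a (cut a p).2 := fun _ h => if_neg (not_lt.2 h)

/-- conditions which agree below `a` are equivalent -/
theorem Ord_of_eq {E : L → Nm W K L} {a : L} {p q : Cond W K L} (ht : PF.L p.1 q.1)
    (h : ∀ b < a, p.2.1 b = q.2.1 b) : Ord E a p q :=
  Ord_iff.2 ⟨ht, fun b hb x hx => ⟨x, (h b hb).trans hx, ev_refl E b x p⟩⟩

theorem tl_refl (t : Tt W K) : PF.L t t := fun _ _ h => h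

theorem tl_trans {s t r : Tt W K} (h1 : PF.L s t) (h2 : PF.L t r) : PF.L s r :=
  fun a b h => h1 a b (h2 a b h)

theorem Ord_cut (E : L → Nm W K L) (a : L) (p : Cond W K L) : Ord E a (cut a p) p :=
  Ord_of_eq (tl_refl _) fun _ hb => cut_lt hb p

theorem Ord_cut' (E : L → Nm W K L) (a : L) (p : Cond W K L) : Ord E a p (cut a p) :=
  Ord_of_eq (tl_refl _) fun _ hb => (cut_lt hb p).symm

theorem Ord_setT (E : L → Nm W K L) (a : L) {t : Tt W K} {p : Cond W K L} (h : PF.L t p.1) :
    Ord E a (setT t p) p := Ord_of_eq h fun _ _ => rfl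

theorem Ord_glue_right (E : L → Nm W K L) (a : L) (g p : Cond W K L) : Ord E a (glue a g p) g :=
  Ord_of_eq (tl_refl _) fun _ hb => glue_lt hb g p

theorem Ord_glue_right' (E : L → Nm W K L) (a : L) (g p : Cond W K L) : Ord E a g (glue a g p) :=
  Ord_of_eq (tl_refl _) fun _ hb => (glue_lt hb g p).symm

/-- the projection property -/
theorem Ord_glue {E : L → Nm W K L} {a c : L} {g p : Cond W K L} (h : Ord E a g p) :
    Ord E c (glue a g p) p := by
  have h' := h
  rw [Ord_iff] at h ⊢
  refine ⟨h.1, fun b hb x hx => ?_⟩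
  by_cases hba : b < a
  · obtain ⟨x', hx', h1⟩ := h.2 b hba x hx
    exact ⟨x', (glue_lt hba g p).trans hx', ev_lower h1 (Ord_mono hba.le (Ord_glue_right E a g p))⟩
  · exact ⟨x, (glue_ge (not_lt.1 hba) g p).trans hx, ev_refl E b x _⟩

/-- filling an empty place -/
theorem Ord_upd {E : L → Nm W K L} {a c : L} {p : Cond W K L} (h : p.2.1 a = none) (x : W) :
    Ord E c (upd p a x) p := by
  refine Ord_iff.2 ⟨tl_refl _, fun b _ y hy => ?_⟩
  have hba : b ≠ a := by
    rintro rfl
    rw [h] at hy
    exact absurd hy (by simp)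
  exact ⟨y, (upd_ne p hba x).trans hy, ev_refl E b y _⟩

/-- changing the value at a place -/
theorem Ord_upd_of {E : L → Nm W K L} {a c : L} {p : Cond W K L} {x : W}
    (hx : ∀ y, p.2.1 a = some y → p ∈ ev E a x y) : Ord E c (upd p a x) p := by
  refine Ord_iff.2 ⟨tl_refl _, fun b _ y hy => ?_⟩
  by_cases hba : b = a
  · subst hba
    exact ⟨x, upd_self p b x, ev_lower (hx y hy) (Ord_of_eq (tl_refl _) fun c hc => upd_ne p hc.ne x)⟩
  · exact ⟨y, (upd_ne p hba x).trans hy, ev_refl E b y _⟩

/-- a value at the last place -/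
theorem Ord_upd_succ {E : L → Nm W K L} {a b : L} (hab : ∀ x, x < a ↔ x ≤ b) {p q : Cond W K L}
    (h : Ord E b q p) {z : W} (hz : ∀ x, p.2.1 b = some x → q ∈ ev E b z x) :
    Ord E a (upd q b z) p := by
  rw [Ord_iff] at h ⊢
  refine ⟨h.1, fun c hc x hx => ?_⟩
  rcases ((hab c).1 hc).eq_or_lt with h1 | h1
  · subst h1
    exact ⟨z, upd_self q c z, ev_lower (hz x hx) (Ord_of_eq (tl_refl _) fun d hd => upd_ne q hd.ne z)⟩
  · obtain ⟨x', hx', h2⟩ := h.2 c h1 x hx
    exact ⟨x', (upd_ne q h1.ne z).trans hx',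
      ev_lower h2 (Ord_of_eq (tl_refl _) fun d hd => upd_ne q (hd.trans h1).ne z)⟩

/-- conditions which are empty from `a` on -/
theorem Ord_low_iff {E : L → Nm W K L} {a c : L} (hac : a ≤ c) {p q : Cond W K L} (hq : Low a q.2) :
    Ord E c p q ↔ Ord E a p q := by
  refine ⟨Ord_mono hac, fun h => ?_⟩
  rw [Ord_iff] at h ⊢
  refine ⟨h.1, fun b hb x hx => ?_⟩
  by_cases hba : b < a
  · exact h.2 b hba x hx
  · rw [hq b (not_lt.1 hba)] at hx
    exact absurd hx (by simp)

/-- the order of the iteration of length `a` depends only on the names below `a` -/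
theorem Ord_congr {E E' : L → Nm W K L} (a : L) (h : ∀ b < a, E b = E' b) : Ord E a = Ord E' a := by
  induction a using WellFoundedLT.induction with
  | ind a ih =>
    funext p q
    apply propext
    rw [Ord_iff, Ord_iff]
    have h1 : ∀ b < a, ∀ x y, ev E b x y = ev E' b x y := by
      intro b hb x y
      unfold ev
      rw [ih b hb (fun c hc => h c (hc.trans hb)), h b hb]
    constructor
    · rintro ⟨h2, h3⟩
      refine ⟨h2, fun b hb x hx => ?_⟩
      obtain ⟨x', hx', h4⟩ := h3 b hb x hx
      exact ⟨x', hx', h1 b hb x' x ▸ h4⟩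
    · rintro ⟨h2, h3⟩
      refine ⟨h2, fun b hb x hx => ?_⟩
      obtain ⟨x', hx', h4⟩ := h3 b hb x hx
      exact ⟨x', hx', (h1 b hb x' x).symm ▸ h4⟩

theorem ev_congr {E E' : L → Nm W K L} {b : L} (h : ∀ c ≤ b, E c = E' c) (x y : W) :
    ev E b x y = ev E' b x y := by
  unfold ev
  rw [Ord_congr b (fun c hc => h c hc.le), h b le_rfl]

end MOF
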