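import Pool.Agent.W_3b51b4_h32.Plan

set_option autoImplicit false
set_option linter.unusedSectionVars false

/-!
# MP_3b51b4_gt : transfer between the algebra of the forcing and the algebra of the iteration of a plan

`tr s u = {p | (p, s) ∈ u}`; `em s b` is generated by the `(p, s')`, `s'` an extension of `s`, `p ∈ b`.  `u` is local at `s` (`Loc s u`) if
`(p, s') ∈ u ↔ (p, s) ∈ u` for all extensions `s'` of `s`.  `On s = em s ⊤` is the value of: the generic plan extends `s`.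

* `tr` is well defined (regularity): if for all `q ≤ p` (`SO s`) there is `r ≤ q` with `(r, s) ∈ u`, then `(p, s) ∈ u`: given `(q, s') ≤ (p, s)`, `SO s q p`, take
  `r ≤ q` with `(r, s) ∈ u`; `r' = glue s.1 r q` satisfies `SO s' r' q` (`SO_glue`), so `(r', s') ≤ (q, s')`, and `(r', s') ≤ (r, s)` (`Ord_glue_right`),
  so `(r', s') ∈ u`.
* `mem_em`: for `s'` extending `s`: `(p, s') ∈ em s b ↔ p ∈ b`.  (→) If `q ≤ p` (`SO s`), then with `q' = glue s.1 q p` `(q', s') ≤ (p, s')`, so there is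
  `(r, s'') ≤ (q', s')` with `r ∈ b`; `SO s r q'`, `SO s q' q`; so `b` is dense below `p`.
* `loc_of_dec`: suppose `(r, s') ∈ u`, and let `q ≤ r` (`SO s`).  `q' = glue s.1 q r`, `(q', s') ≤ (r, s')` so `(q', s') ∈ u`.  There is `q1 ≤ q'` (`SO s`) with
  `(q1, s) ∈ u` or `(q1, s) ∈ uᶜ`.  The second is impossible, because `(glue s.1 q1 q', s')` is below `(q1, s)` and `(q', s')`.  So `(q1, s) ∈ u`,
  `SO s q1 q`.  By regularity of `tr s u`, `(r, s) ∈ u`.
* `loc_compl`: (for `(p, s) ∈ uᶜ → (p, s') ∈ uᶜ` clear).  If `(p, s') ∈ uᶜ` and `(q, s'') ≤ (p, s)` is in `u`, then `(q, s) ∈ u` (`Loc`), `SO s q p`, and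
  `(glue s.1 q p, s')` is below `(q, s)` and `(p, s')`, a contradiction.
* `loc_iSup`: if all `u i` are local at `s`, then `(p, s') ∈ ⨆ u i ↔ (p, s) ∈ ⨆ u i`: same method (density).
* `tr_compl`, `tr_iSup` for local elements; `tr_inf`, `tr_iInf` always.
-/

universe u v

open Cardinal Set IM

namespace MOF

open Pool.Agent.W_MP_315f31_lc W61

variable {W K L : Type u} [LinearOrder W] [LinearOrder L] [WellFoundedLT L]

/-- `p ∈ b`, for `b` in the algebra of the iteration of `s`. -/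
def InB {s : Plan W K L} (p : Cond W K L) (b : BB s) : Prop := (show PL (SO s) from p) ∈ b.1

/-- `(p, s) ∈ u`, for `u` in the algebra of the forcing. -/
def InD (p : Cond W K L) (s : Plan W K L) (u : Dt W K L) : Prop :=
  (show PL (PLe (W := W) (K := K) (L := L)) from (p, s)) ∈ u.1

/-- The trace. -/
def tr (s : Plan W K L) (u : Dt W K L) : BB s :=
  toD (L := SO s) (fun p => InD p s u) (by
    intro p q hp hq
    exact RO.mem_lower hp ⟨SLe.refl s, hq⟩) (by
    intro p h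
    refine RO.mem_of_dense fun x hx => ?_
    have hx' : SLe x.2 s ∧ SO s x.1 p := hx
    obtain ⟨r, hr, hr'⟩ := h x.1 hx'.2
    exact ⟨(glue s.1 r x.1, x.2), ⟨SLe.refl _, SO_glue hx'.1 hr⟩,
      RO.mem_lower hr' ⟨hx'.1, Ord_glue_right _ _ _ _⟩⟩)

/-- The embedding. -/
def em (s : Plan W K L) (b : BB s) : Dt W K L :=
  toD' (L := PLe) (fun x => SLe x.2 s ∧ InB x.1 b) (by
    intro x y hx hy
    exact ⟨hy.1.trans hx.1, RO.mem_lower hx.2 (SO_of_ext hx.1 hy.2)⟩)

/-- The generic plan extends `s`. -/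
noncomputable def On (s : Plan W K L) : Dt W K L := em s ⊤

/-- `u` is local at `s`. -/
def Loc (s : Plan W K L) (u : Dt W K L) : Prop :=
  ∀ s', SLe s' s → ∀ p, InD p s' u ↔ InD p s u

theorem mem_tr {s : Plan W K L} {u : Dt W K L} {p : Cond W K L} : InB p (tr s u) ↔ InD p s u :=
  Iff.rfl

theorem Loc_mono {s s' : Plan W K L} {u : Dt W K L} {p q : Cond W K L} (h : InD p s u)
    (hs : SLe s' s) (hq : SO s q p) : InD q s' u := by
  have h1 : PLe (q, s') (p, s) := ⟨hs, hq⟩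
  exact RO.mem_lower (P := PL (PLe (W := W) (K := K) (L := L))) h h1

theorem Loc_reg {s : Plan W K L} {u : Dt W K L} {p : Cond W K L}
    (h : ∀ q, SO s q p → ∃ r, SO s r q ∧ InD r s u) : InD p s u := by
  have h1 : InB p (tr s u) := RO.mem_of_dense (P := PL (SO s)) fun q hq => h q hq
  exact mem_tr.1 h1

theorem Loc_glue {s : Plan W K L} (q p : Cond W K L) : SO s (glue s.1 q p) q :=
  Ord_glue_right _ _ _ _

theorem Loc_refl (s : Plan W K L) (p : Cond W K L) : SO s p p := Ord_refl _ _ _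

theorem Loc_trans {s : Plan W K L} {p q r : Cond W K L} (h1 : SO s p q) (h2 : SO s q r) :
    SO s p r := Ord_trans _ _ _ _ _ h1 h2

theorem Loc_ext {s : Plan W K L} {b c : BB s} (h : ∀ p, InB p b ↔ InB p c) : b = c :=
  Subtype.ext (Set.ext h)

theorem Loc_mem_iSup {s : Plan W K L} {ι : Type v} (u : ι → Dt W K L) {p : Cond W K L} :
    InD p s (⨆ i, u i) ↔ ∀ (q : Cond W K L) (t : Plan W K L), SLe t s → SO s q p →
      ∃ (r : Cond W K L) (t' : Plan W K L), SLe t' t ∧ SO t r q ∧ ∃ i, InD r t' (u i) := by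
  unfold InD
  rw [RO.mem_iSup]
  constructor
  · intro h q t h1 h2
    obtain ⟨r, hr, i, hi⟩ := h (q, t) (show PLe (q, t) (p, s) from ⟨h1, h2⟩)
    exact ⟨r.1, r.2, hr.1, hr.2, i, hi⟩
  · intro h x hx
    have hx' : SLe x.2 s ∧ SO s x.1 p := hx
    obtain ⟨r, t', h1, h2, i, hi⟩ := h x.1 x.2 hx'.1 hx'.2
    exact ⟨(r, t'), ⟨h1, h2⟩, i, hi⟩

theorem Loc_mem_iInf {s : Plan W K L} {ι : Type v} (u : ι → Dt W K L) {p : Cond W K L} :
    InD p s (⨅ i, u i) ↔ ∀ i, InD p s (u i) := by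
  unfold InD
  rw [RO.mem_iInf]

theorem Loc_mem_compl {s : Plan W K L} {u : Dt W K L} {p : Cond W K L} :
    InD p s uᶜ ↔ ∀ (q : Cond W K L) (t : Plan W K L), SLe t s → SO s q p → ¬ InD q t u := by
  unfold InD
  rw [RO.mem_compl]
  constructor
  · intro h q t h1 h2
    exact h (q, t) (show PLe (q, t) (p, s) from ⟨h1, h2⟩)
  · intro h x hx
    have hx' : SLe x.2 s ∧ SO s x.1 p := hx
    exact h x.1 x.2 hx'.1 hx'.2

theorem mem_em {s s' : Plan W K L} (h : SLe s' s) {b : BB s} {p : Cond W K L} :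
    InD p s' (em s b) ↔ InB p b := by
  constructor
  · intro hp
    refine RO.mem_of_dense (P := PL (SO s)) fun q hq => ?_
    have h1 : PLe (glue s.1 q p, s') (p, s') := ⟨SLe.refl _, SO_glue h hq⟩
    obtain ⟨r, hr, hr1, hr2⟩ := hp (glue s.1 q p, s') h1
    have hr' : SLe r.2 s' ∧ SO s' r.1 (glue s.1 q p) := hr
    exact ⟨r.1, Loc_trans (SO_of_ext h hr'.2) (Loc_glue q p), hr2⟩
  · intro hp
    exact mem_toD' (L := PLe (W := W) (K := K) (L := L)) _ (p := (p, s')) ⟨h, hp⟩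

theorem loc_em (s : Plan W K L) (b : BB s) : Loc s (em s b) :=
  fun s' h p => (mem_em h).trans (mem_em (SLe.refl s)).symm

theorem Loc.mono {s t : Plan W K L} {u : Dt W K L} (h : Loc s u) (hts : SLe t s) : Loc t u :=
  fun s' hs' p => (h s' (hs'.trans hts) p).trans (h t hts p).symm

theorem tr_em (s : Plan W K L) (b : BB s) : tr s (em s b) = b :=
  Loc_ext fun _ => mem_tr.trans (mem_em (SLe.refl s))

theorem loc_of_dec {s : Plan W K L} {u : Dt W K L}
    (h : ∀ p, ∃ q, SO s q p ∧ (InD q s u ∨ InD q s uᶜ)) : Loc s u := by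
  intro s' hs' p
  refine ⟨fun hp => Loc_reg fun q hq => ?_, fun hp => Loc_mono hp hs' (Loc_refl s p)⟩
  have h1 : SO s' (glue s.1 q p) p := SO_glue hs' hq
  have h2 : InD (glue s.1 q p) s' u := Loc_mono hp (SLe.refl _) h1
  obtain ⟨q1, hq1, h3 | h3⟩ := h (glue s.1 q p)
  · exact ⟨q1, Loc_trans hq1 (Loc_glue q p), h3⟩
  · exfalso
    refine Loc_mem_compl.1 h3 (glue s.1 q1 (glue s.1 q p)) s' hs' (Loc_glue _ _) ?_
    exact Loc_mono h2 (SLe.refl _) (SO_glue hs' hq1)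

theorem loc_compl {s : Plan W K L} {u : Dt W K L} (h : Loc s u) : Loc s uᶜ := by
  intro s' hs' p
  refine ⟨fun hp => Loc_mem_compl.2 fun q t ht hq hu => ?_,
    fun hp => Loc_mono hp hs' (Loc_refl s p)⟩
  have h1 : InD q s u := (h t ht q).1 hu
  have h2 : InD (glue s.1 q p) s' u :=
    (h s' hs' _).2 (Loc_mono h1 (SLe.refl _) (Loc_glue q p))
  exact Loc_mem_compl.1 hp (glue s.1 q p) s' (SLe.refl _) (SO_glue hs' hq) h2

theorem loc_iSup {s : Plan W K L} {ι : Type v} {u : ι → Dt W K L} (h : ∀ i, Loc s (u i)) :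
    Loc s (⨆ i, u i) := by
  intro s' hs' p
  refine ⟨fun hp => Loc_reg fun q hq => ?_, fun hp => Loc_mono hp hs' (Loc_refl s p)⟩
  obtain ⟨r, t, ht, hr, i, hi⟩ := (Loc_mem_iSup u).1 hp (glue s.1 q p) s' (SLe.refl _)
    (SO_glue hs' hq)
  have h1 : InD r s (u i) := (h i t (ht.trans hs') r).1 hi
  exact ⟨r, Loc_trans (SO_of_ext hs' hr) (Loc_glue q p), (le_iSup u i) h1⟩

theorem loc_iInf {s : Plan W K L} {ι : Type v} {u : ι → Dt W K L} (h : ∀ i, Loc s (u i)) :
    Loc s (⨅ i, u i) := fun s' hs' p =>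
  (Loc_mem_iInf u).trans ((forall_congr' fun i => h i s' hs' p).trans (Loc_mem_iInf u).symm)

theorem loc_inf {s : Plan W K L} {u v : Dt W K L} (h1 : Loc s u) (h2 : Loc s v) :
    Loc s (u ⊓ v) := fun s' hs' p => and_congr (h1 s' hs' p) (h2 s' hs' p)

theorem loc_sup {s : Plan W K L} {u v : Dt W K L} (h1 : Loc s u) (h2 : Loc s v) :
    Loc s (u ⊔ v) := by
  rw [sup_eq_iSup]
  refine loc_iSup fun b => ?_
  cases b
  · exact h2
  · exact h1

theorem loc_top (s : Plan W K L) : Loc s (⊤ : Dt W K L) :=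
  fun _ _ _ => ⟨fun _ => RO.mem_top _, fun _ => RO.mem_top _⟩

theorem loc_bot (s : Plan W K L) : Loc s (⊥ : Dt W K L) :=
  fun _ _ _ => ⟨fun h => absurd h (RO.mem_bot _), fun h => absurd h (RO.mem_bot _)⟩

theorem tr_compl {s : Plan W K L} {u : Dt W K L} (h : Loc s u) : tr s uᶜ = (tr s u)ᶜ := by
  refine Loc_ext fun p => mem_tr.trans (Loc_mem_compl.trans ⟨fun hp q hq => ?_, fun hp q t ht hq hu => ?_⟩)
  · exact hp q s (SLe.refl s) hq
  · exact hp q hq ((h t ht q).1 hu)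

theorem tr_iSup {s : Plan W K L} {ι : Type v} {u : ι → Dt W K L} (h : ∀ i, Loc s (u i)) :
    tr s (⨆ i, u i) = ⨆ i, tr s (u i) := by
  refine Loc_ext fun p => mem_tr.trans ((Loc_mem_iSup u).trans
    (Iff.trans ⟨fun hp q hq => ?_, fun hp q t ht hq => ?_⟩ (RO.mem_iSup _ _).symm))
  · obtain ⟨r, t, ht, hr, i, hi⟩ := hp q s (SLe.refl s) hq
    exact ⟨r, hr, i, (h i t ht r).1 hi⟩
  · obtain ⟨r, hr, i, hi⟩ := hp q hq
    have hi' : InD r s (u i) := hi
    exact ⟨glue s.1 r q, t, SLe.refl t, SO_glue ht hr, i, Loc_mono hi' ht (Loc_glue r q)⟩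

theorem tr_iInf {s : Plan W K L} {ι : Type v} (u : ι → Dt W K L) :
    tr s (⨅ i, u i) = ⨅ i, tr s (u i) :=
  Loc_ext fun p => mem_tr.trans ((Loc_mem_iInf u).trans
    (RO.mem_iInf (P := PL (SO s)) (fun i => tr s (u i)) p).symm)

theorem tr_inf {s : Plan W K L} (u v : Dt W K L) : tr s (u ⊓ v) = tr s u ⊓ tr s v :=
  Loc_ext fun _ => Iff.rfl

theorem tr_sup {s : Plan W K L} {u v : Dt W K L} (h1 : Loc s u) (h2 : Loc s v) :
    tr s (u ⊔ v) = tr s u ⊔ tr s v := by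
  rw [sup_eq_iSup, sup_eq_iSup, tr_iSup (fun b => by
    cases b
    · exact h2
    · exact h1)]
  congr 1
  funext b
  cases b <;> rfl

theorem tr_top (s : Plan W K L) : tr s (⊤ : Dt W K L) = ⊤ :=
  Loc_ext fun _ => ⟨fun _ => RO.mem_top _, fun _ => RO.mem_top _⟩

theorem tr_bot (s : Plan W K L) : tr s (⊥ : Dt W K L) = ⊥ :=
  Loc_ext fun _ => ⟨fun h => absurd h (RO.mem_bot _), fun h => absurd h (RO.mem_bot _)⟩

end MOF
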