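import Pool.Agent.W_3b51b4_h32.Loc

set_option autoImplicit false
set_option linter.unusedSectionVars false

/-!
# MP_3b51b4_gt : transfer, the embedding

* `on_inf`: if `u` is local at `s`, then `On s ⊓ u = em s (tr s u)`.
* `em_le_em`, `em_inf`, `em_iSup`: from `mem_em` and density: if `(p, s') ∈ em s b` or `On s` there is an extension `(q, s'')` with `s''` extending `s`.
* `exists_ext`: `On s = em s ⊤` is generated by the `(q, s'')` with `s''` extending `s`.
* Equalities and inequalities between elements below `On s`: it is enough to look at `(p, s')` with `s'` extending `s` (`exists_ext`, `RO.mem_of_dense`); there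
  `InD p s' (em s b) ↔ InB p b` (`mem_em`).
* `em_io`: `InD q s' (io (p, s))` for `s'` extending `s` iff densely below `(q, s')` there is `(r, s'')` with `SO s r p`; use `glue`.
-/

universe u v

open Cardinal Set IM

namespace MOF

open Pool.Agent.W_MP_315f31_lc W61

variable {W K L : Type u} [LinearOrder W] [LinearOrder L] [WellFoundedLT L]

theorem LocE_mem_on {s s' : Plan W K L} (h : SLe s' s) (p : Cond W K L) : InD p s' (On s) :=
  (mem_em h).2 (RO.mem_top _)

theorem LocE_ext0 {s : Plan W K L} {p : Cond W K L} {s' : Plan W K L} (h : InD p s' (On s)) :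
    ∃ q s'', PLe (q, s'') (p, s') ∧ SLe s'' s := by
  obtain ⟨r, hr, hr1, -⟩ := h (p, s') (IsPre.refl (L := PLe (W := W) (K := K) (L := L)) (p, s'))
  exact ⟨r.1, r.2, hr, hr1⟩

theorem LocE_le {s : Plan W K L} {u v : Dt W K L} (hu : u ≤ On s)
    (h : ∀ s', SLe s' s → ∀ p, InD p s' u → InD p s' v) : u ≤ v := by
  intro x hx
  refine RO.mem_of_dense fun q hq => ?_
  have hq1 : q ∈ u.1 := RO.mem_lower hx hq
  obtain ⟨r, s'', hr, hr1⟩ := LocE_ext0 (s := s) (p := q.1) (s' := q.2) (hu hq1)
  exact ⟨(r, s''), hr, h s'' hr1 r (RO.mem_lower hq1 hr)⟩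

theorem LocE_em_le_on {s : Plan W K L} (b : BB s) : em s b ≤ On s := by
  intro x hx q hq
  obtain ⟨r, hr, hr1, -⟩ := hx q hq
  exact ⟨r, hr, hr1, RO.mem_top _⟩

theorem LocE_eq {s : Plan W K L} {u v : Dt W K L} (hu : u ≤ On s) (hv : v ≤ On s)
    (h : ∀ s', SLe s' s → ∀ p, InD p s' u ↔ InD p s' v) : u = v :=
  le_antisymm (LocE_le hu fun s' hs' p => (h s' hs' p).1)
    (LocE_le hv fun s' hs' p => (h s' hs' p).2)

theorem on_inf {s : Plan W K L} {u : Dt W K L} (h : Loc s u) : On s ⊓ u = em s (tr s u) := by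
  refine LocE_eq inf_le_left (LocE_em_le_on _) fun s' hs' p => ?_
  refine Iff.trans ⟨fun hp => hp.2, fun hp => ⟨LocE_mem_on hs' p, hp⟩⟩ ((h s' hs' p).trans ?_)
  exact mem_tr.symm.trans (mem_em hs').symm

theorem em_le {s : Plan W K L} {b c : BB s} : em s b ≤ em s c ↔ b ≤ c := by
  constructor
  · intro h p hp
    have h1 : InD p s (em s b) := (mem_em (SLe.refl s)).2 hp
    exact (mem_em (SLe.refl s)).1 (h h1)
  · intro h
    refine LocE_le (LocE_em_le_on _) fun s' hs' p hp => ?_
    have h1 : InB p b := (mem_em hs').1 hp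
    exact (mem_em hs').2 (h h1)

theorem em_inf {s : Plan W K L} (b c : BB s) : em s (b ⊓ c) = em s b ⊓ em s c := by
  refine LocE_eq (LocE_em_le_on _) (inf_le_left.trans (LocE_em_le_on _)) fun s' hs' p => ?_
  exact (mem_em hs').trans (and_congr (mem_em hs') (mem_em hs')).symm

theorem em_iSup {s : Plan W K L} {ι : Type v} (b : ι → BB s) : em s (⨆ i, b i) = ⨆ i, em s (b i) := by
  have h1 : (⨆ i, em s (b i)) ≤ On s := iSup_le fun i => LocE_em_le_on _
  have h2 := on_inf (loc_iSup fun i => loc_em s (b i))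
  rw [inf_eq_right.2 h1, tr_iSup fun i => loc_em s (b i)] at h2
  rw [h2]
  congr 2
  funext i
  exact (tr_em s (b i)).symm

theorem em_bot (s : Plan W K L) : em s ⊥ = ⊥ := by
  have h2 := on_inf (loc_bot s)
  rw [inf_bot_eq, tr_bot] at h2
  exact h2.symm

theorem em_compl {s : Plan W K L} (b : BB s) : em s bᶜ = On s ⊓ (em s b)ᶜ := by
  rw [on_inf (loc_compl (loc_em s b)), tr_compl (loc_em s b), tr_em]

/-- an element of the algebra of the forcing which meets `On s` -/
theorem exists_ext {s : Plan W K L} {p : Cond W K L} {s' : Plan W K L} (h : InD p s' (On s)) :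
    ∃ q s'', PLe (q, s'') (p, s') ∧ SLe s'' s := by
  exact LocE_ext0 h

theorem io_le_on {s : Plan W K L} (p : Cond W K L) : (io (p, s) : Dt W K L) ≤ On s := by
  exact le_io_iff.2 (LocE_mem_on (SLe.refl s) p)

theorem em_io {s : Plan W K L} (p : Cond W K L) : em s (io p : BB s) = io (p, s) := by
  refine le_antisymm (LocE_le (LocE_em_le_on _) fun s' hs' q hq => ?_) (le_io_iff.2 ?_)
  · have h1 : InB q (io p : BB s) := (mem_em hs').1 hq
    intro r hr
    have hr' : SLe r.2 s' ∧ SO s' r.1 q := hr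
    obtain ⟨t, ht, ht'⟩ := h1 r.1 (SO_of_ext hs' hr'.2)
    have ht1 : SO s t r.1 := ht
    have ht2 : SO s t p := ht'
    exact ⟨(glue s.1 t r.1, r.2), ⟨SLe.refl _, SO_glue (hr'.1.trans hs') ht1⟩,
      ⟨hr'.1.trans hs', Loc_trans (Loc_glue t r.1) ht2⟩⟩
  · have h2 : InD p s (em s (io p : BB s)) := (mem_em (SLe.refl s)).2 (mem_io_self p)
    exact h2

end MOF
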