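import Pool.Agent.W_3b51b4_h32.CN
import Pool.Agent.W_3b51b4_h32.ClV

set_option autoImplicit false
set_option linter.unusedSectionVars false

/-!
# MP_3b51b4_gt : the Open Colouring Axiom, the dense sets

`phi_dense`: let `T' n σ = T n σ ⊓ (nfV U (T n))ᶜ`; then `T' n σ ⊓ T' n τ ⊓ U σ τ ≤ nfV U (T n) ⊓ (nfV U (T n))ᶜ = ⊥`.  By `hno` for `b = io (p, s)` and `T'` there is `x` with
`¬ io (p, s) ⊓ X x ≤ ⨆ n, brV (T' n) x`, so `io (p, s) ⊓ (X x ⊓ (⨆ n, brV (T' n) x)ᶜ) ≠ ⊥`, and there is `(q, s1) ≤ (p, s)` in `X x ⊓ (⨆ n, brV (T' n) x)ᶜ`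
(`exists_io_le_of`).  `cnD` (for `x`, `I = ℕ`) gives `(q', s') ≤ (q, s1)` and `N`; below `(q', s')` the values of `x n` and `nv N n` agree, that is
`io (q', s') ⊓ x n = io (q', s') ⊓ nv N n`, so `(q', s')` is in `eqV x (nv N)`, and in `X (nv N)` by `hX`.  Let `n` be given; to show that `(q', s')` is in
`(brV (T n) (nv N))ᶜ ⊔ nfV U (T n)`: `io (q', s') ⊓ brV (T n) (nv N) ⊓ (nfV U (T n))ᶜ ≤ brV (T' n) (nv N)` (`brV T x = ⨅ s, (iniV s x)ᶜ ⊔ T s`), and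
`io (q', s') ⊓ brV (T' n) (nv N) ≤ brV (T' n) x` (`brV_ext`, `eqV`), which is disjoint from `io (q', s')`.
-/

universe u v

open Cardinal Set IM

namespace MOF

open Pool.Agent.W_MP_315f31_lc W61 MAO

section
variable {B : Type u} [CompleteBooleanAlgebra B]

/-- the value of: `x ∈ X`, and `x` is not a branch of the free ones among the trees `T n` -/
def PhiV (X : (ℕ → B) → B) (U : List Bool → List Bool → B) (T : ℕ → List Bool → B) (x : ℕ → B) : B :=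
  X x ⊓ ⨅ n, (brV (T n) x)ᶜ ⊔ nfV U (T n)

end

section
variable {B : Type u} [CompleteBooleanAlgebra B]

theorem OcaDense_br (T : List Bool → B) (c : B) (y : ℕ → B) :
    brV T y ⊓ c ≤ brV (fun s => T s ⊓ c) y := by
  unfold brV
  refine le_iInf fun s => ?_
  refine (inf_le_inf_right _ (iInf_le _ s)).trans ?_
  rw [inf_sup_right]
  exact sup_le_sup inf_le_left le_rfl

theorem OcaDense_nf (U : List Bool → List Bool → B) (T : List Bool → B) (s t : List Bool) :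
    (T s ⊓ (nfV U T)ᶜ) ⊓ (T t ⊓ (nfV U T)ᶜ) ⊓ U s t = ⊥ := by
  rw [← le_bot_iff, ← inf_compl_self (nfV U T)]
  refine le_inf ?_ ((inf_le_left.trans inf_le_left).trans inf_le_right)
  refine le_trans ?_ (le_iSup_of_le s (le_iSup (fun t => T s ⊓ T t ⊓ U s t) t))
  exact inf_le_inf (inf_le_inf inf_le_left inf_le_left) le_rfl

theorem OcaDense_le {a b : B} (h : a ⊓ bᶜ = ⊥) : a ≤ b := by
  rw [← compl_compl b]
  exact le_compl_iff_disjoint_right.2 (disjoint_iff.2 h)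

end

variable {W K L : Type u} [LinearOrder W] [WellFoundedLT W] [LinearOrder L] [WellFoundedLT L]

theorem OcaDense_io {u v : Dt W K L} {z : Cond W K L × Plan W K L}
    (h : ∀ q t, PLe (q, t) z → InD q t u → InD q t v) : (io z : Dt W K L) ⊓ u ≤ v := by
  intro r hr
  have hr1 : r ∈ (io z : Dt W K L).1 := (inf_le_left : (io z : Dt W K L) ⊓ u ≤ io z) hr
  have hr2 : r ∈ u.1 := (inf_le_right : (io z : Dt W K L) ⊓ u ≤ u) hr
  refine RO.mem_of_dense fun r' hr' => ?_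
  obtain ⟨t, ht, htz⟩ := hr1 r' hr'
  refine ⟨t, ht, h t.1 t.2 htz ?_⟩
  exact RO.mem_lower hr2 (IsPre.trans (L := PLe) _ _ _ ht hr')

theorem phi_dense (H : Hyp W K L) {X : (ℕ → Dt W K L) → Dt W K L}
    (hX : ∀ x y, X x ⊓ eqV x y ≤ X y) {U : List Bool → List Bool → Dt W K L} {c : Dt W K L}
    (hno : ∀ b ≤ c, b ≠ ⊥ → ∀ T : ℕ → List Bool → Dt W K L,
      (∀ n s t, b ⊓ (T n s ⊓ T n t ⊓ U s t) = ⊥) → ∃ x, ¬ (b ⊓ X x ≤ ⨆ n, brV (T n) x))
    (T : ℕ → List Bool → Dt W K L) (p : Cond W K L) (s : Plan W K L) (hp : InD p s c) :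
    ∃ (p' : Cond W K L) (s' : Plan W K L) (N : ℕ → ℕ → Option (Fn L W)), PLe (p', s') (p, s) ∧
      LowN s'.1 N ∧ InD p' s' (PhiV X U T (nv N)) := by
  obtain ⟨x, hx⟩ := hno (io (p, s)) (le_io_iff.2 hp) (io_ne_bot _)
    (fun n σ => T n σ ⊓ (nfV U (T n))ᶜ) (fun n σ τ => by
      rw [OcaDense_nf U (T n) σ τ, inf_bot_eq])
  obtain ⟨S, hS⟩ : ∃ S : Dt W K L, S = ⨆ n, brV (fun σ => T n σ ⊓ (nfV U (T n))ᶜ) x := ⟨_, rfl⟩
  rw [← hS] at hx
  have h1 : (io (p, s) : Dt W K L) ⊓ (X x ⊓ Sᶜ) ≠ ⊥ := by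
    intro h
    rw [← inf_assoc] at h
    exact hx (OcaDense_le h)
  obtain ⟨⟨q, s1⟩, hq, hq2⟩ := exists_io_le_of h1
  obtain ⟨p', s', N, hp', hN, hx'⟩ := cnD H x q s1
  refine ⟨p', s', N, IsPre.trans (L := PLe) _ _ _ hp' hq, hN, ?_⟩
  have ha : (io (p', s') : Dt W K L) ≤ X x ⊓ Sᶜ := (io_mono hp').trans hq2
  have he : (io (p', s') : Dt W K L) ≤ eqV x (nv N) := by
    unfold eqV
    refine le_iInf fun n => le_inf ?_ ?_
    · exact le_compl_sup_of (OcaDense_io fun r t hr h => (hx' n r t hr).1 h)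
    · exact le_compl_sup_of (OcaDense_io fun r t hr h => (hx' n r t hr).2 h)
  refine le_io_iff.1 (?_ : (io (p', s') : Dt W K L) ≤ PhiV X U T (nv N))
  unfold PhiV
  refine le_inf ((le_inf (ha.trans inf_le_left) he).trans (hX x (nv N))) (le_iInf fun n => ?_)
  refine le_compl_sup_of (OcaDense_le ?_)
  rw [← le_bot_iff, ← inf_compl_self S]
  refine le_inf ?_ ((inf_le_left.trans inf_le_left).trans (ha.trans inf_le_right))
  have h2 : (io (p', s') : Dt W K L) ⊓ brV (T n) (nv N) ⊓ (nfV U (T n))ᶜ ≤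
      brV (fun σ => T n σ ⊓ (nfV U (T n))ᶜ) (nv N) ⊓ eqV (nv N) x := by
    refine le_inf ?_ ?_
    · refine le_trans ?_ (OcaDense_br _ _ _)
      exact inf_le_inf inf_le_right le_rfl
    · rw [eqV_comm]
      exact (inf_le_left.trans inf_le_left).trans he
  refine h2.trans ((brV_ext _ _ _).trans ?_)
  rw [hS]
  exact le_iSup (fun n => brV (fun σ => T n σ ⊓ (nfV U (T n))ᶜ) x) n

end MOF
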