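import Pool.Agent.W_3b51b4_h32.CN
import Pool.Agent.W_3b51b4_h32.CliqPoset

set_option autoImplicit false
set_option linter.unusedSectionVars false

/-!
# MP_3b51b4_gt : `ω₁` is preserved, the continuum hypothesis for the iteration of a plan

`reg_B`: let `io p ≤ c` (`exists_io_le`).  For every `n` the set `S n = {q | (∃ x, InB q (g n x)) ∨ ∀ x, InB q (g n x)ᶜ}` is dense (`SO s`).  `TCC.pred` gives
`t' ≤ p.1` and countable sets `M n ⊆ S n`, predense below `t'`.  For `m ∈ M n` in the first case there is exactly one such `x`; let `z` be above all these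
`x` (`H.bdW`).  `b = io (setT t' p)`.  If `b ⊓ g n x ≠ ⊥`, `x ≥ z`, then there is `q ≤ setT t' p` with `InB q (g n x)` (`exists_io_le_of`), and `r ≤ q`, `r ≤ m ∈ M n`;
`InB m (g n x')` with `x' < z` gives `InB r (g n x ⊓ g n x')`, which is `⊥`; `InB m (g n x)ᶜ` is impossible.

`reg_D`: let `io (p, s) ≤ c`.  The sets `d n x = {(q, t) | InD q t (g n x) ∨ InD q t (g n x)ᶜ}` are dense open; `clo'` (index set `ℕ × W`, `H.wk`) gives `s'` extending `s`
with all `g n x` local at `s'` (`loc_of_dec`).  Apply `reg_B` to `s'` and `fun n x => tr s' (g n x)`, `c = io p`, and take `em s'` of the result: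
`em s' b ≤ em s' (io p) = io (p, s') ≤ io (p, s)`; `em s' b ⊓ g n x = em s' (b ⊓ tr s' (g n x)) = ⊥` (`on_inf`).

`ch_B`: let `κ : K → {N : List (List Bool) → ℕ → Option (Fn L W) // LowN s.1 N}` be surjective (`card_N`; this set is not empty).  For `η : W`, `k : K` let
`t η k` be the partial function with the only value `k` at `η`.  `e η u = ⨆ k, io (t η k, empty) ⊓ tr s (nv (κ k) u)`.
Let `F`, `c ≠ ⊥` be given, `io p ≤ c`.  `cnB` gives `t' ≤ p.1` and `N` with `InB q (F u) ↔ InD q s (nv N u)` for `q` below `t'`.  Let `κ k = N` and let `η` be outside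
the domain of `t'` (which is countable, while `W` is not: `H.bdW`).  Let `t''` be `t'` with the value `k` at `η`, `b = io (setT t'' p)`.
`b ⊓ F u = b ⊓ tr s (nv N u) = b ⊓ e η u`, because `b ≤ io (t η k, empty)` and `b ⊓ io (t η k', empty) = ⊥` for `k' ≠ k`.
-/

universe u v

open Cardinal Set IM

namespace MOF

open Pool.Agent.W_MP_315f31_lc W61 MAO

variable {W K L : Type u} [LinearOrder W] [WellFoundedLT W] [LinearOrder L] [WellFoundedLT L]

theorem RegB_bd (H : Hyp W K L) (S : Set W) (hS : S.Countable) : ∃ z, ∀ x ∈ S, x < z := by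
  rcases S.eq_empty_or_nonempty with rfl | hne
  · obtain ⟨fe⟩ := H.finW
    exact ⟨fe.symm ∅, fun x hx => absurd hx (notMem_empty x)⟩
  · obtain ⟨f, rfl⟩ := hS.exists_eq_range hne
    obtain ⟨b, hb⟩ := H.bdW f
    exact ⟨b, by
      rintro _ ⟨n, rfl⟩
      exact hb n⟩

theorem RegB_mono {s : Plan W K L} {p q : Cond W K L} {b : BB s} (h : InB p b) (hq : SO s q p) :
    InB q b := RO.mem_lower (P := PL (SO s)) h hq

theorem RegB_dense {s : Plan W K L} {p : Cond W K L} {b : BB s}
    (h : ∀ q, SO s q p → ∃ r, SO s r q ∧ InB r b) : InB p b :=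
  RO.mem_of_dense (P := PL (SO s)) fun q hq => h q hq

theorem RegB_false {s : Plan W K L} {p : Cond W K L} {b c : BB s} (h1 : InB p b) (h2 : InB p c)
    (h : b ⊓ c = ⊥) : False := by
  have h3 : InB p (b ⊓ c) := ⟨h1, h2⟩
  rw [h] at h3
  exact RO.mem_bot _ h3

theorem RegB_le {s : Plan W K L} {p : Cond W K L} {b c : BB s}
    (h : ∀ r, SO s r p → InB r b → InB r c) : io p ⊓ b ≤ c := by
  intro q hq
  obtain ⟨hq1, hq2⟩ := hq
  refine RO.mem_of_dense (P := PL (SO s)) fun q' hq' => ?_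
  obtain ⟨r, hr, hr'⟩ := hq1 q' hq'
  have hr0 : SO s r q' := hr
  have hr1 : SO s r p := hr'
  have hr2 : InB r b := RO.mem_lower (P := PL (SO s)) (RO.mem_lower (P := PL (SO s)) hq2 hq') hr
  exact ⟨r, hr, h r hr1 hr2⟩

theorem RegB_ext {s : Plan W K L} {q p : Cond W K L} (h : SO s q p) : PF.L q.1 p.1 :=
  (Ord_iff.1 h).1

theorem reg_B (H : Hyp W K L) (s : Plan W K L) :
    ∀ g : ℕ → W → BB s, (∀ n x y, x ≠ y → g n x ⊓ g n y = ⊥) → ∀ c : BB s, c ≠ ⊥ →
      ∃ (b : BB s) (z : W), b ≠ ⊥ ∧ b ≤ c ∧ ∀ n x, z ≤ x → b ⊓ g n x = ⊥ := by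
  intro g hg c hc
  obtain ⟨p, hp⟩ := exists_io_le hc
  obtain ⟨t', ht', M, hMc, hMS, hM⟩ := (TCC_all H s.2 s.1).pred
    (fun n : ℕ => {q : Cond W K L | (∃ x, InB q (g n x)) ∨ ∀ x, InB q (g n x)ᶜ}) p.1 (by
      intro n q _
      by_cases h : ∃ r, SO s r q ∧ ∃ x, InB r (g n x)
      · obtain ⟨r, hr, hx⟩ := h
        exact ⟨r, hr, Or.inl hx⟩
      · refine ⟨q, Ord_refl _ _ _, Or.inr fun x r hr hrx => h ⟨r, hr, x, hrx⟩⟩)
  have hZ : ({x : W | ∃ n, ∃ m ∈ M n, InB m (g n x)}).Countable := by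
    have h1 : {x : W | ∃ n, ∃ m ∈ M n, InB m (g n x)} = ⋃ n, ⋃ m ∈ M n, {x | InB m (g n x)} := by
      ext x
      simp
    rw [h1]
    refine countable_iUnion fun n => (hMc n).biUnion fun m _ => ?_
    refine Set.Subsingleton.countable fun x hx y hy => ?_
    by_contra hxy
    exact RegB_false hx hy (hg n x y hxy)
  obtain ⟨z, hz⟩ := RegB_bd H _ hZ
  refine ⟨io (setT t' p), z, io_ne_bot _, (io_mono (Ord_setT _ _ ht')).trans hp, fun n x hx => ?_⟩
  by_contra hne
  obtain ⟨q, hq, hq'⟩ := exists_io_le_of hne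
  obtain ⟨m, hm, r, hr, hr'⟩ := hM n q (RegB_ext hq)
  have hrx : InB r (g n x) := RegB_mono (le_io_iff.1 hq') hr
  rcases hMS n hm with ⟨x', hx'⟩ | h
  · have h1 : x' < z := hz x' ⟨n, m, hm, hx'⟩
    exact RegB_false (RegB_mono hx' hr') hrx (hg n x' x (h1.trans_le hx).ne)
  · exact h x r hr' hrx

theorem reg_D (H : Hyp W K L) :
    ∀ g : ℕ → W → Dt W K L, (∀ n x y, x ≠ y → g n x ⊓ g n y = ⊥) → ∀ c : Dt W K L, c ≠ ⊥ →
      ∃ (b : Dt W K L) (z : W), b ≠ ⊥ ∧ b ≤ c ∧ ∀ n x, z ≤ x → b ⊓ g n x = ⊥ := by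
  intro g hg c hc
  obtain ⟨⟨p, s⟩, hp⟩ := exists_io_le hc
  have hJ : #(ULift.{u} ℕ × W) ≤ #K := by
    have hK := aleph0_le_K H
    rw [mk_prod, lift_id, lift_id, mk_uLift, mk_nat, lift_aleph0]
    exact (mul_le_mul' hK H.wk).trans (mul_eq_self hK).le
  obtain ⟨s', hs', hd⟩ := clo' H hJ
    (fun j => {y : Cond W K L × Plan W K L | InD y.1 y.2 (g j.1.down j.2) ∨
      InD y.1 y.2 (g j.1.down j.2)ᶜ}) (by
      rintro j x y (h | h) hyx
      · exact Or.inl (Loc_mono h hyx.1 hyx.2)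
      · exact Or.inr (Loc_mono h hyx.1 hyx.2)) (by
      intro j x
      by_cases h : ∃ y : Cond W K L × Plan W K L, PLe y x ∧ InD y.1 y.2 (g j.1.down j.2)
      · obtain ⟨y, hy, hy'⟩ := h
        exact ⟨y, hy, Or.inl hy'⟩
      · refine ⟨x, IsPre.refl (L := PLe) x, Or.inr (Loc_mem_compl.2 fun q t ht hq hu => ?_)⟩
        exact h ⟨(q, t), ⟨ht, hq⟩, hu⟩) s
  have hloc : ∀ n x, Loc s' (g n x) := fun n x => loc_of_dec fun p => hd (⟨n⟩, x) p
  obtain ⟨b, z, hb, hbp, hz⟩ := reg_B H s' (fun n x => tr s' (g n x)) (by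
    intro n x y hxy
    rw [← tr_inf, hg n x y hxy, tr_bot]) (io p) (io_ne_bot p)
  refine ⟨em s' b, z, ?_, ?_, ?_⟩
  · intro h
    refine hb (bot_unique (em_le.1 ?_))
    rw [h]
    exact bot_le
  · refine le_trans (em_le.2 hbp) ?_
    rw [em_io]
    refine le_trans (io_mono ?_) hp
    exact ⟨hs', Ord_refl _ _ _⟩
  · intro n x hx
    have h1 : em s' b ≤ On s' := em_le.2 le_top
    calc em s' b ⊓ g n x = em s' b ⊓ On s' ⊓ g n x := by rw [inf_eq_left.2 h1]
      _ = em s' b ⊓ em s' (tr s' (g n x)) := by rw [inf_assoc, on_inf (hloc n x)]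
      _ = ⊥ := by rw [← em_inf, hz n x hx, em_bot]

/-- The partial function with the only value `k` at `η`. -/
noncomputable def RegB_pt (η : W) (k : K) : Tt W K :=
  ⟨fun x => open Classical in if x = η then some k else none, by
    classical
    have h1 : ({a : W | (if a = η then some k else none) ≠ none} : Set W).Countable := by
      refine (countable_singleton η).mono fun a ha => ?_
      by_contra h
      exact ha (if_neg h)
    exact le_aleph0_iff_set_countable.2 h1⟩

/-- `t` with the value `k` at `η`. -/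
noncomputable def RegB_add (t : Tt W K) (η : W) (k : K) : Tt W K :=
  ⟨fun x => open Classical in if x = η then some k else t.1 x, by
    classical
    have h0 : ({a : W | t.1 a ≠ none} : Set W).Countable := le_aleph0_iff_set_countable.1 t.2
    have h1 : ({a : W | (if a = η then some k else t.1 a) ≠ none} : Set W).Countable := by
      refine (h0.insert η).mono fun a ha => ?_
      by_cases h : a = η
      · exact Or.inl h
      · right
        intro h2
        exact ha ((if_neg h).trans h2)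
    exact le_aleph0_iff_set_countable.2 h1⟩

theorem RegB_pt_self (η : W) (k : K) : (RegB_pt η k).1 η = some k := if_pos rfl

theorem RegB_add_self (t : Tt W K) (η : W) (k : K) : (RegB_add t η k).1 η = some k := if_pos rfl

theorem RegB_add_pt (t : Tt W K) (η : W) (k : K) : PF.L (RegB_add t η k) (RegB_pt η k) := by
  intro a b h
  by_cases ha : a = η
  · subst ha
    rw [RegB_pt_self] at h
    rw [RegB_add_self]
    exact h
  · have h1 : (RegB_pt η k).1 a = none := if_neg ha
    rw [h1] at h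
    exact absurd h (by simp)

theorem RegB_add_le (t : Tt W K) {η : W} (k : K) (h : t.1 η = none) : PF.L (RegB_add t η k) t := by
  intro a b hab
  have ha : a ≠ η := by
    rintro rfl
    rw [h] at hab
    exact absurd hab (by simp)
  exact (if_neg ha : (RegB_add t η k).1 a = t.1 a).trans hab

/-- The empty finite part. -/
def RegB_nil : Fn L W := ⟨fun _ => none, by simp⟩

theorem ch_B (H : Hyp W K L) (s : Plan W K L) :
    ∃ e : W → List (List Bool) → BB s, ∀ F : List (List Bool) → BB s, ∀ c : BB s, c ≠ ⊥ →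
      ∃ b ≤ c, b ≠ ⊥ ∧ ∃ η, ∀ u, b ⊓ F u = b ⊓ e η u := by
  have hcard := card_N H (List (List Bool)) s.1
  have hne : Nonempty {N : List (List Bool) → ℕ → Option (Fn L W) //
      ∀ i k f, N i k = some f → Low s.1 f} := ⟨⟨fun _ _ => none, fun i k f h => absurd h (by simp)⟩⟩
  obtain ⟨ι⟩ := hcard
  obtain ⟨κ, hκ⟩ : ∃ κ : K → {N : List (List Bool) → ℕ → Option (Fn L W) //
      ∀ i k f, N i k = some f → Low s.1 f}, Function.Surjective κ :=
    ⟨Function.invFun ι, Function.invFun_surjective ι.injective⟩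
  refine ⟨fun η u => ⨆ k : K, io ((RegB_pt η k, RegB_nil) : Cond W K L) ⊓ tr s (nv (κ k).1 u), ?_⟩
  intro F c hc
  obtain ⟨p, hp⟩ := exists_io_le hc
  obtain ⟨t', N, ht', hN, hNF⟩ := cnB H s F p.1
  obtain ⟨k, hk⟩ := hκ ⟨N, hN⟩
  have h0 : ({a : W | t'.1 a ≠ none} : Set W).Countable := le_aleph0_iff_set_countable.1 t'.2
  obtain ⟨η, hη⟩ := RegB_bd H _ h0
  have hη' : t'.1 η = none := by
    by_contra h
    exact lt_irrefl η (hη η h)
  have h1 : PF.L (RegB_add t' η k) t' := RegB_add_le t' k hη'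
  have hb : (io (setT (RegB_add t' η k) p) : BB s) ≤ c :=
    (io_mono (Ord_setT _ _ (tl_trans h1 ht'))).trans hp
  refine ⟨io (setT (RegB_add t' η k) p), hb, io_ne_bot _, η, fun u => ?_⟩
  have hF : ∀ r, SO s r (setT (RegB_add t' η k) p) → (InB r (F u) ↔ InB r (tr s (nv N u))) := by
    intro r hr
    exact (hNF u r (tl_trans (RegB_ext hr) h1)).trans mem_tr.symm
  have hb1 : (io (setT (RegB_add t' η k) p) : BB s) ≤ io ((RegB_pt η k, RegB_nil) : Cond W K L) := by
    refine io_mono (Ord_iff.2 ⟨RegB_add_pt t' η k, fun b _ x hx => ?_⟩)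
    exact absurd hx (by simp [RegB_nil])
  have hk1 : (κ k).1 = N := by rw [hk]
  apply le_antisymm
  · refine le_inf inf_le_left ?_
    have h2 : io (setT (RegB_add t' η k) p) ⊓ F u ≤ tr s (nv N u) :=
      RegB_le fun r hr h => (hF r hr).1 h
    refine le_trans (le_inf (inf_le_left.trans hb1) h2) ?_
    rw [← hk1]
    exact le_iSup (fun k : K => io ((RegB_pt η k, RegB_nil) : Cond W K L) ⊓
      (tr s (nv (κ k).1 u) : BB s)) k
  · refine le_inf inf_le_left ?_
    rw [inf_iSup_eq]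
    refine iSup_le fun k' => ?_
    by_cases hkk : k' = k
    · subst hkk
      rw [hk1]
      refine le_trans (inf_le_inf_left _ inf_le_right) ?_
      exact RegB_le fun r hr h => (hF r hr).2 h
    · refine le_trans ?_ bot_le
      rw [← inf_assoc]
      refine le_trans inf_le_left ?_
      by_contra hne
      have hne' : (io (setT (RegB_add t' η k) p) : BB s) ⊓
        io ((RegB_pt η k', RegB_nil) : Cond W K L) ≠ ⊥ := fun h => hne h.le
      obtain ⟨q, hq, hq'⟩ := exists_io_le_of hne'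
      obtain ⟨r, hr, hr'⟩ := (le_io_iff.1 hq') q (Ord_refl _ _ _)
      have h3 : r.1.1 η = some k' := RegB_ext hr' η k' (RegB_pt_self η k')
      have h4 : r.1.1 η = some k :=
        RegB_ext (Ord_trans _ _ _ _ _ hr hq) η k (RegB_add_self t' η k)
      rw [h3] at h4
      exact hkk (Option.some_injective _ h4)

theorem chb (H : Hyp W K L) (s : Plan W K L) : CHB W (BB s) where
  segW := H.segW
  bdW := H.bdW
  finW := H.finW
  reg := reg_B H s
  ch := ch_B H s

end MOF
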