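import Pool.Agent.W_3b51b4_h32.Stage

set_option autoImplicit false
set_option linter.unusedSectionVars false

/-!
# MP_3b51b4_gt : the generic filter of the new stage

Write `l = s.1`; `l < s1.1`.  For `z = (q, s')` with `s'` extending `s1`: if `q.2.1 l = none`, then `(upd q l w, s') ≤ (q, s')` (`Ord_upd`).
If `q.2.1 l = some y`, `r ≤ q` (`SO s`) and `InB r (R x y)`, then `g = upd (glue l r q) l x` satisfies `SO s' g q` (`Ord_glue`; then `Ord_upd_of`: `glue l r q` has the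
value `y` at `l`, and `glue l r q ∈ ev s'.2 l x y`, because `ev s'.2 l = ev s1.2 l` (`ev_congr`) is `{p | InB p (R x y)}` and `glue l r q`, `r` are equivalent in `SO s`).
Call this (*).

* `Gn_le_on`: clear (`(p, s')` with `s'` extending `s1` is in `On s1`).
* `Gn_up`: below an element of `Gn x ⊓ em s (R x y)` there is `(q, s')` with `s'` extending `s1`, `q.2.1 l = some w`, `InB q (R w x)` and `InB q (R x y)`
  (`mem_em`), so `InB q (R w y)`.
* `Gn_dir`: below an element of `Gn x ⊓ Gn y` there is `(q, s')` with `q.2.1 l = some w`, `InB q (R w x)`; below it `(q', s'')` with `q'.2.1 l = some w'`,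
  `InB q' (R w' y)`; by `Stg.le` `InB q' (R w' w)`, so `InB q' (R w' x)`.  Take `z = w'` (`InB q' (R w' w')` by `hR.refl`).
* `Gn_gen`: let `(q, s')`, `s'` extending `s1` (`exists_ext`), `q.2.1 l = some y`.  `(⨆ x, De x ⊓ R x y) = ⊤` gives `r ≤ q` (`SO s`) and `x` with `InB r (De x)`,
  `InB r (R x y)`.  Take `g` of (*): `(g, s') ∈ Gn x` (`hR.refl`), and `InD g s' (em s (De x))` (`mem_em`; `g`, `r` are equivalent in `SO s`).
* `Gn_unb`: let `r ξ = upd p l (q ξ)`; `p.2.1 l = none` (`hp`), so `SO s1 (r ξ) p` (`Ord_upd`).  Claim: there is `p' ≤ p` (`SO s1`) such that for all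
  `p'' ≤ p'` (`SO s1`) and all `β` there are `ξ ≥ β` and `u ≤ p''` (`SO s1`) with `SO s1 u (r ξ)`.  Suppose not.  Then the set
  `S = {v | (∀ u, SO s1 u v → ¬ SO s1 u p) ∨ ∃ β, ∀ ξ, β ≤ ξ → ∀ u, SO s1 u v → ¬ SO s1 u (r ξ)}` is dense for `SO s1`.
  `TCC.pred` (`TCC_all H s1.2 s1.1`, `ι = Unit`) gives `t' ≤ p.1` and a countable `M ⊆ S`, predense below `t'`.  Let `β` be above the `β`s of the elements of
  `M` of the second kind (`H.bdW`).  `v = setT t' (r β)` satisfies `SO s1 v (r β)`, `SO s1 v p`.  There are `m ∈ M` and `u ≤ v`, `u ≤ m`.  `m` is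
  not of the first kind (`u ≤ p`), and not of the second kind (`u ≤ r β`), a contradiction.
  With the claim let `b = io (p', s1)`.  For `(w, s') ≤ (p', s1)` and `z`: `SO s1 w p'`, so there are `ξ ≥ z` and `u ≤ w` (`SO s1`) with `SO s1 u (r ξ)`;
  `g = glue s1.1 u w`, `SO s' g w`, `g.2.1 l = some y'` with `InB g (R y' (q ξ))` (`Stg.le`), so `(g, s') ∈ Gn (q ξ)`.
-/

universe u v

open Cardinal Set IM

namespace MOF

open Pool.Agent.W_MP_315f31_lc W61 MAO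

variable {W K L : Type u} [LinearOrder W] [WellFoundedLT W] [LinearOrder L] [WellFoundedLT L]

/-- a condition in the generic filter -/
theorem StageG_mem {s s1 : Plan W K L} {R : W → W → BB s} (h : Stg s s1 R) (hR : PreV R) {x : W}
    {q : Cond W K L} {s' : Plan W K L} (h1 : SLe s' s1) {y : W} (h2 : q.2.1 s.1 = some y)
    (h3 : InB q (R y x)) : InD q s' (Gn h hR x) :=
  mem_toD' (L := PLe (W := W) (K := K) (L := L)) _ (p := (q, s')) ⟨h1, y, h2, h3⟩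

/-- below a condition which forces that `x` is in the generic filter -/
theorem StageG_out {s s1 : Plan W K L} {R : W → W → BB s} (h : Stg s s1 R) (hR : PreV R) {x : W}
    {q : Cond W K L} {s' : Plan W K L} (hq : InD q s' (Gn h hR x)) :
    ∃ (r : Cond W K L) (t : Plan W K L), SLe t s' ∧ SO s' r q ∧ SLe t s1 ∧
      ∃ y, r.2.1 s.1 = some y ∧ InB r (R y x) := by
  obtain ⟨r, hr, h1, h2⟩ := hq (q, s') (IsPre.refl (L := PLe (W := W) (K := K) (L := L)) (q, s'))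
  exact ⟨r.1, r.2, hr.1, hr.2, h1, h2⟩

/-- a criterion for `≤` -/
theorem StageG_le {u v : Dt W K L} (h : ∀ (p : Cond W K L) (s' : Plan W K L), InD p s' u →
    ∃ (q : Cond W K L) (t : Plan W K L), SLe t s' ∧ SO s' q p ∧ InD q t v) : u ≤ v := by
  intro z hz
  refine RO.mem_of_dense fun w hw => ?_
  obtain ⟨q, t, h1, h2, h3⟩ := h w.1 w.2 (RO.mem_lower hz hw)
  exact ⟨(q, t), ⟨h1, h2⟩, h3⟩

theorem StageG_lower {s : Plan W K L} {b : BB s} {p q : Cond W K L} (h : InB p b)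
    (hq : SO s q p) : InB q b := RO.mem_lower (P := PL (SO s)) h hq

theorem StageG_Rtrans {s : Plan W K L} {R : W → W → BB s} (hR : PreV R) {x y z : W}
    {p : Cond W K L} (h1 : InB p (R x y)) (h2 : InB p (R y z)) : InB p (R x z) :=
  hR.trans x y z ⟨h1, h2⟩

theorem StageG_Rrefl {s : Plan W K L} {R : W → W → BB s} (hR : PreV R) (x : W)
    (p : Cond W K L) : InB p (R x x) := by
  unfold InB
  rw [hR.refl]
  exact RO.mem_top _

/-- step (*) -/
theorem StageG_star {s s1 : Plan W K L} {R : W → W → BB s} (h : Stg s s1 R) {s' : Plan W K L}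
    (hs' : SLe s' s1) {q r : Cond W K L} {x y : W} (hy : q.2.1 s.1 = some y) (hr : SO s r q)
    (hxy : InB r (R x y)) : SO s' (upd (glue s.1 r q) s.1 x) q ∧
      SO s (upd (glue s.1 r q) s.1 x) r := by
  have hs : SLe s' s := hs'.trans h.ext
  have h1 : SO s' (glue s.1 r q) q := SO_glue hs hr
  have h2 : SO s (glue s.1 r q) r := Loc_glue r q
  have h3 : SO s' (upd (glue s.1 r q) s.1 x) (glue s.1 r q) := by
    refine Ord_upd_of fun y' hy' => ?_
    rw [glue_ge le_rfl, hy, Option.some.injEq] at hy'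
    subst hy'
    rw [ev_congr (E := s'.2) (E' := s1.2) (fun c hc => hs'.2 c ((h.len c).2 hc)), h.ev]
    exact StageG_lower hxy h2
  exact ⟨Loc_trans h3 h1, Loc_trans (SO_of_ext hs h3) h2⟩

theorem Gn_le_on {s s1 : Plan W K L} {R : W → W → BB s} (h : Stg s s1 R) (hR : PreV R) (x : W) :
    Gn h hR x ≤ On s1 := by
  refine StageG_le fun p s' hp => ?_
  obtain ⟨r, t, h1, h2, h3, -⟩ := StageG_out h hR hp
  exact ⟨r, t, h1, h2, (mem_em h3).2 (RO.mem_top _)⟩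

theorem Gn_up {s s1 : Plan W K L} {R : W → W → BB s} (h : Stg s s1 R) (hR : PreV R) (x y : W) :
    Gn h hR x ⊓ em s (R x y) ≤ Gn h hR y := by
  refine StageG_le fun p s' hp => ?_
  obtain ⟨r, t, h1, h2, h3, w, h4, h5⟩ := StageG_out h hR hp.1
  have h6 : InD r t (em s (R x y)) := Loc_mono hp.2 h1 h2
  rw [mem_em (h3.trans h.ext)] at h6
  exact ⟨r, t, h1, h2, StageG_mem h hR h3 h4 (StageG_Rtrans hR h5 h6)⟩

theorem Gn_dir {s s1 : Plan W K L} {R : W → W → BB s} (h : Stg s s1 R) (hR : PreV R) (x y : W) :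
    Gn h hR x ⊓ Gn h hR y ≤ ⨆ z, Gn h hR z ⊓ (em s (R z x) ⊓ em s (R z y)) := by
  refine StageG_le fun p s' hp => ?_
  obtain ⟨r, t, h1, h2, h3, w, h4, h5⟩ := StageG_out h hR hp.1
  have h6 : InD r t (Gn h hR y) := Loc_mono hp.2 h1 h2
  obtain ⟨r', t', h1', h2', h3', w', h4', h5'⟩ := StageG_out h hR h6
  obtain ⟨w1, h7, h8⟩ := h.le h3 h2' h4
  rw [h4', Option.some.injEq] at h7
  subst h7
  have hs : SLe t' s := h3'.trans h.ext
  have h9 : InB r' (R w x) := StageG_lower h5 (SO_of_ext (h3.trans h.ext) h2')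
  refine ⟨r', t', h1'.trans h1, Loc_trans (SO_of_ext h1 h2') h2, ?_⟩
  refine (le_iSup (fun z => Gn h hR z ⊓ (em s (R z x) ⊓ em s (R z y))) w') ⟨?_, ?_, ?_⟩
  · exact StageG_mem h hR h3' h4' (StageG_Rrefl hR _ _)
  · exact (mem_em hs).2 (StageG_Rtrans hR h8 h9)
  · exact (mem_em hs).2 h5'

theorem Gn_gen {s s1 : Plan W K L} {R : W → W → BB s} (h : Stg s s1 R) (hR : PreV R)
    (hW : Nonempty W) (De : W → BB s) (hD : ∀ x, (⨆ y, De y ⊓ R y x) = ⊤) :
    On s1 ≤ ⨆ x, Gn h hR x ⊓ em s (De x) := by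
  refine StageG_le fun p s' hp => ?_
  obtain ⟨q, s2, h1, h2⟩ := exists_ext hp
  obtain ⟨q', y, h3, h4⟩ : ∃ (q' : Cond W K L) (y : W), SO s2 q' q ∧ q'.2.1 s.1 = some y := by
    rcases h5 : q.2.1 s.1 with _ | y
    · exact ⟨upd q s.1 hW.some, hW.some, Ord_upd h5 _, upd_self _ _ _⟩
    · exact ⟨q, y, Loc_refl s2 q, h5⟩
  have h5 : (show PL (SO s) from q') ∈ (⨆ x, De x ⊓ R x y).1 := by
    rw [hD y]
    exact RO.mem_top _
  rw [RO.mem_iSup] at h5
  obtain ⟨r, hr, x, hx1, hx2⟩ := h5 q' (Loc_refl s q')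
  have hr' : SO s r q' := hr
  obtain ⟨h6, h7⟩ := StageG_star h h2 h4 hr' (x := x) hx2
  refine ⟨upd (glue s.1 r q') s.1 x, s2, h1.1, ?_, ?_⟩
  · exact Loc_trans (SO_of_ext h1.1 (Loc_trans h6 h3)) h1.2
  · refine (le_iSup (fun x => Gn h hR x ⊓ em s (De x)) x) ⟨?_, ?_⟩
    · exact StageG_mem h hR h2 (upd_self _ _ _) (StageG_Rrefl hR _ _)
    · exact (mem_em (h2.trans h.ext)).2 (StageG_lower (b := De x) (p := r) hx1 h7)

theorem Gn_unb (H : Hyp W K L) {s s1 : Plan W K L} {R : W → W → BB s} (h : Stg s s1 R)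
    (hR : PreV R) (q : W → W) (p : Cond W K L) (hp : Low s.1 p.2) :
    ∃ b : Dt W K L, b ≠ ⊥ ∧ b ≤ io (p, s1) ∧ ∀ z, b ≤ ⨆ ξ : Ici z, Gn h hR (q ξ.1) := by
  have hr : ∀ ξ, SO s1 (upd p s.1 (q ξ)) p := fun ξ => Ord_upd (hp s.1 le_rfl) _
  obtain ⟨p', hp', hcl⟩ : ∃ p', SO s1 p' p ∧ ∀ p'', SO s1 p'' p' → ∀ β, ∃ ξ, β ≤ ξ ∧
      ∃ u, SO s1 u p'' ∧ SO s1 u (upd p s.1 (q ξ)) := by
    by_contra hcon
    have hcon' : ∀ p', SO s1 p' p → ∃ p'', SO s1 p'' p' ∧ ∃ β, ∀ ξ, β ≤ ξ →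
        ∀ u, SO s1 u p'' → ¬ SO s1 u (upd p s.1 (q ξ)) := by
      intro p' hp'
      by_contra h1
      refine hcon ⟨p', hp', fun p'' h2 β => ?_⟩
      by_contra h3
      exact h1 ⟨p'', h2, β, fun ξ h4 u h5 h6 => h3 ⟨ξ, h4, u, h5, h6⟩⟩
    obtain ⟨t', ht', M, hM, hMS, hMd⟩ := (TCC_all H s1.2 s1.1).pred (ι := Unit)
      (fun _ => {v | (∀ u, SO s1 u v → ¬ SO s1 u p) ∨
        ∃ β, ∀ ξ, β ≤ ξ → ∀ u, SO s1 u v → ¬ SO s1 u (upd p s.1 (q ξ))}) p.1 (by
        intro _ v _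
        by_cases h1 : ∃ u, SO s1 u v ∧ SO s1 u p
        · obtain ⟨u, h2, h3⟩ := h1
          obtain ⟨p'', h4, h5⟩ := hcon' u h3
          exact ⟨p'', Loc_trans h4 h2, Or.inr h5⟩
        · exact ⟨v, Loc_refl s1 v, Or.inl fun u h2 h3 => h1 ⟨u, h2, h3⟩⟩)
    have hne : Nonempty W := ⟨H.finW.some.symm ∅⟩
    have hf : ∀ m, ∃ β : W, m ∈ M () → (∀ u, SO s1 u m → ¬ SO s1 u p) ∨
        ∀ ξ, β ≤ ξ → ∀ u, SO s1 u m → ¬ SO s1 u (upd p s.1 (q ξ)) := by
      intro m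
      by_cases h1 : m ∈ M ()
      · rcases hMS () h1 with h2 | ⟨β, h2⟩
        · exact ⟨hne.some, fun _ => Or.inl h2⟩
        · exact ⟨β, fun _ => Or.inr h2⟩
      · exact ⟨hne.some, fun h2 => absurd h2 h1⟩
    choose f hf using hf
    obtain ⟨β, hβ⟩ : ∃ β, ∀ m ∈ M (), f m ≤ β := by
      rcases (M ()).eq_empty_or_nonempty with h1 | h1
      · exact ⟨hne.some, fun m hm => by
          rw [h1] at hm
          exact absurd hm (Set.notMem_empty m)⟩
      · obtain ⟨e, he⟩ := (hM ()).exists_eq_range h1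
        obtain ⟨b, hb⟩ := H.bdW fun n => f (e n)
        refine ⟨b, fun m hm => ?_⟩
        rw [he] at hm
        obtain ⟨n, rfl⟩ := hm
        exact (hb n).le
    have hv : SO s1 (setT t' (upd p s.1 (q β))) (upd p s.1 (q β)) := Ord_setT _ _ ht'
    obtain ⟨m, hm, u, hu1, hu2⟩ := hMd () (setT t' (upd p s.1 (q β))) (tl_refl _)
    rcases hf m hm with h1 | h1
    · exact h1 u hu2 (Loc_trans (Loc_trans hu1 hv) (hr β))
    · exact h1 β (hβ m hm) u hu2 (Loc_trans hu1 hv)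
  refine ⟨io (p', s1), io_ne_bot _, io_mono (show PLe (p', s1) (p, s1) from ⟨SLe.refl _, hp'⟩),
    fun z => ?_⟩
  rw [le_io_iff]
  change InD p' s1 _
  rw [Loc_mem_iSup]
  intro w t ht hw
  obtain ⟨ξ, hξ, u, hu1, hu2⟩ := hcl w hw z
  have h1 : SO s1 (glue s1.1 u w) (upd p s.1 (q ξ)) := Loc_trans (Loc_glue u w) hu2
  obtain ⟨y', h2, h3⟩ := h.le (SLe.refl s1) h1 (upd_self p s.1 (q ξ))
  exact ⟨glue s1.1 u w, t, SLe.refl t, SO_glue ht hu1, ⟨ξ, hξ⟩, StageG_mem h hR ht h2 h3⟩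

end MOF
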