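import Pool.Agent.W_3b51b4_h32.OcaPrep
import Pool.Agent.W_3b51b4_h32.RegB
import Pool.Agent.W_3b51b4_h32.StageG

set_option autoImplicit false
set_option linter.unusedSectionVars false

/-!
# MP_3b51b4_gt : the Open Colouring Axiom

Suppose that the second alternative fails for `c`; then `hno` of `oca_prep` holds (by `cover_of_trees`, with `C n x = brV (T n) x`).  `oca_prep` gives `p`, `s`.
Let `X' x = tr s (X (em ∘ x))`, `U' σ τ = tr s (U σ τ)`, `b0 = io p`.  `X'` is extensional (`tr` of `hX`: `tr s (eqV (em ∘ x) (em ∘ y))` is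
`eqV x y`; or: `InB q (X' x)`, `InB q (eqV x y)` implies `InD q s (eqV (em ∘ x) (em ∘ y))`).  `clique_poset (chb H s)` with `code_tr` gives `y`, `Q`, `q`.
`exists_stg H s Q` gives `s1`, `Gn_unb` for `q` and `p` gives `b ≤ io (p, s1)`.  Let `Z ξ = Gn (q ξ)`, and `ym ξ n = em s (y ξ n)`.
`b ≤ io (p, s1) ≤ io (p, s) ≤ c`, `io (p, s) = em s (io p) = em s b0` (`em_io`).
* `b ⊓ Z ξ ≤ em s b0 ≤ em s (X' (y ξ)) = On s ⊓ X (ym ξ) ≤ X (ym ξ)` (`on_inf`, `loc`).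
* `b ⊓ (Z ξ ⊓ Z η) ≤ ⨆ z, em s (Q z (q ξ)) ⊓ em s (Q z (q η))` (`Gn_dir`), and `em s b0 ⊓ em s (Q z (q ξ) ⊓ Q z (q η)) ≤ em s (opV U' (y ξ) (y η))`.
  `em s (opV U' (y ξ) (y η)) = On s ⊓ opV U (ym ξ) (ym η)`: `on_inf` for `opV U (ym ξ) (ym η)` (`loc_op`, `tr_op`, `tr_em`).
-/

open Cardinal Set IM

namespace MOF

open Pool.Agent.W_MP_315f31_lc W61 MAO

variable {W K L : Type} [LinearOrder W] [WellFoundedLT W] [LinearOrder L] [WellFoundedLT L]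

theorem OcaFin_tr_mono {s : Plan W K L} {u v : Dt W K L} (h : u ≤ v) : tr s u ≤ tr s v := by
  intro p hp
  exact h hp

theorem OcaFin_tr_eq (s : Plan W K L) (x y : ℕ → BB s) :
    tr s (eqV (fun n => em s (x n)) (fun n => em s (y n))) = eqV x y := by
  unfold eqV
  rw [tr_iInf]
  refine iInf_congr fun n => ?_
  rw [tr_inf, tr_sup (loc_compl (loc_em s (x n))) (loc_em s (y n)),
    tr_sup (loc_compl (loc_em s (y n))) (loc_em s (x n)), tr_compl (loc_em s (x n)),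
    tr_compl (loc_em s (y n)), tr_em, tr_em]

theorem oca_core (H : Hyp W K L) (X : (ℕ → Dt W K L) → Dt W K L)
    (U : List Bool → List Bool → Dt W K L) (hX : ∀ x y, X x ⊓ eqV x y ≤ X y) (hU : CodeV U)
    (c : Dt W K L) (hc : c ≠ ⊥) :
    (∃ (b : Dt W K L) (Z : W → Dt W K L) (y : W → ℕ → Dt W K L), b ≠ ⊥ ∧ b ≤ c ∧
      (∀ z, b ≤ ⨆ a : Ici z, Z a.1) ∧ (∀ a, b ⊓ Z a ≤ X (y a)) ∧
      ∀ a a', a ≠ a' → b ⊓ (Z a ⊓ Z a') ≤ opV U (y a) (y a')) ∨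
    (∃ (b : Dt W K L) (C : ℕ → (ℕ → Dt W K L) → Dt W K L), b ≠ ⊥ ∧ b ≤ c ∧
      (∀ n x y, C n x ⊓ eqV x y ≤ C n y) ∧ (∀ x, b ⊓ X x ≤ ⨆ n, C n x) ∧
      ∀ n x y, b ⊓ (X x ⊓ X y) ⊓ (C n x ⊓ C n y) ⊓ opV U x y = ⊥) := by
  rcases Classical.em (∃ (b : Dt W K L) (C : ℕ → (ℕ → Dt W K L) → Dt W K L), b ≠ ⊥ ∧ b ≤ c ∧
      (∀ n x y, C n x ⊓ eqV x y ≤ C n y) ∧ (∀ x, b ⊓ X x ≤ ⨆ n, C n x) ∧
      ∀ n x y, b ⊓ (X x ⊓ X y) ⊓ (C n x ⊓ C n y) ⊓ opV U x y = ⊥) with h2 | h2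
  · exact Or.inr h2
  left
  have hno : ∀ b ≤ c, b ≠ ⊥ → ∀ T : ℕ → List Bool → Dt W K L,
      (∀ n s t, b ⊓ (T n s ⊓ T n t ⊓ U s t) = ⊥) → ∃ x, ¬ (b ⊓ X x ≤ ⨆ n, brV (T n) x) := by
    intro b hb hbn T hT
    by_contra hcon
    push Not at hcon
    obtain ⟨e1, e2, e3⟩ := cover_of_trees hcon hT
    exact h2 ⟨b, fun n x => brV (T n) x, hbn, hb, e1, e2, e3⟩
  obtain ⟨p, s, hpc, hlow, hlocU, hlocX, hpT⟩ := oca_prep H hX hc hno
  have hX' : ∀ x y : ℕ → BB s, tr s (X fun n => em s (x n)) ⊓ eqV x y ≤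
      tr s (X fun n => em s (y n)) := by
    intro x y
    rw [← OcaFin_tr_eq, ← tr_inf]
    exact OcaFin_tr_mono (hX _ _)
  obtain ⟨y, Q, q, hQp, hQc, hy1, hy2⟩ := clique_poset (X := fun x => tr s (X fun n => em s (x n)))
    (U := fun σ τ => tr s (U σ τ)) (b0 := io p) (chb H s) hX' (code_tr hU) hpT
  obtain ⟨s1, hst⟩ := exists_stg H s Q hQp hQc
  obtain ⟨b, hbn, hb, hunb⟩ := Gn_unb H hst hQp q p hlow
  have hio : (io (p, s1) : Dt W K L) ≤ io (p, s) :=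
    le_io_iff.2 (RO.mem_lower (P := PL (PLe (W := W) (K := K) (L := L))) (mem_io_self (p, s))
      (show PLe (p, s1) (p, s) from ⟨hst.ext, Loc_refl s p⟩))
  have hbs : b ≤ em s (io p : BB s) := by
    rw [em_io]
    exact hb.trans hio
  refine ⟨b, fun ξ => Gn hst hQp (q ξ), fun ξ n => em s (y ξ n), hbn, ?_, hunb, ?_, ?_⟩
  · exact (hb.trans hio).trans (le_io_iff.2 hpc)
  · intro ξ
    have h3 : em s (io p : BB s) ≤ em s (tr s (X fun n => em s (y ξ n))) := em_le.2 (hy1 ξ)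
    rw [← on_inf (hlocX (y ξ))] at h3
    exact inf_le_left.trans ((hbs.trans h3).trans inf_le_right)
  · intro ξ η hξη
    have hl1 : ∀ n, Loc s (em s (y ξ n)) := fun n => loc_em s _
    have hl2 : ∀ n, Loc s (em s (y η n)) := fun n => loc_em s _
    have h3 := tr_op hlocU hl1 hl2
    simp only [tr_em] at h3
    have h4 := on_inf (loc_op hlocU hl1 hl2)
    rw [h3] at h4
    have h5 : em s (io p : BB s) ⊓ (Gn hst hQp (q ξ) ⊓ Gn hst hQp (q η)) ≤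
        em s (opV (fun σ τ => tr s (U σ τ)) (y ξ) (y η)) := by
      refine (inf_le_inf_left _ (Gn_dir hst hQp (q ξ) (q η))).trans ?_
      rw [inf_iSup_eq]
      refine iSup_le fun z => ?_
      refine (inf_le_inf_left _ inf_le_right).trans ?_
      rw [← em_inf, ← em_inf]
      exact em_le.2 (hy2 ξ η z hξη)
    rw [← h4] at h5
    exact (inf_le_inf_right _ hbs).trans (h5.trans inf_le_right)

end MOF
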