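import Pool.Agent.W_3b51b4_h32.LocE
import Pool.Agent.W_3b51b4_h32.ClV

set_option autoImplicit false
set_option linter.unusedSectionVars false

/-!
# MP_3b51b4_gt : transfer of the values of the Open Colouring Axiom

The first part is in a complete Boolean algebra `B`: `b ⊓ u = b ⊓ v` is preserved by all operations.  The second part: `tr s` commutes with the
operations for local elements (`tr_iInf`, `tr_iSup`, `tr_compl`, `tr_inf`, `tr_sup`, `loc_*`).  `iniV` is an infimum of `if .. then x i else (x i)ᶜ`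
(split the `if`); `brV T x = ⨅ s, (iniV s x)ᶜ ⊔ T s`; `nfV U T = ⨆ s t, T s ⊓ T t ⊓ U s t`; `opV U x y = ⨆ s t, U s t ⊓ (iniV s x ⊓ iniV t y)`.
-/

universe u v

open Cardinal Set IM

namespace MOF

open Pool.Agent.W_MP_315f31_lc W61 MAO

section
variable {B : Type u} [CompleteBooleanAlgebra B]

theorem inf_compl_congr {b u v : B} (h : b ⊓ u = b ⊓ v) : b ⊓ uᶜ = b ⊓ vᶜ := by
  have key : ∀ w : B, b ⊓ wᶜ = b ⊓ (b ⊓ w)ᶜ := fun w => by
    rw [compl_inf, inf_sup_left, inf_compl_self, bot_sup_eq]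
  rw [key u, h, ← key v]

theorem inf_iInf_congr {ι : Type v} {b : B} {u v : ι → B} (h : ∀ i, b ⊓ u i = b ⊓ v i) :
    b ⊓ ⨅ i, u i = b ⊓ ⨅ i, v i := by
  exact le_antisymm
    (le_inf inf_le_left (le_iInf fun i =>
      (inf_le_inf_left b (iInf_le u i)).trans ((h i).le.trans inf_le_right)))
    (le_inf inf_le_left (le_iInf fun i =>
      (inf_le_inf_left b (iInf_le v i)).trans ((h i).ge.trans inf_le_right)))

theorem inf_iSup_congr {ι : Type v} {b : B} {u v : ι → B} (h : ∀ i, b ⊓ u i = b ⊓ v i) :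
    b ⊓ ⨆ i, u i = b ⊓ ⨆ i, v i := by
  rw [inf_iSup_eq, inf_iSup_eq]
  exact iSup_congr h

theorem inf_sup_congr {b u v u' v' : B} (h : b ⊓ u = b ⊓ v) (h' : b ⊓ u' = b ⊓ v') :
    b ⊓ (u ⊔ u') = b ⊓ (v ⊔ v') := by
  rw [inf_sup_left, inf_sup_left, h, h']

theorem inf_inf_congr {b u v u' v' : B} (h : b ⊓ u = b ⊓ v) (h' : b ⊓ u' = b ⊓ v') :
    b ⊓ (u ⊓ u') = b ⊓ (v ⊓ v') := by
  rw [inf_inf_distrib_left b u u', inf_inf_distrib_left b v v', h, h']

theorem ini_congr {b : B} {x x' : ℕ → B} (h : ∀ n, b ⊓ x n = b ⊓ x' n) (s : List Bool) :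
    b ⊓ iniV s x = b ⊓ iniV s x' := by
  refine inf_iInf_congr fun i => ?_
  split_ifs
  · exact h _
  · exact inf_compl_congr (h _)

theorem br_congr {b : B} {x x' : ℕ → B} {T T' : List Bool → B} (h : ∀ n, b ⊓ x n = b ⊓ x' n)
    (hT : ∀ s, b ⊓ T s = b ⊓ T' s) : b ⊓ brV T x = b ⊓ brV T' x' := by
  exact inf_iInf_congr fun s => inf_sup_congr (inf_compl_congr (ini_congr h s)) (hT s)

theorem nf_congr {b : B} {T T' : List Bool → B} {U U' : List Bool → List Bool → B}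
    (hU : ∀ s t, b ⊓ U s t = b ⊓ U' s t) (hT : ∀ s, b ⊓ T s = b ⊓ T' s) :
    b ⊓ nfV U T = b ⊓ nfV U' T' := by
  exact inf_iSup_congr fun s => inf_iSup_congr fun t =>
    inf_inf_congr (inf_inf_congr (hT s) (hT t)) (hU s t)

theorem op_congr {b : B} {x x' y y' : ℕ → B} {U U' : List Bool → List Bool → B}
    (hU : ∀ s t, b ⊓ U s t = b ⊓ U' s t) (h : ∀ n, b ⊓ x n = b ⊓ x' n)
    (h' : ∀ n, b ⊓ y n = b ⊓ y' n) : b ⊓ opV U x y = b ⊓ opV U' x' y' := by
  exact inf_iSup_congr fun s => inf_iSup_congr fun t =>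
    inf_inf_congr (hU s t) (inf_inf_congr (ini_congr h s) (ini_congr h' t))

theorem OcaTr_le {b u v : B} (h : b ⊓ u = b ⊓ v) : b ≤ uᶜ ⊔ v := by
  rw [sup_comm, ← himp_eq, le_himp_iff, h]
  exact inf_le_right

theorem OcaTr_eqV {b : B} {x x' : ℕ → B} (h : ∀ n, b ⊓ x n = b ⊓ x' n) : b ≤ eqV x x' :=
  le_iInf fun n => le_inf (OcaTr_le (h n)) (OcaTr_le (h n).symm)

theorem OcaTr_ext {X : (ℕ → B) → B} (hX : ∀ x y, X x ⊓ eqV x y ≤ X y) {b : B} {x x' : ℕ → B}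
    (h : ∀ n, b ⊓ x n = b ⊓ x' n) : b ⊓ X x ≤ b ⊓ X x' :=
  le_inf inf_le_left ((le_inf inf_le_right (inf_le_left.trans (OcaTr_eqV h))).trans (hX x x'))

/-- an extensional function -/
theorem ext_congr {X : (ℕ → B) → B} (hX : ∀ x y, X x ⊓ eqV x y ≤ X y) {b : B} {x x' : ℕ → B}
    (h : ∀ n, b ⊓ x n = b ⊓ x' n) : b ⊓ X x = b ⊓ X x' := by
  exact le_antisymm (OcaTr_ext hX h) (OcaTr_ext hX fun n => (h n).symm)

end

variable {W K L : Type u} [LinearOrder W] [LinearOrder L] [WellFoundedLT L]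

theorem loc_ini {s : Plan W K L} {x : ℕ → Dt W K L} (h : ∀ n, Loc s (x n)) (σ : List Bool) :
    Loc s (iniV σ x) := by
  refine loc_iInf fun i => ?_
  split_ifs
  · exact h _
  · exact loc_compl (h _)

theorem tr_ini {s : Plan W K L} {x : ℕ → Dt W K L} (h : ∀ n, Loc s (x n)) (σ : List Bool) :
    tr s (iniV σ x) = iniV σ (fun n => tr s (x n)) := by
  unfold iniV
  rw [tr_iInf]
  refine iInf_congr fun i => ?_
  split_ifs
  · rfl
  · exact tr_compl (h _)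

theorem loc_br {s : Plan W K L} {x : ℕ → Dt W K L} {T : List Bool → Dt W K L}
    (h : ∀ n, Loc s (x n)) (hT : ∀ σ, Loc s (T σ)) : Loc s (brV T x) := by
  exact loc_iInf fun σ => loc_sup (loc_compl (loc_ini h σ)) (hT σ)

theorem tr_br {s : Plan W K L} {x : ℕ → Dt W K L} {T : List Bool → Dt W K L}
    (h : ∀ n, Loc s (x n)) (hT : ∀ σ, Loc s (T σ)) :
    tr s (brV T x) = brV (fun σ => tr s (T σ)) (fun n => tr s (x n)) := by
  unfold brV
  rw [tr_iInf]
  refine iInf_congr fun σ => ?_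
  rw [tr_sup (loc_compl (loc_ini h σ)) (hT σ), tr_compl (loc_ini h σ), tr_ini h σ]

theorem loc_nf {s : Plan W K L} {U : List Bool → List Bool → Dt W K L} {T : List Bool → Dt W K L}
    (hU : ∀ σ τ, Loc s (U σ τ)) (hT : ∀ σ, Loc s (T σ)) : Loc s (nfV U T) := by
  exact loc_iSup fun σ => loc_iSup fun τ => loc_inf (loc_inf (hT σ) (hT τ)) (hU σ τ)

theorem tr_nf {s : Plan W K L} {U : List Bool → List Bool → Dt W K L} {T : List Bool → Dt W K L}
    (hU : ∀ σ τ, Loc s (U σ τ)) (hT : ∀ σ, Loc s (T σ)) :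
    tr s (nfV U T) = nfV (fun σ τ => tr s (U σ τ)) (fun σ => tr s (T σ)) := by
  unfold nfV
  rw [tr_iSup fun σ => loc_iSup fun τ => loc_inf (loc_inf (hT σ) (hT τ)) (hU σ τ)]
  refine iSup_congr fun σ => ?_
  rw [tr_iSup fun τ => loc_inf (loc_inf (hT σ) (hT τ)) (hU σ τ)]
  refine iSup_congr fun τ => ?_
  rw [tr_inf, tr_inf]

theorem tr_op {s : Plan W K L} {U : List Bool → List Bool → Dt W K L} {x y : ℕ → Dt W K L}
    (hU : ∀ σ τ, Loc s (U σ τ)) (hx : ∀ n, Loc s (x n)) (hy : ∀ n, Loc s (y n)) :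
    tr s (opV U x y) = opV (fun σ τ => tr s (U σ τ)) (fun n => tr s (x n)) (fun n => tr s (y n)) := by
  unfold opV
  rw [tr_iSup fun σ => loc_iSup fun τ =>
    loc_inf (hU σ τ) (loc_inf (loc_ini hx σ) (loc_ini hy τ))]
  refine iSup_congr fun σ => ?_
  rw [tr_iSup fun τ => loc_inf (hU σ τ) (loc_inf (loc_ini hx σ) (loc_ini hy τ))]
  refine iSup_congr fun τ => ?_
  rw [tr_inf, tr_inf, tr_ini hx σ, tr_ini hy τ]

theorem loc_op {s : Plan W K L} {U : List Bool → List Bool → Dt W K L} {x y : ℕ → Dt W K L}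
    (hU : ∀ σ τ, Loc s (U σ τ)) (hx : ∀ n, Loc s (x n)) (hy : ∀ n, Loc s (y n)) :
    Loc s (opV U x y) := by
  exact loc_iSup fun σ => loc_iSup fun τ =>
    loc_inf (hU σ τ) (loc_inf (loc_ini hx σ) (loc_ini hy τ))

theorem code_tr {s : Plan W K L} {U : List Bool → List Bool → Dt W K L} (hU : CodeV U) :
    CodeV (fun σ τ => tr s (U σ τ)) := by
  constructor
  · intro σ τ
    rw [hU.symm]
  · intro σ
    rw [hU.irr, tr_bot]
  · intro σ τ h
    rw [hU.len σ τ h, tr_bot]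
  · intro σ τ σ' τ' h1 h2 h3 h4 p hp
    exact hU.mono σ τ σ' τ' h1 h2 h3 h4 hp

end MOF
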