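import Pool.Agent.W_3b51b4_h32.OcaDense
import Pool.Agent.W_3b51b4_h32.OcaTr

set_option autoImplicit false
set_option linter.unusedSectionVars false

/-!
# MP_3b51b4_gt : the Open Colouring Axiom, the closed plan

Let `io (p0, s0) ≤ c`; we may take `p0` with `Low s0.1 p0.2` (replace `p0` by `cut s0.1 p0`: `(cut s0.1 p0, s0) ≤ (p0, s0)`).
Index set `J = (List Bool × List Bool) ⊕ {N : ℕ → ℕ → Option (Fn L W)} ⊕ {N : ℕ × List Bool → ℕ → Option (Fn L W)}` (all names, `sp N = {b | ∃ i k f, N i k = some f ∧ f.1 b ≠ none}`,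
countable; `sp N ⊆ Iio a ↔ LowN a N`; `sp (σ, τ) = ∅`).  `#{j // sp j ⊆ Iio a} ≤ #K`: `card_N` for `I = ℕ` and `I = ℕ × List Bool`, `aleph0_le_K`.  The dense open sets:
* `d (σ, τ) = {(q, t) | InD q t (U σ τ) ∨ InD q t (U σ τ)ᶜ}`;
* `d N = {(q, t) | InD q t (X (nv N)) ∨ InD q t (X (nv N))ᶜ}` for `N : ℕ → ℕ → _`;
* `d N = {(q, t) | (∀ z, PLe z (q, t) → ¬ PLe z (p0, s0)) ∨ ∃ N', LowN t.1 N' ∧ InD q t (PhiV X U (fun n σ => nv N (n, σ)) (nv N'))}` for `N : ℕ × List Bool → ℕ → _`;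
  dense: if the first alternative fails for `(q, t)`, there is an extension `z` of `(q, t)` and `(p0, s0)`, and `phi_dense` applies to `z`.  Open: `LowN.mono`, `RO.mem_lower`.
`clo` gives `s` extending `s0`; take `p = p0`; `InD p0 s c`.
* `Loc s (U σ τ)`: `loc_of_dec`.
* `Loc s (X (em ∘ x))` for `x : ℕ → BB s`: `loc_of_dec`: let `p` be given.  `cnB` gives `t' ≤ p.1` and `N`, `LowN s.1 N`.  The density of `d N` for `s` gives
  `q ≤ setT t' p` (`SO s`) with `InD q s (X (nv N))` or its complement.  For `b = io (q, s)`: `b ⊓ em s (x n) = b ⊓ nv N n` (elements `(r, s'')` below `(q, s)`: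
  `mem_em`, `loc_nv`, `cnB`), so `b ⊓ X (em ∘ x) = b ⊓ X (nv N)` (`ext_congr`), and `(q, s)` decides `X (em ∘ x)`.
* The last property: let `T` and `q ≤ p0` (`SO s`) be given; we want `r ≤ q` and `x` with `r` in the value for `x` (`RO.mem_iSup`).  `cnB` for
  `I = ℕ × List Bool`, `(n, σ) ↦ T n σ`, gives `t' ≤ q.1` and `N`.  `d N` is dense for `s`: `r ≤ setT t' q` (`SO s`) with `(r, s) ∈ d N`.  `(r, s) ≤ (p0, s) ≤ (p0, s0)`, so
  there is `N'`, `LowN s.1 N'`, `InD r s (PhiV X U (fun n σ => nv N (n, σ)) (nv N'))`.  Let `x n = tr s (nv N' n)`.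
  `em s (x n) = On s ⊓ nv N' n` (`on_inf`, `loc_nv`), so `InD r s (X (em ∘ x))` (`ext_congr` with `b = io (r, s) ≤ On s`), that is `InB r (tr s (X (em ∘ x)))`.
  `InB r (tr s ((brV (..) (nv N'))ᶜ ⊔ nfV U (..)))` and by `tr_sup`, `tr_compl`, `tr_br`, `tr_nf` this is
  `(brV (fun σ => tr s (nv N (n, σ))) x)ᶜ ⊔ nfV (tr U) (fun σ => tr s (nv N (n, σ)))`; and with `b = io r`, `b ⊓ tr s (nv N (n, σ)) = b ⊓ T n σ`, replace
  (`inf_sup_congr`, `inf_compl_congr`, `br_congr`, `nf_congr`).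
-/

open Cardinal Set IM

namespace MOF

open Pool.Agent.W_MP_315f31_lc W61 MAO

variable {W K L : Type} [LinearOrder W] [WellFoundedLT W] [LinearOrder L] [WellFoundedLT L]

/-- the set of the coordinates which occur in a name -/
def OcaPrep_sp {I : Type} (N : I → ℕ → Option (Fn L W)) : Set L :=
  {b | ∃ i k f, N i k = some f ∧ f.1 b ≠ none}

theorem OcaPrep_sp_c {I : Type} [Countable I] (N : I → ℕ → Option (Fn L W)) :
    (OcaPrep_sp N).Countable := by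
  have h1 : OcaPrep_sp N ⊆ ⋃ i : I, ⋃ k : ℕ, {b | ∃ f, N i k = some f ∧ f.1 b ≠ none} := by
    rintro b ⟨i, k, f, h1, h2⟩
    exact Set.mem_iUnion.2 ⟨i, Set.mem_iUnion.2 ⟨k, f, h1, h2⟩⟩
  refine Set.Countable.mono h1 (Set.countable_iUnion fun i => Set.countable_iUnion fun k => ?_)
  rcases h : N i k with _ | f
  · have h2 : {b : L | ∃ f : Fn L W, (none : Option (Fn L W)) = some f ∧ f.1 b ≠ none} = ∅ := by
      ext b
      simp
    rw [h2]
    exact Set.countable_empty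
  · refine Set.Countable.mono ?_ f.2.countable
    rintro b ⟨g, hg, hb⟩
    have : f = g := Option.some.inj hg
    subst this
    exact hb

theorem OcaPrep_sp_iff {I : Type} {N : I → ℕ → Option (Fn L W)} {a : L} :
    OcaPrep_sp N ⊆ Iio a ↔ LowN a N := by
  constructor
  · intro h i k f hf b hb
    by_contra hne
    exact absurd (h ⟨i, k, f, hf, hne⟩) (not_lt.2 hb)
  · rintro h b ⟨i, k, f, hf, hb⟩
    by_contra hne
    exact hb (h i k f hf b (not_lt.1 hne))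

theorem OcaPrep_low_mono {I : Type} {N : I → ℕ → Option (Fn L W)} {a b : L} (h : LowN a N)
    (hab : a ≤ b) : LowN b N := fun i k f hf => (h i k f hf).mono hab

theorem OcaPrep_io {s : Plan W K L} {r : Cond W K L} {x y : BB s}
    (h : ∀ q, SO s q r → (InB q x ↔ InB q y)) : (io r : BB s) ⊓ x = io r ⊓ y := by
  have key : ∀ {x y : BB s}, (∀ q, SO s q r → InB q x → InB q y) →
      (io r : BB s) ⊓ x ≤ io r ⊓ y := by
    intro x y h
    refine le_inf inf_le_left fun q hq => ?_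
    refine RO.mem_of_dense fun q' hq' => ?_
    obtain ⟨t, ht, ht'⟩ := hq.1 q' hq'
    have ht1 : (show PL (SO s) from t) ≤ q' := ht
    exact ⟨t, ht, h t ht' (RO.mem_lower hq.2 (ht1.trans hq'))⟩
  exact le_antisymm (key fun q hq => (h q hq).1) (key fun q hq => (h q hq).2)

theorem OcaPrep_agree {s : Plan W K L} {r : Cond W K L} {x : BB s} {u : Dt W K L} (hu : Loc s u)
    (h : ∀ q, SO s q r → (InB q x ↔ InD q s u)) :
    (io (r, s) : Dt W K L) ⊓ em s x = io (r, s) ⊓ u := by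
  have h1 : (io (r, s) : Dt W K L) ⊓ u = io (r, s) ⊓ em s (tr s u) := by
    rw [← on_inf hu, ← inf_assoc, inf_eq_left.2 (io_le_on r)]
  rw [h1, ← em_io, ← em_inf, ← em_inf, OcaPrep_io (y := tr s u) h]

theorem OcaPrep_locX (H : Hyp W K L) {X : (ℕ → Dt W K L) → Dt W K L}
    (hX : ∀ x y, X x ⊓ eqV x y ≤ X y) {s : Plan W K L}
    (hd : ∀ N : ℕ → ℕ → Option (Fn L W), LowN s.1 N →
      DnsS s {y | InD y.1 y.2 (X (nv N)) ∨ InD y.1 y.2 (X (nv N))ᶜ}) (x : ℕ → BB s) :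
    Loc s (X fun n => em s (x n)) := by
  refine loc_of_dec fun p => ?_
  obtain ⟨t', N, ht', hN, hNx⟩ := cnB H s x p.1
  obtain ⟨q, hq, hqd⟩ := hd N hN (setT t' p)
  have hqp : SO s q p := Loc_trans hq (Ord_setT _ _ ht')
  have h1 : ∀ n, (io (q, s) : Dt W K L) ⊓ em s (x n) = io (q, s) ⊓ nv N n := fun n =>
    OcaPrep_agree (loc_nv hN n) fun r hr =>
      hNx n r (tl_trans (Ord_iff.1 hr).1 (Ord_iff.1 hq).1)
  have h2 := ext_congr hX h1
  refine ⟨q, hqp, ?_⟩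
  rcases hqd with h3 | h3
  · left
    have h4 : (io (q, s) : Dt W K L) ≤ X (nv N) := le_io_iff.2 h3
    have h5 : (io (q, s) : Dt W K L) ≤ X fun n => em s (x n) := by
      rw [← inf_eq_left, h2, inf_eq_left]
      exact h4
    exact le_io_iff.1 h5
  · right
    have h4 : (io (q, s) : Dt W K L) ≤ (X (nv N))ᶜ := le_io_iff.2 h3
    have h5 : (io (q, s) : Dt W K L) ≤ (X fun n => em s (x n))ᶜ := by
      rw [← inf_eq_left, inf_compl_congr h2, inf_eq_left]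
      exact h4
    exact le_io_iff.1 h5

theorem OcaPrep_last (H : Hyp W K L) {X : (ℕ → Dt W K L) → Dt W K L}
    (hX : ∀ x y, X x ⊓ eqV x y ≤ X y) {U : List Bool → List Bool → Dt W K L}
    {p0 : Cond W K L} {s0 s : Plan W K L} (hs : SLe s s0) (hU : ∀ σ τ, Loc s (U σ τ))
    (hd : ∀ N : ℕ × List Bool → ℕ → Option (Fn L W), LowN s.1 N →
      DnsS s {y | (∀ z, PLe z y → ¬ PLe z (p0, s0)) ∨ ∃ N', LowN y.2.1 N' ∧
        InD y.1 y.2 (PhiV X U (fun n σ => nv N (n, σ)) (nv N'))})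
    (T : ℕ → List Bool → BB s) : (io p0 : BB s) ≤ ⨆ x : ℕ → BB s,
        tr s (X fun n => em s (x n)) ⊓ ⨅ n, (brV (T n) x)ᶜ ⊔ nfV (fun σ τ => tr s (U σ τ)) (T n) := by
  refine le_io_iff.2 ((RO.mem_iSup _ _).2 fun q hq => ?_)
  have hq' : SO s q p0 := hq
  obtain ⟨t', N, ht', hN, hNx⟩ := cnB H s (fun i : ℕ × List Bool => T i.1 i.2)
    (show Cond W K L from q).1
  obtain ⟨r, hr, hrd⟩ := hd N hN (setT t' q)
  have hrq : SO s r q := Loc_trans hr (Ord_setT _ _ ht')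
  have hrp : PLe (r, s) (p0, s0) := ⟨hs, SO_of_ext hs (Loc_trans hrq hq')⟩
  rcases hrd with h | ⟨N', hN', hPhi⟩
  · exact absurd hrp (h (r, s) (IsPre.refl _))
  have hPhi1 : InD r s (X (nv N')) := hPhi.1
  have hPhi2 : InD r s (⨅ n, (brV (fun σ => nv N (n, σ)) (nv N'))ᶜ ⊔
      nfV U (fun σ => nv N (n, σ))) := hPhi.2
  have hN'l : ∀ n, Loc s (nv N' n : Dt W K L) := fun n => loc_nv hN' n
  have hNl : ∀ i, Loc s (nv N i : Dt W K L) := fun i => loc_nv hN i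
  refine ⟨r, hrq, fun n => tr s (nv N' n), ?_, ?_⟩
  · have h1 : ∀ n, On s ⊓ nv N' n = On s ⊓ em s (tr s (nv N' n)) := fun n => by
      rw [← on_inf (hN'l n), ← inf_assoc, inf_idem]
    have h2 := ext_congr hX h1
    have h3 : InD r s (On s ⊓ X (nv N')) := ⟨LocE_mem_on (SLe.refl s) r, hPhi1⟩
    rw [h2] at h3
    exact h3.2
  · refine (RO.mem_iInf (P := PL (SO s)) _ _).2 fun n => ?_
    have h1 : InD r s ((brV (fun σ => nv N (n, σ)) (nv N'))ᶜ ⊔
      nfV U (fun σ => nv N (n, σ))) := (Loc_mem_iInf _).1 hPhi2 n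
    have h2 : InB r (tr s ((brV (fun σ => nv N (n, σ)) (nv N'))ᶜ ⊔
      nfV U (fun σ => nv N (n, σ)))) := h1
    have hb : Loc s (brV (fun σ => (nv N (n, σ) : Dt W K L)) (nv N')) :=
      loc_br hN'l fun σ => hNl (n, σ)
    rw [tr_sup (loc_compl hb) (loc_nf hU fun σ => hNl (n, σ)), tr_compl hb,
      tr_br hN'l (fun σ => hNl (n, σ)), tr_nf hU (fun σ => hNl (n, σ))] at h2
    have h3 : ∀ σ, (io r : BB s) ⊓ tr s (nv N (n, σ)) = io r ⊓ T n σ := fun σ =>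
      OcaPrep_io fun q1 hq1 => (hNx (n, σ) q1 (tl_trans (Ord_iff.1 hq1).1
        (Ord_iff.1 hr).1)).symm
    have h4 := inf_sup_congr
      (inf_compl_congr (br_congr (x := fun n => tr s (nv N' n))
        (x' := fun n => tr s (nv N' n)) (fun _ => rfl) h3))
      (nf_congr (U := fun σ τ => tr s (U σ τ)) (U' := fun σ τ => tr s (U σ τ))
        (fun _ _ => rfl) h3)
    have h5 := le_io_iff.2 h2
    rw [← inf_eq_left, h4, inf_eq_left] at h5
    exact le_io_iff.1 h5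

theorem OcaPrep_dec_open {u : Dt W K L} {x y : Cond W K L × Plan W K L}
    (h : InD x.1 x.2 u ∨ InD x.1 x.2 uᶜ) (hy : PLe y x) :
    InD y.1 y.2 u ∨ InD y.1 y.2 uᶜ := by
  rcases h with h1 | h1
  · exact Or.inl (RO.mem_lower h1 hy)
  · exact Or.inr (RO.mem_lower h1 hy)

theorem OcaPrep_dec_dense (u : Dt W K L) (x : Cond W K L × Plan W K L) :
    ∃ y, PLe y x ∧ (InD y.1 y.2 u ∨ InD y.1 y.2 uᶜ) := by
  by_cases h1 : ∃ z, PLe z x ∧ InD z.1 z.2 u
  · obtain ⟨z, h2, h3⟩ := h1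
    exact ⟨z, h2, Or.inl h3⟩
  · exact ⟨x, IsPre.refl _, Or.inr fun z h2 h3 => h1 ⟨z, h2, h3⟩⟩

/-- the index set -/
abbrev OcaPrep_J (W L : Type) : Type := (List Bool × List Bool) ⊕
  ((ℕ → ℕ → Option (Fn L W)) ⊕ (ℕ × List Bool → ℕ → Option (Fn L W)))

/-- the coordinates of an index -/
def OcaPrep_sJ : OcaPrep_J W L → Set L
  | Sum.inl _ => ∅
  | Sum.inr (Sum.inl N) => OcaPrep_sp N
  | Sum.inr (Sum.inr N) => OcaPrep_sp N

theorem OcaPrep_card (H : Hyp W K L) (a : L) :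
    #{j : OcaPrep_J W L // OcaPrep_sJ j ⊆ Iio a} ≤ #K := by
  have h1 := card_N H ℕ a
  have h2 := card_N H (ℕ × List Bool) a
  have h3 : #(List Bool × List Bool) ≤ #K := mk_le_aleph0.trans (aleph0_le_K H)
  have h4 : #((List Bool × List Bool) ⊕
      ({N : ℕ → ℕ → Option (Fn L W) // ∀ i k f, N i k = some f → Low a f} ⊕
        {N : ℕ × List Bool → ℕ → Option (Fn L W) // ∀ i k f, N i k = some f → Low a f})) ≤ #K := by
    rw [mk_sum, mk_sum]
    simp only [lift_id]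
    exact add_le_of_le (aleph0_le_K H) h3 (add_le_of_le (aleph0_le_K H) h1 h2)
  refine (mk_le_of_surjective (f := Sum.elim
    (fun x => (⟨Sum.inl x, empty_subset _⟩ : {j : OcaPrep_J W L // OcaPrep_sJ j ⊆ Iio a}))
    (Sum.elim (fun N => ⟨Sum.inr (Sum.inl N.1), OcaPrep_sp_iff.2 N.2⟩)
      (fun N => ⟨Sum.inr (Sum.inr N.1), OcaPrep_sp_iff.2 N.2⟩))) ?_).trans h4
  rintro ⟨x | N | N, h⟩
  · exact ⟨Sum.inl x, rfl⟩
  · exact ⟨Sum.inr (Sum.inl ⟨N, OcaPrep_sp_iff.1 h⟩), rfl⟩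
  · exact ⟨Sum.inr (Sum.inr ⟨N, OcaPrep_sp_iff.1 h⟩), rfl⟩

theorem oca_prep (H : Hyp W K L) {X : (ℕ → Dt W K L) → Dt W K L}
    (hX : ∀ x y, X x ⊓ eqV x y ≤ X y) {U : List Bool → List Bool → Dt W K L} {c : Dt W K L}
    (hc : c ≠ ⊥)
    (hno : ∀ b ≤ c, b ≠ ⊥ → ∀ T : ℕ → List Bool → Dt W K L,
      (∀ n s t, b ⊓ (T n s ⊓ T n t ⊓ U s t) = ⊥) → ∃ x, ¬ (b ⊓ X x ≤ ⨆ n, brV (T n) x)) :
    ∃ (p : Cond W K L) (s : Plan W K L), InD p s c ∧ Low s.1 p.2 ∧ (∀ σ τ, Loc s (U σ τ)) ∧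
      (∀ x : ℕ → BB s, Loc s (X fun n => em s (x n))) ∧
      ∀ T : ℕ → List Bool → BB s, (io p : BB s) ≤ ⨆ x : ℕ → BB s,
        tr s (X fun n => em s (x n)) ⊓ ⨅ n, (brV (T n) x)ᶜ ⊔ nfV (fun σ τ => tr s (U σ τ)) (T n) := by
  classical
  obtain ⟨⟨p1, s0⟩, h0⟩ := exists_io_le hc
  have hp0 : InD (cut s0.1 p1) s0 c := Loc_mono (le_io_iff.1 h0) (SLe.refl s0) (Ord_cut _ _ _)
  have hlow0 : Low s0.1 (cut s0.1 p1).2 := low_cut s0.1 p1
  generalize cut s0.1 p1 = p0 at hp0 hlow0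
  let d : OcaPrep_J W L → Set (Cond W K L × Plan W K L) := fun j => match j with
    | Sum.inl x => {y | InD y.1 y.2 (U x.1 x.2) ∨ InD y.1 y.2 (U x.1 x.2)ᶜ}
    | Sum.inr (Sum.inl N) => {y | InD y.1 y.2 (X (nv N)) ∨ InD y.1 y.2 (X (nv N))ᶜ}
    | Sum.inr (Sum.inr N) => {y | (∀ z, PLe z y → ¬ PLe z (p0, s0)) ∨ ∃ N', LowN y.2.1 N' ∧
        InD y.1 y.2 (PhiV X U (fun n σ => nv N (n, σ)) (nv N'))}
  obtain ⟨s, hs, hsd⟩ := clo H OcaPrep_sJ
    (by
      rintro (x | N | N)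
      · exact Set.countable_empty
      · exact OcaPrep_sp_c N
      · exact OcaPrep_sp_c N)
    (OcaPrep_card H) d
    (by
      rintro (x | N | N) y z hy hz
      · exact OcaPrep_dec_open hy hz
      · exact OcaPrep_dec_open hy hz
      · rcases hy with hy | ⟨N', hN', hy⟩
        · exact Or.inl fun w hw => hy w (IsPre.trans (L := PLe) _ _ _ hw hz)
        · exact Or.inr ⟨N', OcaPrep_low_mono hN' hz.1.1, RO.mem_lower hy hz⟩)
    (by
      rintro (x | N | N) y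
      · exact OcaPrep_dec_dense _ y
      · exact OcaPrep_dec_dense _ y
      · by_cases h1 : ∀ z, PLe z y → ¬ PLe z (p0, s0)
        · exact ⟨y, IsPre.refl _, Or.inl h1⟩
        · push Not at h1
          obtain ⟨z, hz, hz0⟩ := h1
          have hzc : InD z.1 z.2 c := RO.mem_lower hp0 hz0
          obtain ⟨p', s', N', h2, h3, h4⟩ := phi_dense H hX hno (fun n σ => nv N (n, σ)) z.1 z.2 hzc
          exact ⟨(p', s'), IsPre.trans (L := PLe) _ _ _ h2 hz, Or.inr ⟨N', h3, h4⟩⟩) s0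
  have hU : ∀ σ τ, Loc s (U σ τ) := fun σ τ =>
    loc_of_dec fun p => hsd (Sum.inl (σ, τ)) (empty_subset _) p
  refine ⟨p0, s, Loc_mono hp0 hs (Loc_refl _ _), hlow0.mono hs.1, hU,
    OcaPrep_locX H hX fun N hN => hsd (Sum.inr (Sum.inl N)) (OcaPrep_sp_iff.2 hN),
    OcaPrep_last H hX hs hU fun N hN => hsd (Sum.inr (Sum.inr N)) (OcaPrep_sp_iff.2 hN)⟩

end MOF
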