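import Pool.Agent.W_3b51b4_h32.TCC

set_option autoImplicit false
set_option linter.unusedSectionVars false

/-!
# MP_3b51b4_gt : plans and the forcing

A plan `s = (l, E)` is a length `l : L` and raw names `E` (read only below `l`).  `SLe s' s`: the plan `s'` extends `s`.
The forcing is the set of the pairs `(p, s)` of a condition and a plan; `(p', s') ≤ (p, s)` if `s'` extends `s` and `p' ≤ p` in the iteration of `s`.
-/

universe u

open Cardinal Set

namespace MOF

open Pool.Agent.W_MP_315f31_lc W61

/-- The plans. -/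
abbrev Plan (W K L : Type u) : Type u := L × (L → Nm W K L)

variable {W K L : Type u} [LinearOrder W] [LinearOrder L] [WellFoundedLT L]

/-- `s'` extends `s`. -/
def SLe (s' s : Plan W K L) : Prop := s.1 ≤ s'.1 ∧ ∀ b < s.1, s'.2 b = s.2 b

theorem SLe.refl (s : Plan W K L) : SLe s s := ⟨le_rfl, fun _ _ => rfl⟩

theorem SLe.trans {s t r : Plan W K L} (h1 : SLe s t) (h2 : SLe t r) : SLe s r :=
  ⟨h2.1.trans h1.1, fun b hb => (h1.2 b (hb.trans_le h2.1)).trans (h2.2 b hb)⟩

/-- The order of the iteration of a plan. -/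
abbrev SO (s : Plan W K L) : Cond W K L → Cond W K L → Prop := Ord s.2 s.1

/-- The order of the forcing. -/
def PLe (x y : Cond W K L × Plan W K L) : Prop := SLe x.2 y.2 ∧ SO y.2 x.1 y.1

/-- the iterations of `s` and of an extension agree up to the length of `s` -/
theorem SLe.ord {s' s : Plan W K L} (h : SLe s' s) : Ord s'.2 s.1 = SO s := Ord_congr s.1 h.2

theorem SO_of_ext {s' s : Plan W K L} (h : SLe s' s) {p q : Cond W K L} (hpq : SO s' p q) :
    SO s p q := by
  have h1 := Ord_mono h.1 hpq
  rwa [h.ord] at h1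

instance : IsPre (PLe (W := W) (K := K) (L := L)) where
  refl x := ⟨SLe.refl _, Ord_refl _ _ _⟩
  trans x y z h1 h2 := ⟨h1.1.trans h2.1, Ord_trans _ _ _ _ _ (SO_of_ext h2.1 h1.2) h2.2⟩

/-- `q` below the length of `s` and `p` above it is stronger than `p` in the longer iteration -/
theorem SO_glue {s' s : Plan W K L} (h : SLe s' s) {q p : Cond W K L} (hq : SO s q p) :
    SO s' (glue s.1 q p) p := by
  apply Ord_glue
  rwa [h.ord]

/-- for conditions below the length of `s` -/
theorem SO_low_iff {s' s : Plan W K L} (h : SLe s' s) {p q : Cond W K L} (hq : Low s.1 q.2) :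
    SO s' p q ↔ SO s p q := by
  unfold SO
  rw [Ord_low_iff h.1 hq, h.ord]

/-- The algebra of the iteration of a plan. -/
abbrev BB (s : Plan W K L) : Type u := DD (SO s)

variable (W K L) in
/-- The algebra of the forcing. -/
abbrev Dt : Type u := DD (PLe (W := W) (K := K) (L := L))

/-- Density of sets of conditions for a plan. -/
def DnsS (s : Plan W K L) (d : Set (Cond W K L × Plan W K L)) : Prop :=
  ∀ p, ∃ q, SO s q p ∧ (q, s) ∈ d

end MOF
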