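import Pool.Agent.W_3b51b4_h32.LocE
import Pool.Agent.W_3b51b4_h32.TCCAll

set_option autoImplicit false
set_option linter.unusedSectionVars false

/-!
# MP_3b51b4_gt : one more stage

`R : W → W → BB s` is (the name of) a preorder with the countable chain condition.

* `cls_raw`: `{p | InB p b}` is regular open (`RO.mem_of_dense`, `RO.mem_lower`).
* `good_raw`: `refl`, `trans` from `hR`.  `fc`: let `C` be given, closed under extensions, and suppose that for some `p`: for all `q ≤ p` and `β` there are `x ≥ β`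
  and `r ≤ q` with `r ∈ C x`.  Let `A x = toD' (· ∈ C x)`, `c = io p`; `c ≤ ⨆ x : Ici z, A x` for all `z`.  By `hc` there are `x ≠ y`, `z` with
  `c ⊓ (A x ⊓ A y ⊓ (R z x ⊓ R z y)) ≠ ⊥`: some `q` is in it, some `r ≤ q` is in `C x`, some `r' ≤ r` is in `C x ∩ C y`, and `InB r' (R z x)`,
  `InB r' (R z y)`, against the assumption on `C`.
* `exists_stg`: `s1 = (l', update s.2 s.1 (rawN s R))`, `l'` the successor of `s.1` (the least element of the elements `> s.1`; they exist by `H.bdL`).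
  `ev s1.2 s.1 x y = evR (Ord s1.2 s.1) (rawN s R) x y`, `Ord s1.2 s.1 = SO s` (`Ord_congr`), `good_raw`, `cls_raw`.
-/

universe u v

open Cardinal Set IM

namespace MOF

open Pool.Agent.W_MP_315f31_lc W61 MAO

variable {W K L : Type u} [LinearOrder W] [LinearOrder L] [WellFoundedLT L]

/-- The raw name of `R`. -/
def rawN (s : Plan W K L) (R : W → W → BB s) : Nm W K L := fun x y => {p | InB p (R x y)}

/-- `s1` is `s` with the stage `R` added. -/
structure Stg (s s1 : Plan W K L) (R : W → W → BB s) : Prop where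
  len : ∀ x, x < s1.1 ↔ x ≤ s.1
  nm : ∀ b < s.1, s1.2 b = s.2 b
  ev : ∀ x y, ev s1.2 s.1 x y = {p | InB p (R x y)}

theorem Stg.ext {s s1 : Plan W K L} {R : W → W → BB s} (h : Stg s s1 R) : SLe s1 s :=
  ⟨((h.len s.1).2 le_rfl).le, h.nm⟩

theorem cls_raw (s : Plan W K L) (R : W → W → BB s) (x y : W) :
    cls (SO s) (rawN s R x y) = {p | InB p (R x y)} := by
  ext p
  constructor
  · intro h
    refine RO.mem_of_dense (P := PL (SO s)) fun q hq => ?_
    obtain ⟨r, hr, t, ht, hrt⟩ := h q hq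
    exact ⟨r, hr, RO.mem_lower (P := PL (SO s)) ht hrt⟩
  · intro h q hq
    exact ⟨q, Loc_refl s q, q, RO.mem_lower (P := PL (SO s)) h hq, Loc_refl s q⟩

theorem good_raw (s : Plan W K L) (R : W → W → BB s) (hR : PreV R) (hc : CccV R) :
    Good (SO s) (fun x y => cls (SO s) (rawN s R x y)) := by
  have e : (fun x y => cls (SO s) (rawN s R x y)) = fun x y => {p | InB p (R x y)} := by
    funext x y
    exact cls_raw s R x y
  rw [e]
  refine ⟨fun x p => ?_, fun x y z p h1 h2 => ?_, ?_⟩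
  · show InB p (R x x)
    rw [hR.refl]
    exact RO.mem_top _
  · exact hR.trans x y z ⟨h1, h2⟩
  · intro C hC hC2 p
    by_contra hcon
    push Not at hcon
    have hA : ∀ z, (io p : BB s) ≤ ⨆ x : Ici z,
        (toD' (L := SO s) (fun r => r ∈ C x.1) (fun p q h1 h2 => hC x.1 p q h1 h2) : BB s) := by
      intro z
      rw [le_io_iff, RO.mem_iSup]
      intro q hq
      obtain ⟨x, hx, r, hr, hr'⟩ := hcon q hq z
      exact ⟨r, hr, ⟨x, hx⟩, mem_toD' (L := SO s) _ hr'⟩
    obtain ⟨x, y, z, hxy, hne⟩ := hc (fun x => toD' (L := SO s) (fun r => r ∈ C x)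
      (fun p q h1 h2 => hC x p q h1 h2)) (io p) (io_ne_bot p) hA
    obtain ⟨q, hq⟩ := exists_mem hne
    obtain ⟨r, hr, hrx⟩ := hq.2.1.1 q (Loc_refl s q)
    obtain ⟨t, ht, hty⟩ := hq.2.1.2 r hr
    have htq : SO s t q := Loc_trans ht hr
    exact hC2 x y hxy t (hC x r t hrx ht) hty z
      (RO.mem_lower (P := PL (SO s)) hq.2.2.1 htq) (RO.mem_lower (P := PL (SO s)) hq.2.2.2 htq)

theorem exists_stg (H : Hyp W K L) (s : Plan W K L) (R : W → W → BB s) (hR : PreV R)
    (hc : CccV R) : ∃ s1, Stg s s1 R := by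
  have hW : Nonempty W := by
    obtain ⟨e⟩ := H.finW
    exact ⟨e.symm ∅⟩
  have hK : (1 : Cardinal.{u}) ≤ #K :=
    (Cardinal.one_le_iff_ne_zero.2 (Cardinal.mk_ne_zero W)).trans H.wk
  obtain ⟨b, hb⟩ := H.bdL PUnit (fun _ => s.1) (by simpa using hK)
  obtain ⟨l, hl, hmin⟩ := (wellFounded_lt (α := L)).has_min {b | s.1 < b} ⟨b, hb PUnit.unit⟩
  have hnm : ∀ b < s.1, Function.update s.2 s.1 (rawN s R) b = s.2 b :=
    fun b hb => Function.update_of_ne hb.ne _ _
  refine ⟨(l, Function.update s.2 s.1 (rawN s R)), ⟨fun x => ⟨fun hx => ?_, fun hx => ?_⟩, hnm, ?_⟩⟩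
  · exact not_lt.1 fun h => hmin x h hx
  · exact hx.trans_lt hl
  · intro x y
    have h1 : Ord (Function.update s.2 s.1 (rawN s R)) s.1 = SO s := Ord_congr s.1 hnm
    show evR (Ord (Function.update s.2 s.1 (rawN s R)) s.1)
      (Function.update s.2 s.1 (rawN s R) s.1) x y = _
    rw [h1, Function.update_self]
    ext p
    constructor
    · intro h
      have h2 := h (good_raw s R hR hc)
      rwa [cls_raw] at h2
    · intro h _
      rwa [cls_raw]

/-- the values at the new place -/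
theorem Stg.le {s s1 : Plan W K L} {R : W → W → BB s} (h : Stg s s1 R) {s' : Plan W K L}
    (hs' : SLe s' s1) {p q : Cond W K L} (hpq : SO s' q p) {y : W} (hy : p.2.1 s.1 = some y) :
    ∃ y', q.2.1 s.1 = some y' ∧ InB q (R y' y) := by
  have h1 : SO s1 q p := SO_of_ext hs' hpq
  obtain ⟨y', h2, h3⟩ := (Ord_iff.1 h1).2 s.1 ((h.len s.1).2 le_rfl) y hy
  rw [h.ev] at h3
  exact ⟨y', h2, h3⟩

/-- The generic filter of the new stage. -/
def Gn {s s1 : Plan W K L} {R : W → W → BB s} (h : Stg s s1 R) (hR : PreV R) (x : W) :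
    Dt W K L :=
  toD' (L := PLe) (fun z => SLe z.2 s1 ∧ ∃ y, z.1.2.1 s.1 = some y ∧ InB z.1 (R y x)) (by
    rintro z w ⟨h1, y, h2, h3⟩ hw
    obtain ⟨y', h4, h5⟩ := h.le h1 hw.2 h2
    refine ⟨hw.1.trans h1, y', h4, ?_⟩
    have h6 : InB w.1 (R y x) := RO.mem_lower h3 (SO_of_ext (h1.trans h.ext) hw.2)
    exact hR.trans y' y x ⟨h5, h6⟩)

end MOF
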