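import Pool.Agent.W_MP_3b51b4_h40.TreeMO

set_option autoImplicit false
set_option linter.unusedSectionVars false

/-!
# MP_3b51b4_gt : finite initial segments of names of reals

`B` is a complete Boolean algebra, names of reals are functions `ℕ → B`.  `b ≠ ⊥` is thought of as a condition.

* `ini_decide`: induction on `k`: `v ++ [true]` or `v ++ [false]`, `b ⊓ y k ≠ ⊥` or `b ⊓ (y k)ᶜ ≠ ⊥`.
* `in_decide`: induction on `ys`.
* `ini_mono`: `iniV` is an infimum over the places of the sequence.
* `ini_comp`: at every place `i < s.length` the entries of `s` and `t` agree, otherwise `iniV s y ⊓ iniV t y ≤ y i ⊓ (y i)ᶜ = ⊥`.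
* `op_decide`: `b ≤ ⨆ s t, ..` and `b ≠ ⊥`.
* `op_irr`: if `s.length = t.length` and `iniV s x ⊓ iniV t x ≠ ⊥` then `s = t` and `U s s = ⊥`.
* `sep`: `ys` is a list of names which are pairwise connected below `b`.  For every pair `i < j` choose (one after the other, getting stronger
  conditions, `op_decide`) sequences `s i j`, `t i j` with `b' ≤ U (s i j) (t i j) ⊓ iniV (s i j) (y i) ⊓ iniV (t i j) (y j)`.
  Let `k` be the maximum of the lengths, and `b'' ≤ b'`, `vs` with `b'' ≤ inV vs ys`, all of length `k` (`in_decide`).  By `ini_comp`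
  `s i j <+: v i`, `t i j <+: v j`, so `U (s i j) (t i j) ≤ U (v i) (v j)` (`CodeV.mono`; if the lengths of `s i j` and `t i j` differ the value
  is `⊥`).  A proof by induction on `ys` is possible: first `sep` for the tail, then connect the head with the elements of the tail.
-/

universe u

open Set

namespace MOF

open MAO

variable {B : Type u} [CompleteBooleanAlgebra B]

/-- `v i` is an initial segment of `y i` for all `i` (the lists have the same length) -/
def inV : List (List Bool) → List (ℕ → B) → B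
  | [], [] => ⊤
  | v :: vs, y :: ys => iniV v y ⊓ inV vs ys
  | _, _ => ⊥

theorem strV_le_iff {b : B} {s : List Bool} {y : ℕ → B} :
    b ≤ iniV s y ↔ ∀ (i : ℕ) (hi : i < s.length), b ≤ if s[i] = true then y i else (y i)ᶜ := by
  unfold iniV
  rw [le_iInf_iff]
  constructor
  · intro h i hi
    exact h ⟨i, hi⟩
  · intro h i
    exact h i.1 i.2

theorem strV_append {b : B} {s : List Bool} {y : ℕ → B} {c : Bool} (h : b ≤ iniV s y)
    (hc : b ≤ if c = true then y s.length else (y s.length)ᶜ) : b ≤ iniV (s ++ [c]) y := by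
  rw [strV_le_iff] at h ⊢
  intro i hi
  by_cases h1 : i < s.length
  · rw [List.getElem_append_left h1]
    exact h i h1
  · have h2 : i = s.length := by
      rw [List.length_append, List.length_singleton] at hi
      omega
    subst h2
    rw [List.getElem_append_right (le_refl _)]
    simpa using hc

theorem ini_decide {b : B} (hb : b ≠ ⊥) (y : ℕ → B) (k : ℕ) :
    ∃ b' ≤ b, b' ≠ ⊥ ∧ ∃ v : List Bool, v.length = k ∧ b' ≤ iniV v y := by
  induction k with
  | zero =>
    refine ⟨b, le_rfl, hb, [], rfl, ?_⟩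
    rw [strV_le_iff]
    intro i hi
    exact absurd hi (Nat.not_lt_zero i)
  | succ k ih =>
    obtain ⟨b1, hb1, hb1n, v, hv, hbv⟩ := ih
    by_cases h : b1 ⊓ y k = ⊥
    · have h1 : b1 ≤ (y k)ᶜ := le_compl_iff_disjoint_right.2 (disjoint_iff.2 h)
      refine ⟨b1, hb1, hb1n, v ++ [false], by simp [hv], strV_append hbv ?_⟩
      rw [hv]
      simpa using h1
    · refine ⟨b1 ⊓ y k, inf_le_left.trans hb1, h, v ++ [true], by simp [hv],
        strV_append (inf_le_left.trans hbv) ?_⟩
      rw [hv]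
      simp

theorem in_decide {b : B} (hb : b ≠ ⊥) (ys : List (ℕ → B)) (k : ℕ) :
    ∃ b' ≤ b, b' ≠ ⊥ ∧ ∃ vs : List (List Bool), vs.length = ys.length ∧ (∀ v ∈ vs, v.length = k) ∧
      b' ≤ inV vs ys := by
  induction ys with
  | nil => exact ⟨b, le_rfl, hb, [], rfl, by simp, le_top⟩
  | cons y ys ih =>
    obtain ⟨b1, hb1, hb1n, vs, hl, hk, hv⟩ := ih
    obtain ⟨b2, hb2, hb2n, v, hvk, hbv⟩ := ini_decide hb1n y k
    refine ⟨b2, hb2.trans hb1, hb2n, v :: vs, by simp [hl], ?_, le_inf hbv (hb2.trans hv)⟩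
    intro u hu
    rcases List.mem_cons.1 hu with rfl | hu
    · exact hvk
    · exact hk u hu

theorem ini_mono {s t : List Bool} (h : s <+: t) (y : ℕ → B) : iniV t y ≤ iniV s y := by
  obtain ⟨u, rfl⟩ := h
  rw [strV_le_iff]
  intro i hi
  have h1 := (strV_le_iff (b := iniV (s ++ u) y) (s := s ++ u) (y := y)).1 le_rfl i
    (by rw [List.length_append]; omega)
  rw [List.getElem_append_left hi] at h1
  exact h1

theorem in_mono {vs us : List (List Bool)} (h : List.Forall₂ (fun v u => v <+: u) vs us)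
    (ys : List (ℕ → B)) : inV us ys ≤ inV vs ys := by
  induction h generalizing ys with
  | nil => exact le_rfl
  | cons h1 _ ih =>
    cases ys with
    | nil => exact le_rfl
    | cons y ys => exact inf_le_inf (ini_mono h1 y) (ih ys)

theorem in_length {vs : List (List Bool)} {ys : List (ℕ → B)} (h : inV vs ys ≠ ⊥) :
    vs.length = ys.length := by
  induction vs generalizing ys with
  | nil =>
    cases ys with
    | nil => rfl
    | cons y ys => exact absurd rfl h
  | cons v vs ih =>
    cases ys with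
    | nil => exact absurd rfl h
    | cons y ys =>
      have h1 : inV vs ys ≠ ⊥ := by
        intro h2
        apply h
        show iniV v y ⊓ inV vs ys = ⊥
        rw [h2, inf_bot_eq]
      rw [List.length_cons, List.length_cons, ih h1]

theorem ini_comp {s t : List Bool} {y : ℕ → B} (h : iniV s y ⊓ iniV t y ≠ ⊥)
    (hl : s.length ≤ t.length) : s <+: t := by
  rw [List.prefix_iff_eq_take]
  apply List.ext_getElem
  · rw [List.length_take]
    omega
  · intro i h1 h2
    rw [List.getElem_take]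
    by_contra hne
    apply h
    have hit : i < t.length := lt_of_lt_of_le h1 hl
    have e1 := (strV_le_iff (b := iniV s y ⊓ iniV t y) (s := s) (y := y)).1 inf_le_left i h1
    have e2 := (strV_le_iff (b := iniV s y ⊓ iniV t y) (s := t) (y := y)).1 inf_le_right i hit
    rw [← le_bot_iff]
    cases hs : s[i] <;> cases ht : t[i]
    · exact absurd (by rw [hs, ht]) hne
    · rw [hs] at e1
      rw [ht] at e2
      simp only [if_true, Bool.false_eq_true, if_false] at e1 e2
      exact (le_inf e2 e1).trans (inf_compl_self (y i)).le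
    · rw [hs] at e1
      rw [ht] at e2
      simp only [if_true, Bool.false_eq_true, if_false] at e1 e2
      exact (le_inf e1 e2).trans (inf_compl_self (y i)).le
    · exact absurd (by rw [hs, ht]) hne

theorem op_decide {U : List Bool → List Bool → B} {x y : ℕ → B} {b : B} (hb : b ≠ ⊥)
    (h : b ≤ opV U x y) : ∃ b' ≤ b, b' ≠ ⊥ ∧ ∃ s t, b' ≤ U s t ∧ b' ≤ iniV s x ∧ b' ≤ iniV t y := by
  by_contra hcon
  push Not at hcon
  apply hb
  have h1 : b = b ⊓ opV U x y := (inf_eq_left.2 h).symm
  rw [h1]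
  unfold opV
  rw [← le_bot_iff, inf_iSup_eq]
  refine iSup_le fun s => ?_
  rw [inf_iSup_eq]
  refine iSup_le fun t => ?_
  by_contra hne
  have hne' : b ⊓ (U s t ⊓ (iniV s x ⊓ iniV t y)) ≠ ⊥ := fun h2 => hne (le_bot_iff.2 h2)
  exact hcon _ inf_le_left hne' s t (inf_le_right.trans inf_le_left)
    (inf_le_right.trans (inf_le_right.trans inf_le_left))
    (inf_le_right.trans (inf_le_right.trans inf_le_right))

theorem op_symm {U : List Bool → List Bool → B} (hU : CodeV U) (x y : ℕ → B) :
    opV U x y = opV U y x := by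
  unfold opV
  rw [iSup_comm]
  refine iSup_congr fun s => iSup_congr fun t => ?_
  rw [hU.symm, inf_comm (iniV t x)]

theorem op_irr {U : List Bool → List Bool → B} (hU : CodeV U) (x : ℕ → B) : opV U x x = ⊥ := by
  unfold opV
  rw [← le_bot_iff]
  refine iSup_le fun s => iSup_le fun t => ?_
  by_contra hne
  have hne' : U s t ⊓ (iniV s x ⊓ iniV t x) ≠ ⊥ := fun h2 => hne (le_bot_iff.2 h2)
  have h1 : iniV s x ⊓ iniV t x ≠ ⊥ := by
    intro h
    apply hne'
    rw [h, inf_bot_eq]
  have h2 : U s t ≠ ⊥ := by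
    intro h
    apply hne'
    rw [h, bot_inf_eq]
  have h3 : s.length = t.length := by
    by_contra h4
    exact h2 (hU.len s t h4)
  have h4 : s = t := (ini_comp h1 h3.le).eq_of_length h3
  rw [h4] at h2
  exact h2 (hU.irr t)

theorem op_of {U : List Bool → List Bool → B} {x y : ℕ → B} {b : B} {s t : List Bool}
    (h : b ≤ U s t) (hs : b ≤ iniV s x) (ht : b ≤ iniV t y) : b ≤ opV U x y :=
  (le_inf h (le_inf hs ht)).trans ((le_iSup (fun t => U s t ⊓ (iniV s x ⊓ iniV t y)) t).trans
    (le_iSup (fun s => ⨆ t, U s t ⊓ (iniV s x ⊓ iniV t y)) s))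

theorem strV_ext {U : List Bool → List Bool → B} (hU : CodeV U) {x y : ℕ → B} {b : B}
    (hb : b ≠ ⊥) {s t v u : List Bool} {k : ℕ} (h : b ≤ U s t) (hs : b ≤ iniV s x)
    (ht : b ≤ iniV t y) (hv : b ≤ iniV v x) (hu : b ≤ iniV u y) (hvk : v.length = k)
    (huk : u.length = k) (hsk : s.length ≤ k) (htk : t.length ≤ k) : b ≤ U v u := by
  have h1 : s <+: v := ini_comp (fun h0 => hb (le_bot_iff.1 (h0 ▸ le_inf hs hv))) (by omega)
  have h2 : t <+: u := ini_comp (fun h0 => hb (le_bot_iff.1 (h0 ▸ le_inf ht hu))) (by omega)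
  have h3 : s.length = t.length := by
    by_contra h4
    exact hb (le_bot_iff.1 (hU.len s t h4 ▸ h))
  exact h.trans (hU.mono s t v u h3 (by omega) h1 h2)

theorem strV_head {U : List Bool → List Bool → B} (hU : CodeV U) (y : ℕ → B)
    (zs : List (ℕ → B)) {b : B} (hb : b ≠ ⊥) (h : ∀ z ∈ zs, b ≤ opV U y z) :
    ∃ (K : ℕ) (b' : B), b' ≤ b ∧ b' ≠ ⊥ ∧ ∀ b'' ≤ b', b'' ≠ ⊥ → ∀ (v : List Bool)
      (vs : List (List Bool)) (k : ℕ), K ≤ k → v.length = k → (∀ u ∈ vs, u.length = k) →
      b'' ≤ iniV v y → b'' ≤ inV vs zs → ∀ u ∈ vs, b'' ≤ U v u := by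
  induction zs generalizing b with
  | nil =>
    refine ⟨0, b, le_rfl, hb, ?_⟩
    intro b'' _ hn v vs k _ _ _ _ hvs
    have h1 : inV vs ([] : List (ℕ → B)) ≠ ⊥ := fun h0 => hn (le_bot_iff.1 (h0 ▸ hvs))
    have h2 := in_length h1
    have h3 : vs = [] := List.length_eq_zero_iff.1 (by simpa using h2)
    rw [h3]
    intro u hu
    exact absurd hu List.not_mem_nil
  | cons z zs ih =>
    obtain ⟨b1, hb1, hb1n, s, t, hst, hs, ht⟩ := op_decide hb (h z List.mem_cons_self)
    obtain ⟨K, b2, hb2, hb2n, H⟩ := ih hb1n fun z' hz' =>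
      hb1.trans (h z' (List.mem_cons_of_mem _ hz'))
    refine ⟨max K (max s.length t.length), b2, hb2.trans hb1, hb2n, ?_⟩
    intro b'' hb'' hn v vs k hk hv hvs hbv hin
    have h1 : inV vs (z :: zs) ≠ ⊥ := fun h0 => hn (le_bot_iff.1 (h0 ▸ hin))
    have h2 := in_length h1
    cases vs with
    | nil => simp at h2
    | cons u us =>
      have h3 : b'' ≤ iniV u z ⊓ inV us zs := hin
      intro w hw
      rcases List.mem_cons.1 hw with rfl | hw
      · have hb1'' := hb''.trans hb2
        exact strV_ext hU hn (hb1''.trans hst) (hb1''.trans hs) (hb1''.trans ht) hbv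
          (h3.trans inf_le_left) hv (hvs w List.mem_cons_self) (by omega) (by omega)
      · exact H b'' hb'' hn v us k (by omega) hv (fun u hu => hvs u (List.mem_cons_of_mem _ hu))
          hbv (h3.trans inf_le_right) w hw

theorem strV_all {U : List Bool → List Bool → B} (hU : CodeV U) {b : B} (hb : b ≠ ⊥)
    (ys : List (ℕ → B)) (h : ys.Pairwise fun x y => b ≤ opV U x y) :
    ∃ (K : ℕ) (b' : B), b' ≤ b ∧ b' ≠ ⊥ ∧ ∀ b'' ≤ b', b'' ≠ ⊥ → ∀ (vs : List (List Bool)) (k : ℕ),
      K ≤ k → (∀ u ∈ vs, u.length = k) → b'' ≤ inV vs ys → vs.Pairwise fun s t => b'' ≤ U s t := by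
  induction ys generalizing b with
  | nil =>
    refine ⟨0, b, le_rfl, hb, ?_⟩
    intro b'' _ hn vs k _ _ hvs
    have h1 : inV vs ([] : List (ℕ → B)) ≠ ⊥ := fun h0 => hn (le_bot_iff.1 (h0 ▸ hvs))
    have h2 := in_length h1
    have h3 : vs = [] := List.length_eq_zero_iff.1 (by simpa using h2)
    rw [h3]
    exact List.Pairwise.nil
  | cons y ys ih =>
    rw [List.pairwise_cons] at h
    obtain ⟨K1, b1, hb1, hb1n, H1⟩ := ih hb h.2
    obtain ⟨K2, b2, hb2, hb2n, H2⟩ := strV_head hU y ys hb1n fun z hz => hb1.trans (h.1 z hz)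
    refine ⟨max K1 K2, b2, hb2.trans hb1, hb2n, ?_⟩
    intro b'' hb'' hn vs k hk hvs hin
    have h1 : inV vs (y :: ys) ≠ ⊥ := fun h0 => hn (le_bot_iff.1 (h0 ▸ hin))
    have h2 := in_length h1
    cases vs with
    | nil => simp at h2
    | cons u us =>
      have h3 : b'' ≤ iniV u y ⊓ inV us ys := hin
      rw [List.pairwise_cons]
      refine ⟨?_, ?_⟩
      · exact H2 b'' hb'' hn u us k (by omega) (hvs u List.mem_cons_self)
          (fun w hw => hvs w (List.mem_cons_of_mem _ hw)) (h3.trans inf_le_left)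
          (h3.trans inf_le_right)
      · exact H1 b'' (hb''.trans hb2) hn us k (by omega)
          (fun w hw => hvs w (List.mem_cons_of_mem _ hw)) (h3.trans inf_le_right)

/-- Separation of pairwise connected reals. -/
theorem sep {U : List Bool → List Bool → B} (hU : CodeV U) {b : B} (hb : b ≠ ⊥)
    (ys : List (ℕ → B)) (h : ys.Pairwise fun x y => b ≤ opV U x y) :
    ∃ b' ≤ b, b' ≠ ⊥ ∧ ∃ vs : List (List Bool), vs.length = ys.length ∧ b' ≤ inV vs ys ∧
      vs.Pairwise fun s t => b' ≤ U s t := by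
  obtain ⟨K, b1, hb1, hb1n, H⟩ := strV_all hU hb ys h
  obtain ⟨b2, hb2, hb2n, vs, hl, hk, hin⟩ := in_decide hb1n ys K
  exact ⟨b2, hb2.trans hb1, hb2n, vs, hl, hin, H b2 hb2 hb2n vs K le_rfl hk hin⟩

end MOF
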