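import Pool.Agent.W_3b51b4_h32.TComp

set_option autoImplicit false
set_option linter.unusedSectionVars false

/-!
# MP_3b51b4_gt : the chain condition of the iteration over the collapse

`TCC E a`: the collapse forces that the iteration of length `a` has the countable chain condition, in the form: for every
antichain `A` and every collapse condition `t` there is `t' ≤ t` which is compatible with only countably many
elements of `A`.

`exists_max`: Zorn (`zorn_subset`) for the subsets of `S` which are antichains.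

`TCC.pred`: for every `i` let `M i` be a maximal antichain of `S i` (`exists_max`).  The predicate
`Φ i t := {m ∈ M i | TComp m.1 t}.Countable` is closed under extensions (`TComp.mono`), and dense by `TCC`.  `t_dense` gives `t' ≤ t` with
`Φ i t'` for all `i`.  Take `M' i = {m ∈ M i | TComp m.1 t'}`.  If `PF.L r.1 t'`, then there is `q ≤ r` in `S i`, it is compatible with some
`m ∈ M i`: `s ≤ q`, `s ≤ m`; `s.1` extends `m.1` and `t'`, so `m ∈ M' i`.
-/

universe u v

open Cardinal Set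

namespace MOF

open Pool.Agent.W_MP_315f31_lc W61

/-- The cardinalities. -/
structure Hyp (W K L : Type u) [LinearOrder W] [LinearOrder L] : Prop where
  segW : ∀ x : W, (Iio x).Countable
  bdW : ∀ f : ℕ → W, ∃ b, ∀ n, f n < b
  finW : Nonempty (W ≃ Finset W)
  kpow : #K ^ (ℵ₀ : Cardinal.{u}) = #K
  wk : #W ≤ #K
  segL : ∀ a : L, #(Iio a) ≤ #K
  bdL : ∀ (J : Type u) (f : J → L), #J ≤ #K → ∃ b, ∀ j, f j < b

variable {W K L : Type u} [LinearOrder W] [LinearOrder L] [WellFoundedLT L]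

/-- The chain condition over the collapse. -/
def TCC (E : L → Nm W K L) (a : L) : Prop :=
  ∀ A : Set (Cond W K L), (∀ p ∈ A, ∀ q ∈ A, p ≠ q → ∀ r, Ord E a r p → ¬ Ord E a r q) →
    ∀ t : Tt W K, ∃ t', PF.L t' t ∧ {p ∈ A | TComp p.1 t'}.Countable

/-- Maximal antichains. -/
theorem exists_max {P : Type u} (R : P → P → Prop) [IsPre R] (S : Set P) :
    ∃ M ⊆ S, (∀ p ∈ M, ∀ q ∈ M, p ≠ q → ∀ r, R r p → ¬ R r q) ∧
      ∀ s ∈ S, ∃ m ∈ M, ∃ r, R r s ∧ R r m := by
  let Z : Set (Set P) := {M | M ⊆ S ∧ ∀ p ∈ M, ∀ q ∈ M, p ≠ q → ∀ r, R r p → ¬ R r q}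
  obtain ⟨M, hM⟩ := zorn_subset Z (by
    intro c hc hchain
    refine ⟨⋃₀ c, ⟨?_, ?_⟩, fun s hs => subset_sUnion_of_mem hs⟩
    · exact sUnion_subset fun s hs => (hc hs).1
    · rintro p ⟨s1, hs1, hp⟩ q ⟨s2, hs2, hq⟩ hpq
      rcases hchain.total hs1 hs2 with h | h
      · exact (hc hs2).2 p (h hp) q hq hpq
      · exact (hc hs1).2 p hp q (h hq) hpq)
  have hMZ : M ∈ Z := hM.prop
  refine ⟨M, hMZ.1, hMZ.2, fun s hs => ?_⟩
  by_contra hcon
  have hcon' : ∀ m ∈ M, ∀ r, R r s → ¬ R r m := by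
    intro m hm r h1 h2
    exact hcon ⟨m, hm, r, h1, h2⟩
  have hins : insert s M ∈ Z := by
    refine ⟨insert_subset hs hMZ.1, ?_⟩
    rintro p (rfl | hp) q (rfl | hq) hpq r h1 h2
    · exact hpq rfl
    · exact hcon' q hq r h1 h2
    · exact hcon' p hp r h2 h1
    · exact hMZ.2 p hp q hq hpq r h1 h2
  have hsM : s ∈ M := hM.le_of_ge hins (subset_insert s M) (mem_insert s M)
  exact hcon' s hsM s (IsPre.refl s) (IsPre.refl s)

/-- Countable predense subsets of dense sets. -/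
theorem TCC.pred {E : L → Nm W K L} {a : L} (h : TCC E a) {ι : Type v} [Countable ι]
    (S : ι → Set (Cond W K L)) (t : Tt W K)
    (hS : ∀ i p, PF.L p.1 t → ∃ q, Ord E a q p ∧ q ∈ S i) :
    ∃ t', PF.L t' t ∧ ∃ M : ι → Set (Cond W K L), (∀ i, (M i).Countable) ∧ (∀ i, M i ⊆ S i) ∧
      ∀ i r, PF.L r.1 t' → ∃ m ∈ M i, ∃ s, Ord E a s r ∧ Ord E a s m := by
  have hmax := fun i => exists_max (Ord E a) (S i)
  choose M hMS hMa hMm using hmax
  obtain ⟨t', ht', hΦ⟩ := t_dense (fun (i : ι) (s : Tt W K) => {p ∈ M i | TComp p.1 s}.Countable)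
    (by
      intro i s r h1 h2
      refine Set.Countable.mono ?_ h1
      intro p hp
      exact ⟨hp.1, hp.2.mono (tl_refl _) h2⟩) t
    (fun i s _ => h (M i) (hMa i) s)
  refine ⟨t', ht', fun i => {p ∈ M i | TComp p.1 t'}, hΦ, fun i p hp => hMS i hp.1, ?_⟩
  intro i r hr
  obtain ⟨q, hqr, hqS⟩ := hS i r (tl_trans hr ht')
  obtain ⟨m, hm, s, hsq, hsm⟩ := hMm i q hqS
  have hsr : Ord E a s r := Ord_trans E a s q r hsq hqr
  exact ⟨m, ⟨hm, s.1, (Ord_iff.1 hsm).1, tl_trans (Ord_iff.1 hsr).1 hr⟩, s, hsr, hsm⟩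

end MOF
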