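import Pool.Agent.W_3b51b4_h32.TCC

set_option autoImplicit false
set_option linter.unusedSectionVars false

/-!
# MP_3b51b4_gt : the chain condition, length `0`

If `a` is the least element of `L` then `Ord E a p' p ↔ PF.L p'.1 p.1`.  Let `A` be an antichain and `t` be given.  If some `p ∈ A` has
`TComp p.1 t`, let `t'` be a common extension of `p.1` and `t`.  Then `p` is the only element of `A` compatible with `t'`: if `q ∈ A` and `r` extends
`q.1` and `t'`, then `r` extends `p.1` and `q.1`, so `p = q` (use `setT r p`).  Otherwise take `t' = t`.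
-/

universe u

open Cardinal Set

namespace MOF

open Pool.Agent.W_MP_315f31_lc W61

variable {W K L : Type u} [LinearOrder W] [LinearOrder L] [WellFoundedLT L]

theorem TCC_zero (E : L → Nm W K L) (a : L) (ha : ∀ b, ¬ b < a) : TCC E a := by
  have key : ∀ p q : Cond W K L, PF.L p.1 q.1 → Ord E a p q := fun p q h =>
    Ord_iff.2 ⟨h, fun b hb => absurd hb (ha b)⟩
  intro A hA t
  by_cases h : ∃ p ∈ A, TComp p.1 t
  · obtain ⟨p, hp, t', h1, h2⟩ := h
    refine ⟨t', h2, (Set.countable_singleton p).mono ?_⟩
    rintro q ⟨hq, s, h3, h4⟩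
    by_contra hne
    refine hA p hp q hq (fun e => hne e.symm) (setT s p) (key _ _ ?_) (key _ _ h3)
    exact tl_trans h4 h1
  · refine ⟨t, tl_refl t, Set.countable_empty.mono ?_⟩
    rintro q ⟨hq, h1⟩
    exact (h ⟨q, hq, h1⟩).elim

end MOF
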