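import Pool.Agent.W_3b51b4_h32.Cond
import Pool.Agent.W_61ad90_h15.Dist

set_option autoImplicit false
set_option linter.unusedSectionVars false

/-!
# MP_3b51b4_gt : the collapse part is `σ`-closed

`t_lim`: the union of a decreasing sequence of countable partial functions (`s n a = some b` for some `n`; the values for
different `n` agree) has countable domain.

`t_dense`: enumerate `ι` (if it is empty take `t' = t`; otherwise a surjection `e : ℕ → ι`), choose recursively `s 0 = t`,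
`s (n + 1) ≤ s n` with `Φ (e n) (s (n + 1))`, and apply `t_lim`.
-/

universe u v

open Cardinal Set

namespace MOF

open Pool.Agent.W_MP_315f31_lc W61

variable {W K : Type u}

/-- Compatible collapse parts. -/
def TComp (s t : Tt W K) : Prop := ∃ r : Tt W K, PF.L r s ∧ PF.L r t

theorem TComp.mono {s s' t t' : Tt W K} (h : TComp s' t') (hs : PF.L s' s) (ht : PF.L t' t) :
    TComp s t := by
  obtain ⟨r, h1, h2⟩ := h
  exact ⟨r, fun a b hab => h1 a b (hs a b hab), fun a b hab => h2 a b (ht a b hab)⟩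

theorem t_lim (s : ℕ → Tt W K) (h : ∀ n, PF.L (s (n + 1)) (s n)) : ∃ t : Tt W K, ∀ n, PF.L t (s n) := by
  exact PF.closedN s h

theorem t_dense {ι : Type v} [Countable ι] (Φ : ι → Tt W K → Prop)
    (hm : ∀ i s t, Φ i t → PF.L s t → Φ i s) (t : Tt W K)
    (hd : ∀ i s, PF.L s t → ∃ r, PF.L r s ∧ Φ i r) : ∃ t', PF.L t' t ∧ ∀ i, Φ i t' := by
  rcases isEmpty_or_nonempty ι with hι | hι
  · exact ⟨t, IsPre.refl t, fun i => hι.elim i⟩
  · obtain ⟨e, he⟩ := exists_surjective_nat ι
    have hstep : ∀ (n : ℕ) (s : {s : Tt W K // PF.L s t}),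
        ∃ r : {s : Tt W K // PF.L s t}, PF.L r.1 s.1 ∧ Φ (e n) r.1 := by
      rintro n ⟨s, hs⟩
      obtain ⟨r, hr1, hr2⟩ := hd (e n) s hs
      exact ⟨⟨r, IsPre.trans _ _ _ hr1 hs⟩, hr1, hr2⟩
    choose g hg1 hg2 using hstep
    let s : ℕ → {s : Tt W K // PF.L s t} := fun n => Nat.rec ⟨t, IsPre.refl t⟩ (fun n x => g n x) n
    have hs : ∀ n, s (n + 1) = g n (s n) := fun _ => rfl
    obtain ⟨t', ht'⟩ := t_lim (fun n => (s n).1) (fun n => by
      change PF.L (s (n + 1)).1 (s n).1
      rw [hs n]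
      exact hg1 n (s n))
    refine ⟨t', ht' 0, fun i => ?_⟩
    obtain ⟨n, rfl⟩ := he i
    refine hm (e n) t' (s (n + 1)).1 ?_ (ht' (n + 1))
    rw [hs n]
    exact hg2 n (s n)

end MOF
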